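import Pool.Agent.H36.BP.SubA
import Pool.Agent.H36.BP.MaxP

/-!
# E2 AhlA: Ahlfors's lemma

`sub_disc`: `|R² - conj(b) w|² = (R² - |w|²)(R² - |b|²) + R² |w - b|²`, so `R² - |w|² = |h| (1 - R² |w - b|² / |R² - conj(b) w|²)` with `h = (R² - conj(b) w)² / D`,
`D = R² - |b|²`: the exponent of `R² - |w|²` at `b` is `- (R / D)²`.

`ahlfors`: at the maximum `b` of `l w (R² - |w - z|²)` on the disc, `c (l b)² ≤ (R / D)²`, so `l z R² ≤ l b D ≤ R / √c` for every `R`.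
-/

set_option autoImplicit false

open Topology Filter Metric

noncomputable section

namespace Pool.Agent.E2

open Pool.Agent.H36.BP (Sub)

private theorem identity (R : ℝ) (b w : ℂ) :
    ‖(R : ℂ) ^ 2 - (starRingEnd ℂ) b * w‖ ^ 2 = (R ^ 2 - ‖w‖ ^ 2) * (R ^ 2 - ‖b‖ ^ 2) + R ^ 2 * ‖w - b‖ ^ 2 := by
  rw [← Complex.normSq_eq_norm_sq, ← Complex.normSq_eq_norm_sq, ← Complex.normSq_eq_norm_sq, ← Complex.normSq_eq_norm_sq]
  simp only [Complex.normSq_apply, Complex.sub_re, Complex.sub_im, Complex.mul_re, Complex.mul_im, Complex.conj_re, Complex.conj_im, ← Complex.ofReal_pow,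
    Complex.ofReal_re, Complex.ofReal_im]
  ring

theorem sub_disc {R : ℝ} (hR : 0 < R) (z : ℂ) {b : ℂ} (hb : ‖b - z‖ < R) :
    Sub (fun w => R ^ 2 - ‖w - z‖ ^ 2) b (-(R / (R ^ 2 - ‖b - z‖ ^ 2)) ^ 2) := by
  have hD : 0 < R ^ 2 - ‖b - z‖ ^ 2 := by
    have := norm_nonneg (b - z)
    nlinarith
  set D : ℝ := R ^ 2 - ‖b - z‖ ^ 2 with hDdef
  refine ⟨hD, fun c' hc' => ?_⟩
  set q : ℂ → ℂ := fun w => (R : ℂ) ^ 2 - (starRingEnd ℂ) (b - z) * (w - z) with hq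
  have hqa : AnalyticAt ℂ q b := by
    rw [hq]
    fun_prop
  have hqb : ‖q b‖ ^ 2 = D ^ 2 := by
    have := identity R (b - z) (b - z)
    rw [sub_self, norm_zero] at this
    rw [hq]
    simp only
    rw [this, hDdef]
    ring
  have hid : ∀ w, ‖q w‖ ^ 2 = (R ^ 2 - ‖w - z‖ ^ 2) * D + R ^ 2 * ‖w - b‖ ^ 2 := by
    intro w
    have := identity R (b - z) (w - z)
    rw [show w - z - (b - z) = w - b by ring] at this
    exact this
  refine ⟨fun w => q w ^ 2 * (D : ℂ)⁻¹, by fun_prop, ?_, ?_⟩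
  · rw [norm_mul, norm_pow, hqb, norm_inv, Complex.norm_real, Real.norm_of_nonneg hD.le, pow_two, mul_assoc, mul_inv_cancel₀ hD.ne', mul_one]
  · -- `k w = R² / |q w|²`
    have hk : ContinuousAt (fun w => R ^ 2 / ‖q w‖ ^ 2) b := by
      refine ContinuousAt.div (by fun_prop) ((hqa.continuousAt.norm).pow 2) ?_
      rw [hqb]
      positivity
    have hcon : ContinuousAt (fun w => -c' - R ^ 2 / ‖q w‖ ^ 2 - (R ^ 2 / ‖q w‖ ^ 2) * (-c') * ‖w - b‖ ^ 2) b := by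
      have h2 : ContinuousAt (fun w : ℂ => ‖w - b‖ ^ 2) b := by fun_prop
      exact (continuousAt_const.sub hk).sub ((hk.mul continuousAt_const).mul h2)
    have hpos : 0 < -c' - R ^ 2 / ‖q b‖ ^ 2 - (R ^ 2 / ‖q b‖ ^ 2) * (-c') * ‖b - b‖ ^ 2 := by
      rw [sub_self, norm_zero, hqb]
      have : R ^ 2 / D ^ 2 = (R / D) ^ 2 := by rw [div_pow]
      rw [this]
      simp only [ne_eq, OfNat.ofNat_ne_zero, not_false_eq_true, zero_pow, mul_zero, sub_zero]
      linarith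
    have hq0 : ∀ᶠ w in 𝓝 b, 0 < ‖q w‖ ^ 2 := by
      have h1 : ContinuousAt (fun w => ‖q w‖ ^ 2) b := (hqa.continuousAt.norm).pow 2
      refine h1.eventually (lt_mem_nhds ?_)
      show 0 < ‖q b‖ ^ 2
      rw [hqb]
      positivity
    have hc0 : 0 < -c' := by
      have : 0 ≤ (R / D) ^ 2 := by positivity
      linarith
    filter_upwards [hcon.eventually (lt_mem_nhds hpos), hq0] with w h1 h2
    rw [norm_mul, norm_pow, norm_inv, Complex.norm_real, Real.norm_of_nonneg hD.le]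
    have h3 : R ^ 2 - ‖w - z‖ ^ 2 = ‖q w‖ ^ 2 * D⁻¹ * (1 - R ^ 2 / ‖q w‖ ^ 2 * ‖w - b‖ ^ 2) := by
      have h4 : ‖q w‖ ^ 2 * (R ^ 2 / ‖q w‖ ^ 2) = R ^ 2 := mul_div_cancel₀ _ h2.ne'
      calc R ^ 2 - ‖w - z‖ ^ 2 = D⁻¹ * ((R ^ 2 - ‖w - z‖ ^ 2) * D) := by field_simp
        _ = D⁻¹ * (‖q w‖ ^ 2 - R ^ 2 * ‖w - b‖ ^ 2) := by rw [hid w]; ring
        _ = D⁻¹ * (‖q w‖ ^ 2 - ‖q w‖ ^ 2 * (R ^ 2 / ‖q w‖ ^ 2) * ‖w - b‖ ^ 2) := by rw [h4]
        _ = ‖q w‖ ^ 2 * D⁻¹ * (1 - R ^ 2 / ‖q w‖ ^ 2 * ‖w - b‖ ^ 2) := by ring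
    rw [h3]
    refine mul_le_mul_of_nonneg_left ?_ (by positivity)
    set k : ℝ := R ^ 2 / ‖q w‖ ^ 2 with hkdef
    set s : ℝ := ‖w - b‖ ^ 2 with hsdef
    have hs : 0 ≤ s := by positivity
    have hk0 : 0 ≤ k := by positivity
    have h4 : Real.exp (c' * s) * (1 + (-c') * s) ≤ 1 := by
      have h5 : 1 + (-c') * s ≤ Real.exp (-(c' * s)) := by
        have := Real.add_one_le_exp (-(c' * s))
        linarith
      calc Real.exp (c' * s) * (1 + (-c') * s) ≤ Real.exp (c' * s) * Real.exp (-(c' * s)) :=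
            mul_le_mul_of_nonneg_left h5 (Real.exp_pos _).le
        _ = 1 := by rw [← Real.exp_add]; simp
    have h6 : 1 ≤ (1 - k * s) * (1 + (-c') * s) := by
      have : 0 ≤ (-c' - k - k * (-c') * s) * s := mul_nonneg h1.le hs
      nlinarith
    have h7 : 0 < 1 + (-c') * s := by positivity
    exact le_of_mul_le_mul_right (h4.trans h6) h7

/-- Ahlfors's lemma -/
theorem ahlfors {l : ℂ → ℝ} (hl : Continuous l) (h0 : ∀ z, 0 ≤ l z) {c : ℝ} (hc : 0 < c) (hs : ∀ z, 0 < l z → Sub l z (c * l z ^ 2)) (z : ℂ) :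
    l z = 0 := by
  by_contra hne
  have hlz : 0 < l z := lt_of_le_of_ne (h0 z) (Ne.symm hne)
  -- for every `R`: `l z * R ≤ 1 / √c`
  have key : ∀ R : ℝ, 0 < R → Real.sqrt c * (l z * R) ≤ 1 := by
    intro R hR
    have hcomp : IsCompact (closedBall z R) := isCompact_closedBall z R
    have hcont : Continuous fun w => l w * (R ^ 2 - ‖w - z‖ ^ 2) := by fun_prop
    obtain ⟨b, hbm, hbmax⟩ := hcomp.exists_isMaxOn ⟨z, mem_closedBall_self hR.le⟩ hcont.continuousOn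
    have h1 : l z * R ^ 2 ≤ l b * (R ^ 2 - ‖b - z‖ ^ 2) := by
      have := hbmax (mem_closedBall_self hR.le)
      simpa using this
    have h2 : 0 < l b * (R ^ 2 - ‖b - z‖ ^ 2) := lt_of_lt_of_le (by positivity) h1
    have hD : 0 < R ^ 2 - ‖b - z‖ ^ 2 := by
      rcases pos_and_pos_or_neg_and_neg_of_mul_pos h2 with h | h
      · exact h.2
      · exact absurd h.1 (not_lt.2 (h0 b))
    have hlb : 0 < l b := pos_of_mul_pos_left h2 hD.le
    have hbR : ‖b - z‖ < R := by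
      by_contra hcon
      push Not at hcon
      nlinarith [norm_nonneg (b - z)]
    have hsub := (hs b hlb).mul (sub_disc hR z hbR)
    have hloc : IsLocalMax (fun w => l w * (R ^ 2 - ‖w - z‖ ^ 2)) b := by
      have hball : ball z R ∈ 𝓝 b := isOpen_ball.mem_nhds (by rwa [mem_ball, dist_eq_norm])
      filter_upwards [hball] with w hw
      exact hbmax (ball_subset_closedBall hw)
    have h3 : c * l b ^ 2 + -(R / (R ^ 2 - ‖b - z‖ ^ 2)) ^ 2 ≤ 0 := by
      by_contra hcon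
      push Not at hcon
      exact hsub.not_isLocalMax hcon hloc
    have h4 : (Real.sqrt c * (l b * (R ^ 2 - ‖b - z‖ ^ 2))) ^ 2 ≤ R ^ 2 := by
      have h5 : c * l b ^ 2 ≤ R ^ 2 / (R ^ 2 - ‖b - z‖ ^ 2) ^ 2 := by
        rw [← div_pow]
        linarith
      rw [le_div_iff₀ (by positivity)] at h5
      rw [mul_pow, Real.sq_sqrt hc.le, mul_pow]
      linarith
    have h6 : Real.sqrt c * (l b * (R ^ 2 - ‖b - z‖ ^ 2)) ≤ R := by
      refine (abs_le_of_sq_le_sq' h4 hR.le).2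
    have h7 : Real.sqrt c * (l z * R ^ 2) ≤ R := (mul_le_mul_of_nonneg_left h1 (Real.sqrt_nonneg c)).trans h6
    have h8 : (Real.sqrt c * (l z * R)) * R ≤ 1 * R := by
      calc (Real.sqrt c * (l z * R)) * R = Real.sqrt c * (l z * R ^ 2) := by ring
        _ ≤ R := h7
        _ = 1 * R := by ring
    exact le_of_mul_le_mul_right h8 hR
  have hsc : 0 < Real.sqrt c := Real.sqrt_pos.2 hc
  have := key (2 / (Real.sqrt c * l z)) (by positivity)
  have h9 : Real.sqrt c * (l z * (2 / (Real.sqrt c * l z))) = 2 := by field_simp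
  linarith

end Pool.Agent.E2
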