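import Pool.Agent.E2.Defs
import Pool.Agent.E2.AhlA
import Pool.Agent.H36.BP.SubC

/-!
# E2 AhlB: a section of `M K - H` vanishes along an entire curve in a fibre, if the direction of `du` is constant along the curve

`indep`: in a chart at `x = σ 0`, `f = a₁ σ₁ + a₂ σ₂ + a x` with `du x f i = a₁ E₁ + a₂ E₂ = 0`, thus
`(a₁ w₂ - a₂ w₁) (w'₁ E₁ + w'₂ E₂) = (a₁ w'₂ - a₂ w'₁) (w₁ E₁ + w₂ E₂)`: `Ω x f w (du x w' i)^M = Ω x f w' (du x w i)^M`.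

So there is `l z ≥ 0` with `‖Ω (F z) (F' z) w‖ ‖F z‖ = (l z ‖du (F z) w i‖)^M` for all tangent vectors `w`.

`local_form`: near `z₀`, `F z = c z • σ (τ (F z))` with `c` holomorphic, `c z₀ = 1`; `φ (z, s) = c z • σ (τ (F z) + s w₀)`, `w z = ∂φ/∂s (z, 0)`,
`A z = Ω (F z) (F' z) (w z)`, `B z = du (F z) (w z) i` are holomorphic: `l = (‖A‖ ‖F‖)^(1/M) / ‖B‖`.
-/

set_option autoImplicit false

open Topology Filter Metric

noncomputable section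

namespace Pool.Agent.E2

open Pool.Agent.H36.BP (EN fs wd Sub)
open Pool.Agent.H14.PP (IsCone Tan CurveAt)
open Pool.Agent.H17BP (Surface IsChart IsForm)
open Pool.Agent.AD (TorusMapV DiscreteSub)
open Pool.Agent.H22.W (tan_mem tan_entire)

variable {N g : ℕ} {X : Set (EN N)} {Λ : AddSubgroup (Fin g → ℂ)} {u : EN N → (Fin g → ℂ)}

private theorem cone' (hX : Surface X) : IsCone X := by
  refine ⟨hX.zero, hX.smul, ?_⟩
  rw [← closure_subset_iff_isClosed]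
  intro x hx
  by_cases h0 : x = 0
  · exact Or.inl h0
  · refine Or.inr (hX.closed x ?_ h0)
    rw [Set.insert_eq, closure_union, closure_singleton] at hx
    rcases hx with hx | hx
    · exact absurd hx h0
    · exact hx

private theorem tan_of {x v : EN N} (h : Tan X x v) : v ∈ Pool.Agent.H17BP.Tan X x := by
  obtain ⟨γ, ⟨h1, h2⟩, h3, h4⟩ := h
  exact ⟨γ, h1, h2, h3, h4⟩

private theorem tan_fd {V : Type*} [NormedAddCommGroup V] [NormedSpace ℂ V] {φ : V → EN N} {y : V} (hφ : AnalyticAt ℂ φ y)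
    (hX : ∀ᶠ x in 𝓝 y, φ x ∈ X) (w : V) : Tan X (φ y) (fderiv ℂ φ y w) := by
  have hl : AnalyticAt ℂ (fun z : ℂ => y + z • w) 0 := by fun_prop
  have h0 : y + (0 : ℂ) • w = y := by simp
  have hφ' : AnalyticAt ℂ φ (y + (0 : ℂ) • w) := by rwa [h0]
  refine ⟨fun z => φ (y + z • w), ⟨AnalyticAt.comp (g := φ) (f := fun z : ℂ => y + z • w) hφ' hl, ?_⟩, by simp, ?_⟩
  · have h1 : Tendsto (fun z : ℂ => y + z • w) (𝓝 0) (𝓝 y) := by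
      have := hl.continuousAt.tendsto
      rwa [h0] at this
    exact h1.eventually hX
  · have h1 : HasFDerivAt φ (fderiv ℂ φ y) (y + (0 : ℂ) • w) := by
      rw [h0]
      exact hφ.differentiableAt.hasFDerivAt
    have h2 : HasDerivAt (fun z : ℂ => y + z • w) w 0 := by
      have h3 : HasDerivAt (fun z : ℂ => z • w) ((1 : ℂ) • w) 0 := (hasDerivAt_id (0 : ℂ)).smul_const w
      rw [one_smul] at h3
      exact h3.const_add y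
    exact (h1.comp_hasDerivAt (0 : ℂ) h2).deriv

/-- a curve in a chart -/
theorem curve_chart {σ : ℂ × ℂ → EN N} {τ : EN N → ℂ × ℂ} (hσ : IsChart X σ τ) {γ : ℂ → EN N} {z₀ : ℂ} (hγ : AnalyticAt ℂ γ z₀)
    (hγX : ∀ᶠ z in 𝓝 z₀, γ z ∈ X) (h0 : γ z₀ = σ 0) :
    ∃ c : ℂ → ℂ, AnalyticAt ℂ c z₀ ∧ c z₀ = 1 ∧ AnalyticAt ℂ (fun z => τ (γ z)) z₀ ∧ τ (γ z₀) = 0 ∧
      ∀ᶠ z in 𝓝 z₀, γ z = c z • σ (τ (γ z)) := by
  have hτ0 : τ (γ z₀) = 0 := by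
    rw [h0]
    exact hσ.left.self_of_nhds
  have hθ : AnalyticAt ℂ (fun z => τ (γ z)) z₀ := AnalyticAt.comp (g := τ) (f := γ) (by rw [h0]; exact hσ.τ_an) hγ
  obtain ⟨k, hk⟩ : ∃ k, (σ 0) k ≠ 0 := by
    by_contra hcon
    push Not at hcon
    exact hσ.ne (by ext k; exact hcon k)
  have hG : AnalyticAt ℂ (fun z => σ (τ (γ z))) z₀ :=
    AnalyticAt.comp (g := σ) (f := fun z => τ (γ z)) (by show AnalyticAt ℂ σ (τ (γ z₀)); rw [hτ0]; exact hσ.σ_an) hθ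
  have hcoord : ∀ {f : ℂ → EN N}, AnalyticAt ℂ f z₀ → AnalyticAt ℂ (fun z => f z k) z₀ := fun {f} hf =>
    AnalyticAt.comp (g := fun v : EN N => (EuclideanSpace.proj k : EN N →L[ℂ] ℂ) v) (f := f)
      ((EuclideanSpace.proj k : EN N →L[ℂ] ℂ).analyticAt _) hf
  have hne0 : σ (τ (γ z₀)) k ≠ 0 := by
    rw [hτ0]
    exact hk
  refine ⟨fun z => γ z k / σ (τ (γ z)) k, (hcoord hγ).div (hcoord hG) hne0, ?_, hθ, hτ0, ?_⟩
  · show γ z₀ k / σ (τ (γ z₀)) k = 1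
    rw [hτ0, h0]
    exact div_self hk
  · have hc : Tendsto γ (𝓝 z₀) (𝓝 (σ 0)) := by
      rw [← h0]
      exact hγ.continuousAt.tendsto
    have hne : ∀ᶠ z in 𝓝 z₀, σ (τ (γ z)) k ≠ 0 := (hcoord hG).continuousAt.eventually_ne hne0
    filter_upwards [hc.eventually hσ.right, hγX, hne] with z h1 h2 h3
    obtain ⟨c, hc0, hc⟩ := h1 h2
    have h4 : γ z k = c * σ (τ (γ z)) k := by
      conv_lhs => rw [hc]
      rfl
    have h5 : γ z k / σ (τ (γ z)) k = c := by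
      rw [h4]
      field_simp
    rw [h5]
    exact hc

private theorem tan_zero {σ : ℂ × ℂ → EN N} {τ : EN N → ℂ × ℂ} (hσ : IsChart X σ τ) {w : EN N} (hw : Tan X (σ 0) w) :
    ∃ (v : ℂ × ℂ) (a : ℂ), w = fderiv ℂ σ 0 v + a • σ 0 := by
  obtain ⟨γ, ⟨hγ, hγX⟩, h0, hd⟩ := hw
  obtain ⟨c, hc, hc0, hθ, hτ0, hev⟩ := curve_chart hσ hγ hγX h0
  refine ⟨deriv (fun z => τ (γ z)) 0, deriv c 0, ?_⟩
  have h1 : HasDerivAt (fun z => σ (τ (γ z))) (fderiv ℂ σ 0 (deriv (fun z => τ (γ z)) 0)) 0 := by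
    have h2 : HasFDerivAt σ (fderiv ℂ σ 0) ((fun z => τ (γ z)) 0) := by
      show HasFDerivAt σ (fderiv ℂ σ 0) (τ (γ 0))
      rw [hτ0]
      exact hσ.σ_an.differentiableAt.hasFDerivAt
    exact h2.comp_hasDerivAt (0 : ℂ) hθ.differentiableAt.hasDerivAt
  have h3 := hc.differentiableAt.hasDerivAt.fun_smul h1
  have h4 : deriv γ 0 = c 0 • (fderiv ℂ σ 0 (deriv (fun z => τ (γ z)) 0)) + deriv c 0 • σ (τ (γ 0)) :=
    (EventuallyEq.deriv_eq hev).trans h3.deriv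
  rw [← hd, h4, hc0, one_smul, hτ0]

/-- the value of `Ω x f w` is proportional to the `M`-th power of `du x w i`, if `du x f i = 0` -/
private theorem indep (hX : Surface X) (hu : TorusMapV X Λ u) (hΛ : DiscreteSub Λ) {M : ℕ} {Ω : EN N → EN N → EN N → ℂ} (hΩ : IsForm X M 1 Ω)
    {x f : EN N} (hf : Tan X x f) {i : Fin g} (hfi : hu.du x f i = 0) {w w' : EN N} (hw : Tan X x w) (hw' : Tan X x w') :
    Ω x f w * hu.du x w' i ^ M = Ω x f w' * hu.du x w i ^ M := by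
  have hx : x ∈ X := tan_mem hf
  obtain ⟨σ, τ, hσ, rfl⟩ := hX.chart x hx
  have hT : ∀ v : ℂ × ℂ, Tan X (σ 0) (fderiv ℂ σ 0 v) := fun v => tan_fd hσ.σ_an hσ.σ_mem v
  obtain ⟨s1, hs1⟩ : ∃ s, s = fderiv ℂ σ 0 (1, 0) := ⟨_, rfl⟩
  obtain ⟨s2, hs2⟩ : ∃ s, s = fderiv ℂ σ 0 (0, 1) := ⟨_, rfl⟩
  have hlin : ∀ v : ℂ × ℂ, fderiv ℂ σ 0 v = v.1 • s1 + v.2 • s2 := by
    intro v
    have h1 : v = v.1 • ((1 : ℂ), (0 : ℂ)) + v.2 • ((0 : ℂ), (1 : ℂ)) := by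
      ext <;> simp
    conv_lhs => rw [h1]
    rw [map_add, map_smul, map_smul, hs1, hs2]
  have hdu : ∀ (v : ℂ × ℂ) (a : ℂ), hu.du (σ 0) (fderiv ℂ σ 0 v + a • σ 0) i = v.1 * hu.du (σ 0) s1 i + v.2 * hu.du (σ 0) s2 i := by
    intro v a
    have h1 : hu.du (σ 0) (fderiv ℂ σ 0 v + a • σ 0) = v.1 • hu.du (σ 0) s1 + v.2 • hu.du (σ 0) s2 + a • hu.du (σ 0) (σ 0) := by
      rw [hlin v]
      unfold TorusMapV.du
      rw [map_add, map_add, map_smul, map_smul, map_smul]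
    rw [h1, hu.du_self hΛ (cone' hX) hx]
    simp [Pi.add_apply, Pi.smul_apply]
  have hom : ∀ (v w : ℂ × ℂ) (a b : ℂ), Ω (σ 0) (fderiv ℂ σ 0 v + a • σ 0) (fderiv ℂ σ 0 w + b • σ 0) =
      (v.1 * w.2 - v.2 * w.1) ^ M * Ω (σ 0) s1 s2 := by
    intro v w a b
    rw [hΩ.add_smul _ hx _ (tan_of (hT v)) _ (tan_of (hT w)), hlin v, hlin w,
      hΩ.det _ hx _ (hs1 ▸ tan_of (hT _)) _ (hs2 ▸ tan_of (hT _))]
  obtain ⟨a, s, rfl⟩ := tan_zero hσ hf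
  obtain ⟨b, t, rfl⟩ := tan_zero hσ hw
  obtain ⟨d, r, rfl⟩ := tan_zero hσ hw'
  rw [hdu] at hfi
  rw [hom, hom, hdu, hdu]
  have key : (a.1 * b.2 - a.2 * b.1) * (d.1 * hu.du (σ 0) s1 i + d.2 * hu.du (σ 0) s2 i) =
      (a.1 * d.2 - a.2 * d.1) * (b.1 * hu.du (σ 0) s1 i + b.2 * hu.du (σ 0) s2 i) := by
    linear_combination (b.2 * d.1 - d.2 * b.1) * hfi
  calc (a.1 * b.2 - a.2 * b.1) ^ M * Ω (σ 0) s1 s2 * (d.1 * hu.du (σ 0) s1 i + d.2 * hu.du (σ 0) s2 i) ^ M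
      = ((a.1 * b.2 - a.2 * b.1) * (d.1 * hu.du (σ 0) s1 i + d.2 * hu.du (σ 0) s2 i)) ^ M * Ω (σ 0) s1 s2 := by
        rw [mul_pow]; ring
    _ = ((a.1 * d.2 - a.2 * d.1) * (b.1 * hu.du (σ 0) s1 i + b.2 * hu.du (σ 0) s2 i)) ^ M * Ω (σ 0) s1 s2 := by rw [key]
    _ = (a.1 * d.2 - a.2 * d.1) ^ M * Ω (σ 0) s1 s2 * (b.1 * hu.du (σ 0) s1 i + b.2 * hu.du (σ 0) s2 i) ^ M := by
        rw [mul_pow]; ring

/-- the function `l` -/
private theorem exists_l (hX : Surface X) (hu : TorusMapV X Λ u) (hΛ : DiscreteSub Λ) {M : ℕ} (hM : 1 ≤ M) {Ω : EN N → EN N → EN N → ℂ}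
    (hΩ : IsForm X M 1 Ω) {x f : EN N} (hf : Tan X x f) {i : Fin g} (hfi : hu.du x f i = 0) (hi : ∃ w, Tan X x w ∧ hu.du x w i ≠ 0) :
    ∃ l : ℝ, 0 ≤ l ∧ ∀ w, Tan X x w → ‖Ω x f w‖ * ‖x‖ = (l * ‖hu.du x w i‖) ^ M := by
  obtain ⟨w₀, hw₀, hd₀⟩ := hi
  have hD : 0 < ‖hu.du x w₀ i‖ := norm_pos_iff.2 hd₀
  refine ⟨(‖Ω x f w₀‖ * ‖x‖) ^ ((M : ℝ)⁻¹) / ‖hu.du x w₀ i‖, by positivity, ?_⟩
  intro w hw
  have h1 := congrArg norm (indep hX hu hΛ hΩ hf hfi hw₀ hw)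
  rw [norm_mul, norm_mul, norm_pow, norm_pow] at h1
  have h2 : ((‖Ω x f w₀‖ * ‖x‖) ^ ((M : ℝ)⁻¹)) ^ M = ‖Ω x f w₀‖ * ‖x‖ := Real.rpow_inv_natCast_pow (by positivity) (by omega)
  have h3 : ((‖Ω x f w₀‖ * ‖x‖) ^ ((M : ℝ)⁻¹) / ‖hu.du x w₀ i‖ * ‖hu.du x w i‖) ^ M =
      (‖Ω x f w₀‖ * ‖x‖) * ‖hu.du x w i‖ ^ M / ‖hu.du x w₀ i‖ ^ M := by
    rw [mul_pow, div_pow, h2]
    ring
  rw [h3, eq_div_iff (by positivity)]
  calc ‖Ω x f w‖ * ‖x‖ * ‖hu.du x w₀ i‖ ^ M = ‖Ω x f w‖ * ‖hu.du x w₀ i‖ ^ M * ‖x‖ := by ring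
    _ = ‖Ω x f w₀‖ * ‖hu.du x w i‖ ^ M * ‖x‖ := by rw [h1]
    _ = ‖Ω x f w₀‖ * ‖x‖ * ‖hu.du x w i‖ ^ M := by ring

/-- the local formula -/
private theorem local_form (hX : Surface X) (hu : TorusMapV X Λ u) (hΛ : DiscreteSub Λ) {M : ℕ} (hM : 1 ≤ M) {Ω : EN N → EN N → EN N → ℂ}
    (hΩ : IsForm X M 1 Ω) {F : ℂ → EN N} (hF : Differentiable ℂ F) (hFX : ∀ z, F z ∈ X) {i : Fin g}
    (hi : ∀ z, ∃ w, Tan X (F z) w ∧ hu.du (F z) w i ≠ 0) {l : ℂ → ℝ} (hl0 : ∀ z, 0 ≤ l z)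
    (hl : ∀ z w, Tan X (F z) w → ‖Ω (F z) (deriv F z) w‖ * ‖F z‖ = (l z * ‖hu.du (F z) w i‖) ^ M) (z₀ : ℂ) :
    ∃ A B : ℂ → ℂ, AnalyticAt ℂ A z₀ ∧ AnalyticAt ℂ B z₀ ∧ B z₀ ≠ 0 ∧ ∀ᶠ z in 𝓝 z₀, l z = (‖A z‖ * ‖F z‖) ^ ((M : ℝ)⁻¹) * ‖(B z)⁻¹‖ := by
  obtain ⟨σ, τ, hσ, hσ0⟩ := hX.chart (F z₀) (hFX z₀)
  obtain ⟨c, hc, hc0, hθ, hτ0, hev⟩ := curve_chart hσ (hF.analyticAt z₀) (Eventually.of_forall hFX) hσ0.symm
  -- the direction `w₀`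
  obtain ⟨w₀, hw₀⟩ : ∃ w₀ : ℂ × ℂ, hu.du (F z₀) (fderiv ℂ σ 0 w₀) i ≠ 0 := by
    obtain ⟨w, hw, hd⟩ := hi z₀
    rw [← hσ0] at hw
    obtain ⟨v, a, rfl⟩ := tan_zero hσ hw
    refine ⟨v, ?_⟩
    have h1 : hu.du (F z₀) (fderiv ℂ σ 0 v + a • σ 0) = hu.du (F z₀) (fderiv ℂ σ 0 v) + a • hu.du (F z₀) (σ 0) := by
      unfold TorusMapV.du
      rw [map_add, map_smul]
    rw [h1] at hd
    rw [hσ0, hu.du_self hΛ (cone' hX) (hFX z₀), smul_zero, add_zero] at hd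
    exact hd
  -- the map `φ`
  obtain ⟨q, hq⟩ : ∃ q : ℂ × ℂ → ℂ × ℂ, q = fun y => τ (F y.1) + y.2 • w₀ := ⟨_, rfl⟩
  obtain ⟨φ, hφ⟩ : ∃ φ : ℂ × ℂ → EN N, φ = fun y => c y.1 • σ (q y) := ⟨_, rfl⟩
  have hq0 : q (z₀, 0) = 0 := by
    rw [hq]
    simp only [zero_smul, add_zero]
    exact hτ0
  have hqa : AnalyticAt ℂ q (z₀, 0) := by
    rw [hq]
    have h1 : AnalyticAt ℂ (fun y : ℂ × ℂ => τ (F y.1)) (z₀, 0) :=
      AnalyticAt.comp (g := fun z => τ (F z)) (f := fun y : ℂ × ℂ => y.1) hθ analyticAt_fst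
    have h2 : AnalyticAt ℂ (fun y : ℂ × ℂ => y.2 • w₀) (z₀, 0) := analyticAt_snd.smul analyticAt_const
    exact h1.add h2
  have hσq : AnalyticAt ℂ (fun y => σ (q y)) (z₀, 0) := AnalyticAt.comp (g := σ) (f := q) (by rw [hq0]; exact hσ.σ_an) hqa
  have hc1 : AnalyticAt ℂ (fun y : ℂ × ℂ => c y.1) (z₀, 0) := AnalyticAt.comp (g := c) (f := fun y : ℂ × ℂ => y.1) hc analyticAt_fst
  have hφa : AnalyticAt ℂ φ (z₀, 0) := by
    rw [hφ]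
    exact hc1.smul hσq
  have hφX : ∀ᶠ y in 𝓝 (z₀, (0 : ℂ)), φ y ∈ X := by
    have h1 : Tendsto q (𝓝 (z₀, 0)) (𝓝 0) := by
      have := hqa.continuousAt.tendsto
      rwa [hq0] at this
    have h2 : ∀ᶠ y : ℂ × ℂ in 𝓝 (z₀, (0 : ℂ)), c y.1 ≠ 0 := by
      refine hc1.continuousAt.eventually_ne ?_
      show c z₀ ≠ 0
      rw [hc0]
      exact one_ne_zero
    filter_upwards [h1.eventually hσ.σ_mem, h2] with y h3 h4
    rw [hφ]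
    exact hX.smul _ h3 _ h4
  -- the slice
  have hι : Tendsto (fun z : ℂ => (z, (0 : ℂ))) (𝓝 z₀) (𝓝 (z₀, 0)) := by
    have : ContinuousAt (fun z : ℂ => (z, (0 : ℂ))) z₀ := by fun_prop
    exact this.tendsto
  have hιa : AnalyticAt ℂ (fun z : ℂ => (z, (0 : ℂ))) z₀ := by fun_prop
  have hφF : ∀ᶠ z in 𝓝 z₀, φ (z, 0) = F z := by
    filter_upwards [hev] with z hz
    rw [hφ, hq]
    simp only [zero_smul, add_zero]
    exact hz.symm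
  have hφ1 : ∀ᶠ z in 𝓝 z₀, fderiv ℂ φ (z, 0) (1, 0) = deriv F z := by
    filter_upwards [hφF.eventually_nhds, hι.eventually hφa.eventually_analyticAt] with z h1 h2
    have h3 : HasDerivAt (fun ζ : ℂ => (ζ, (0 : ℂ))) ((1 : ℂ), (0 : ℂ)) z := (hasDerivAt_id z).prodMk (hasDerivAt_const z (0 : ℂ))
    have h4 : HasFDerivAt φ (fderiv ℂ φ (z, 0)) ((fun ζ : ℂ => (ζ, (0 : ℂ))) z) := h2.differentiableAt.hasFDerivAt
    have h5 := (h4.comp_hasDerivAt z h3).deriv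
    rw [← h5]
    exact EventuallyEq.deriv_eq h1
  have hφ2 : fderiv ℂ φ (z₀, 0) (0, 1) = fderiv ℂ σ 0 w₀ := by
    have h3 : HasDerivAt (fun s : ℂ => (z₀, s)) ((0 : ℂ), (1 : ℂ)) 0 := (hasDerivAt_const (0 : ℂ) z₀).prodMk (hasDerivAt_id (0 : ℂ))
    have h4 : HasFDerivAt φ (fderiv ℂ φ (z₀, 0)) ((fun s : ℂ => (z₀, s)) 0) := hφa.differentiableAt.hasFDerivAt
    have h5 := (h4.comp_hasDerivAt (0 : ℂ) h3).deriv
    rw [← h5]
    have h6 : (φ ∘ fun s : ℂ => (z₀, s)) = fun s => σ (s • w₀) := by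
      funext s
      rw [Function.comp_apply, hφ, hq]
      simp only
      rw [hc0, hτ0, one_smul, zero_add]
    rw [h6]
    have h7 : HasDerivAt (fun s : ℂ => s • w₀) ((1 : ℂ) • w₀) 0 := (hasDerivAt_id (0 : ℂ)).smul_const w₀
    rw [one_smul] at h7
    have h8 : HasFDerivAt σ (fderiv ℂ σ 0) ((fun s : ℂ => s • w₀) 0) := by
      show HasFDerivAt σ (fderiv ℂ σ 0) ((0 : ℂ) • w₀)
      rw [zero_smul]
      exact hσ.σ_an.differentiableAt.hasFDerivAt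
    exact (h8.comp_hasDerivAt (0 : ℂ) h7).deriv
  have hlift := hu.lift_an (hFX z₀)
  have hFt : Tendsto F (𝓝 z₀) (𝓝 (F z₀)) := hF.continuous.tendsto z₀
  -- `A`, `B`
  have hAa : AnalyticAt ℂ (fun z : ℂ => Ω (φ (z, 0)) (fderiv ℂ φ (z, 0) (1, 0)) (fderiv ℂ φ (z, 0) (0, 1))) z₀ :=
    AnalyticAt.comp (g := fun y => Ω (φ y) (fderiv ℂ φ y (1, 0)) (fderiv ℂ φ y (0, 1))) (f := fun z : ℂ => (z, (0 : ℂ)))
      (hΩ.analytic φ (z₀, 0) hφa hφX) hιa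
  have hwa : AnalyticAt ℂ (fun z : ℂ => fderiv ℂ φ (z, 0) (0, 1)) z₀ := by
    have h1 : AnalyticAt ℂ (fun z : ℂ => fderiv ℂ φ (z, 0)) z₀ := AnalyticAt.comp (g := fderiv ℂ φ) (f := fun z : ℂ => (z, (0 : ℂ))) hφa.fderiv hιa
    exact AnalyticAt.comp (g := fun L : (ℂ × ℂ) →L[ℂ] EN N => L (0, 1)) (f := fun z : ℂ => fderiv ℂ φ (z, 0))
      ((ContinuousLinearMap.apply ℂ (EN N) ((0 : ℂ), (1 : ℂ))).analyticAt _) h1
  have hBa : AnalyticAt ℂ (fun z : ℂ => (fderiv ℂ (hu.lift (F z₀)) (F z) (fderiv ℂ φ (z, 0) (0, 1))) i) z₀ := by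
    have h1 : AnalyticAt ℂ (fun z : ℂ => fderiv ℂ (hu.lift (F z₀)) (F z)) z₀ :=
      AnalyticAt.comp (g := fderiv ℂ (hu.lift (F z₀))) (f := F) hlift.fderiv (hF.analyticAt z₀)
    have h2 : AnalyticAt ℂ (fun z : ℂ => fderiv ℂ (hu.lift (F z₀)) (F z) (fderiv ℂ φ (z, 0) (0, 1))) z₀ :=
      AnalyticAt.comp (g := fun q : (EN N →L[ℂ] (Fin g → ℂ)) × EN N => q.1 q.2)
        (f := fun z : ℂ => (fderiv ℂ (hu.lift (F z₀)) (F z), fderiv ℂ φ (z, 0) (0, 1)))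
        ((ContinuousLinearMap.id ℂ (EN N →L[ℂ] (Fin g → ℂ))).analyticAt_bilinear _) (h1.prod hwa)
    exact AnalyticAt.comp (g := fun v : Fin g → ℂ => v i) (f := fun z : ℂ => fderiv ℂ (hu.lift (F z₀)) (F z) (fderiv ℂ φ (z, 0) (0, 1)))
      ((ContinuousLinearMap.proj (R := ℂ) (φ := fun _ : Fin g => ℂ) i).analyticAt _) h2
  have hB0 : (fderiv ℂ (hu.lift (F z₀)) (F z₀) (fderiv ℂ φ (z₀, 0) (0, 1))) i ≠ 0 := by
    rw [hφ2]
    exact hw₀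
  refine ⟨_, _, hAa, hBa, hB0, ?_⟩
  filter_upwards [hφF, hφ1, hι.eventually hφa.eventually_analyticAt, hι.eventually hφX.eventually_nhds, hFt.eventually hlift.eventually_analyticAt,
    hFt.eventually (hu.lift_mem (hFX z₀)).eventually_nhds, hBa.continuousAt.eventually_ne hB0] with z h1 h2 h3 h4 h5 h6 h7
  have hT : Tan X (F z) (fderiv ℂ φ (z, 0) (0, 1)) := by
    have := tan_fd h3 h4 ((0 : ℂ), (1 : ℂ))
    rwa [h1] at this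
  have h8 := hl z _ hT
  rw [hu.du_eq hΛ hT h5 h6] at h8
  rw [h1, h2]
  have hB : 0 < ‖(fderiv ℂ (hu.lift (F z₀)) (F z) (fderiv ℂ φ (z, 0) (0, 1))) i‖ := norm_pos_iff.2 h7
  rw [h8, Real.pow_rpow_inv_natCast (mul_nonneg (hl0 z) (norm_nonneg _)) (by omega), norm_inv, mul_assoc, mul_inv_cancel₀ hB.ne', mul_one]

theorem form_zero (hX : Surface X) (hu : TorusMapV X Λ u) (hΛ : DiscreteSub Λ) {M : ℕ} (hM : 1 ≤ M) {Ω : EN N → EN N → EN N → ℂ} (hΩ : IsForm X M 1 Ω)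
    {F : ℂ → EN N} (hF : Differentiable ℂ F) (hFX : ∀ z, F z ∈ X) (h0 : ∀ z, hu.du (F z) (deriv F z) = 0) {i : Fin g}
    (hi : ∀ z, ∃ w, Tan X (F z) w ∧ hu.du (F z) w i ≠ 0) {C : ℝ}
    (hb : ∀ z w, Tan X (F z) w → ‖Ω (F z) (deriv F z) w‖ * ‖F z‖ ≤ (C * fs (F z) (deriv F z) * ‖hu.du (F z) w i‖) ^ M) (z : ℂ) (w : EN N)
    (hw : Tan X (F z) w) : Ω (F z) (deriv F z) w = 0 := by
  have hFn : ∀ z, F z ≠ 0 := fun z hz => hX.zero (hz ▸ hFX z)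
  have hex : ∀ z, ∃ l : ℝ, 0 ≤ l ∧ ∀ w, Tan X (F z) w → ‖Ω (F z) (deriv F z) w‖ * ‖F z‖ = (l * ‖hu.du (F z) w i‖) ^ M := fun z =>
    exists_l hX hu hΛ hM hΩ (tan_entire hF hFX z) (by rw [h0 z]; rfl) (hi z)
  choose l hl0 hl using hex
  have hM' : M ≠ 0 := by omega
  have hMr : (0 : ℝ) < (M : ℝ) := by exact_mod_cast hM
  -- the bound
  have hbd : ∀ z, l z ≤ |C| * fs (F z) (deriv F z) := by
    intro z
    have hfs : 0 ≤ fs (F z) (deriv F z) := by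
      unfold fs wd
      positivity
    obtain ⟨w, hw, hd⟩ := hi z
    have hd' : 0 < ‖hu.du (F z) w i‖ := norm_pos_iff.2 hd
    have h1 : (l z * ‖hu.du (F z) w i‖) ^ M ≤ (|C| * fs (F z) (deriv F z) * ‖hu.du (F z) w i‖) ^ M := by
      rw [← hl z w hw]
      refine (hb z w hw).trans ((le_abs_self _).trans (le_of_eq ?_))
      rw [abs_pow, abs_mul, abs_mul, abs_of_nonneg hfs, abs_of_nonneg hd'.le]
    have h2 : l z * ‖hu.du (F z) w i‖ ≤ |C| * fs (F z) (deriv F z) * ‖hu.du (F z) w i‖ :=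
      le_of_pow_le_pow_left₀ hM' (by positivity) h1
    exact le_of_mul_le_mul_right h2 hd'
  have hloc := local_form hX hu hΛ hM hΩ hF hFX hi hl0 hl
  -- continuity
  have hcont : Continuous l := by
    rw [continuous_iff_continuousAt]
    intro z₀
    obtain ⟨A, B, hA, hB, hB0, hev⟩ := hloc z₀
    have h1 : ContinuousAt (fun z => (‖A z‖ * ‖F z‖) ^ ((M : ℝ)⁻¹) * ‖(B z)⁻¹‖) z₀ := by
      have h2 : ContinuousAt (fun z => ‖A z‖ * ‖F z‖) z₀ := hA.continuousAt.norm.mul hF.continuous.continuousAt.norm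
      have h3 : ContinuousAt (fun z => ‖(B z)⁻¹‖) z₀ := (hB.continuousAt.inv₀ hB0).norm
      exact (h2.rpow_const (Or.inr (by positivity))).mul h3
    exact h1.congr (hev.mono fun z hz => hz.symm)
  -- the curvature
  have hcpos : 0 < 1 / (2 * (M : ℝ) * (|C| + 1) ^ 2) := by positivity
  have hsub : ∀ z, 0 < l z → Sub l z (1 / (2 * (M : ℝ) * (|C| + 1) ^ 2) * l z ^ 2) := by
    intro z₀ hpos
    obtain ⟨A, B, hA, hB, hB0, hev⟩ := hloc z₀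
    have hA0 : A z₀ ≠ 0 := by
      intro hA0
      have h1 := hev.self_of_nhds
      rw [hA0, norm_zero, zero_mul, Real.zero_rpow (by positivity), zero_mul] at h1
      exact hpos.ne' h1
    have h1 : Sub (fun z => ‖F z‖) z₀ (1 * fs (F z₀) (deriv F z₀) ^ 2 / 2) := by
      have := Sub.norm_rpow (hF.analyticAt z₀) (hFn z₀) 1
      simpa only [Real.rpow_one] using this
    have h2 := ((Sub.of_holo hA hA0).mul h1).rpow (r := (M : ℝ)⁻¹) (by positivity)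
    have h3 := h2.mul (Sub.of_holo (hB.inv hB0) (inv_ne_zero hB0))
    have h4 := h3.congr (v := l) (hev.mono fun z hz => hz.symm)
    refine h4.anti ?_
    have h5 : l z₀ ^ 2 ≤ (|C| + 1) ^ 2 * fs (F z₀) (deriv F z₀) ^ 2 := by
      rw [← mul_pow]
      have hfs : 0 ≤ fs (F z₀) (deriv F z₀) := by
        unfold fs wd
        positivity
      refine pow_le_pow_left₀ (hl0 z₀) ((hbd z₀).trans ?_) 2
      nlinarith
    have h6 : 1 / (2 * (M : ℝ) * (|C| + 1) ^ 2) * l z₀ ^ 2 ≤ 1 / (2 * (M : ℝ) * (|C| + 1) ^ 2) * ((|C| + 1) ^ 2 * fs (F z₀) (deriv F z₀) ^ 2) :=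
      mul_le_mul_of_nonneg_left h5 hcpos.le
    refine h6.trans (le_of_eq ?_)
    have hC1 : (|C| + 1) ≠ 0 := by positivity
    field_simp
    ring
  have hz := ahlfors hcont hl0 hcpos hsub z
  have h1 := hl z w hw
  rw [hz, zero_mul, zero_pow hM'] at h1
  rcases mul_eq_zero.1 h1 with h2 | h2
  · exact norm_eq_zero.1 h2
  · exact absurd (norm_eq_zero.1 h2) (hFn z)

end Pool.Agent.E2
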