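import Pool.Agent.E2.Loc
import Pool.Agent.H36.BP.WdA

/-!
# E2 Bd: the bound on a fibre without critical points

In a chart `σ` with coordinates `v'`, `w'` of the tangent vectors `v`, `w` and `E = dU_i`, `|E| ≥ δ`: `E v' = 0` gives `|v' ∧ w'| δ ≤ |v'| |E w'|`, and
`|v'| ≤ C fs x v`.
-/

set_option autoImplicit false

open Topology Filter Metric MvPolynomial

noncomputable section

namespace Pool.Agent.E2

open Pool.Agent.H36.BP (EN fs wd wd_inv wd_nonneg)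
open Pool.Agent.H14.PP (IsCone Tan)
open Pool.Agent.H17BP (Surface IsChart IsForm NoZeros)
open Pool.Agent.AD (TorusMapV DiscreteSub)
open Pool.Agent.H22.W (tan_smul tan_mem)

variable {N g : ℕ} {X : Set (EN N)} {Λ : AddSubgroup (Fin g → ℂ)} {u : EN N → (Fin g → ℂ)}

/-- the length of a vector modulo `x` -/
theorem exists_wd_eq {x : EN N} (hx : x ≠ 0) (v : EN N) : ∃ a : ℂ, ‖x‖ * ‖v + a • x‖ = wd x v := by
  have hxx : (inner ℂ x x : ℂ) ≠ 0 := by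
    rw [Ne, inner_self_eq_zero]
    exact hx
  refine ⟨-(inner ℂ x v / inner ℂ x x), ?_⟩
  have ho : inner ℂ x (v + (-(inner ℂ x v / inner ℂ x x)) • x) = (0 : ℂ) := by
    rw [inner_add_right, inner_smul_right]
    field_simp
    ring
  have h1 : wd x (v + (-(inner ℂ x v / inner ℂ x x)) • x) = wd x v := by
    have h := wd_inv x v 1 (-(inner ℂ x v / inner ℂ x x))
    rw [one_smul, one_smul, norm_one] at h
    rw [h]
    ring
  rw [← h1]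
  unfold wd
  rw [ho, norm_zero, ← mul_pow, show (‖x‖ * ‖v + (-(inner ℂ x v / inner ℂ x x)) • x‖) ^ 2 - (0 : ℝ) ^ 2 =
    (‖x‖ * ‖v + (-(inner ℂ x v / inner ℂ x x)) • x‖) ^ 2 by ring]
  exact (Real.sqrt_sq (by positivity)).symm

/-- a chart is an immersion modulo the cone direction -/
theorem chart_lower {σ : ℂ × ℂ → EN N} {τ : EN N → ℂ × ℂ} (hσ : IsChart X σ τ) :
    ∃ K : ℝ, 0 < K ∧ ∀ᶠ p in 𝓝 (0 : ℂ × ℂ), ∀ (v : ℂ × ℂ) (a : ℂ), ‖v‖ ≤ K * ‖fderiv ℂ σ p v + a • σ p‖ := by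
  have hτc : ContinuousAt (fderiv ℂ τ) (σ 0) := hσ.τ_an.fderiv.continuousAt
  obtain ⟨K, hK⟩ : ∃ K, K = ‖fderiv ℂ τ (σ 0)‖ + 1 := ⟨_, rfl⟩
  have hσt : Tendsto σ (𝓝 0) (𝓝 (σ 0)) := hσ.σ_an.continuousAt.tendsto
  have h1 : ∀ᶠ y in 𝓝 (σ 0), ‖fderiv ℂ τ y‖ < K := by
    have := hτc.norm.eventually (gt_mem_nhds (show ‖fderiv ℂ τ (σ 0)‖ < K by rw [hK]; linarith))
    exact this
  have h2 : ∀ᶠ p in 𝓝 (0 : ℂ × ℂ), ∀ᶠ c in 𝓝 (1 : ℂ), τ (c • σ p) = τ (σ p) := by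
    have h3 : ∀ᶠ q in 𝓝 (σ 0, (1 : ℂ)), ∀ᶠ q' in 𝓝 q, τ (q'.2 • q'.1) = τ q'.1 := eventually_eventually_nhds.2 hσ.inv
    have h4 : Tendsto (fun p : ℂ × ℂ => (σ p, (1 : ℂ))) (𝓝 0) (𝓝 (σ 0, (1 : ℂ))) := hσt.prodMk_nhds tendsto_const_nhds
    filter_upwards [h4.eventually h3] with p hp
    have h5 : Tendsto (fun c : ℂ => (σ p, c)) (𝓝 1) (𝓝 (σ p, (1 : ℂ))) := tendsto_const_nhds.prodMk_nhds tendsto_id
    exact h5.eventually hp
  refine ⟨K, by rw [hK]; positivity, ?_⟩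
  filter_upwards [hσt.eventually h1, h2, eventually_eventually_nhds.2 hσ.left, hσ.σ_an.eventually_analyticAt,
    hσt.eventually hσ.τ_an.eventually_analyticAt] with p hp1 hp2 hp3 hp4 hp5 v a
  have h6 : fderiv ℂ τ (σ p) (σ p) = 0 := by
    have h7 : HasDerivAt (fun c : ℂ => c • σ p) (σ p) 1 := by
      have := (hasDerivAt_id (1 : ℂ)).smul_const (σ p)
      simpa using this
    have h8 : HasFDerivAt τ (fderiv ℂ τ (σ p)) ((fun c : ℂ => c • σ p) 1) := by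
      simp only [one_smul]
      exact hp5.differentiableAt.hasFDerivAt
    have h9 := h8.comp_hasDerivAt (1 : ℂ) h7
    have h10 : HasDerivAt (τ ∘ fun c : ℂ => c • σ p) 0 1 := by
      refine (hasDerivAt_const (1 : ℂ) (τ (σ p))).congr_of_eventuallyEq ?_
      filter_upwards [hp2] with c hc
      exact hc
    exact h9.unique h10
  have h11 : fderiv ℂ τ (σ p) (fderiv ℂ σ p v) = v := by
    have h12 : HasFDerivAt (τ ∘ σ) ((fderiv ℂ τ (σ p)).comp (fderiv ℂ σ p)) p :=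
      hp5.differentiableAt.hasFDerivAt.comp p hp4.differentiableAt.hasFDerivAt
    have h13 : HasFDerivAt (τ ∘ σ) (ContinuousLinearMap.id ℂ (ℂ × ℂ)) p := by
      refine (hasFDerivAt_id p).congr_of_eventuallyEq ?_
      filter_upwards [hp3] with q hq
      exact hq
    have h14 := h12.unique h13
    have h15 := congrArg (fun L => L v) h14
    simpa using h15
  have h16 : fderiv ℂ τ (σ p) (fderiv ℂ σ p v + a • σ p) = v := by
    rw [map_add, map_smul, h11, h6, smul_zero, add_zero]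
  calc ‖v‖ = ‖fderiv ℂ τ (σ p) (fderiv ℂ σ p v + a • σ p)‖ := by rw [h16]
    _ ≤ ‖fderiv ℂ τ (σ p)‖ * ‖fderiv ℂ σ p v + a • σ p‖ := ContinuousLinearMap.le_opNorm _ _
    _ ≤ K * ‖fderiv ℂ σ p v + a • σ p‖ := mul_le_mul_of_nonneg_right hp1.le (norm_nonneg _)

/-- the elementary inequality in the plane -/
theorem det_le {e v w : ℂ × ℂ} {δ : ℝ} (he : δ ≤ ‖e.1‖ ∨ δ ≤ ‖e.2‖) (h : e.1 * v.1 + e.2 * v.2 = 0) :
    ‖v.1 * w.2 - v.2 * w.1‖ * δ ≤ ‖v‖ * ‖e.1 * w.1 + e.2 * w.2‖ := by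
  rcases he with he | he
  · have h1 : (v.1 * w.2 - v.2 * w.1) * e.1 = -v.2 * (e.1 * w.1 + e.2 * w.2) := by
      linear_combination w.2 * h
    calc ‖v.1 * w.2 - v.2 * w.1‖ * δ ≤ ‖v.1 * w.2 - v.2 * w.1‖ * ‖e.1‖ := mul_le_mul_of_nonneg_left he (norm_nonneg _)
      _ = ‖v.2‖ * ‖e.1 * w.1 + e.2 * w.2‖ := by rw [← norm_mul, h1, norm_mul, norm_neg]
      _ ≤ ‖v‖ * ‖e.1 * w.1 + e.2 * w.2‖ := mul_le_mul_of_nonneg_right (norm_snd_le v) (norm_nonneg _)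
  · have h1 : (v.1 * w.2 - v.2 * w.1) * e.2 = v.1 * (e.1 * w.1 + e.2 * w.2) := by
      linear_combination -w.1 * h
    calc ‖v.1 * w.2 - v.2 * w.1‖ * δ ≤ ‖v.1 * w.2 - v.2 * w.1‖ * ‖e.2‖ := mul_le_mul_of_nonneg_left he (norm_nonneg _)
      _ = ‖v.1‖ * ‖e.1 * w.1 + e.2 * w.2‖ := by rw [← norm_mul, h1, norm_mul]
      _ ≤ ‖v‖ * ‖e.1 * w.1 + e.2 * w.2‖ := mul_le_mul_of_nonneg_right (norm_fst_le v) (norm_nonneg _)

/-- the cone structure of the surface -/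
theorem isCone_of_surface (hX : Surface X) : IsCone X := by
  refine ⟨hX.zero, hX.smul, isClosed_of_closure_subset fun x hx => ?_⟩
  by_cases h0 : x = 0
  · exact Or.inl h0
  · right
    rw [Set.insert_eq, closure_union, closure_singleton] at hx
    rcases hx with hx | hx
    · exact absurd hx h0
    · exact hX.closed x hx h0

/-- the differential is invariant -/
theorem du_scale (hX : Surface X) (hu : TorusMapV X Λ u) (hΛ : DiscreteSub Λ) {x v : EN N} (h : Tan X x v) {c : ℂ} (hc : c ≠ 0) :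
    hu.du (c • x) (c • v) = hu.du x v := by
  funext j
  exact (hu.symDiff hΛ (isCone_of_surface hX) j).scale x v h c hc

theorem fs_scale (x v : EN N) {c : ℂ} (hc : c ≠ 0) : fs (c • x) (c • v) = fs x v := by
  have h := wd_inv x v c 0
  rw [zero_smul, add_zero] at h
  unfold fs
  rw [h, norm_smul, mul_pow]
  by_cases hx : ‖x‖ = 0
  · simp [hx]
  · field_simp

theorem tan_iff {x v : EN N} : Tan X x v ↔ v ∈ Pool.Agent.H17BP.Tan X x :=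
  ⟨fun ⟨F, h1, h2, h3⟩ => ⟨F, h1.1, h1.2, h2, h3⟩, fun ⟨F, h1, h2, h3, h4⟩ => ⟨F, ⟨h1, h2⟩, h3, h4⟩⟩

/-- the inequality is invariant under scaling -/
theorem bound_scale (hX : Surface X) (hu : TorusMapV X Λ u) (hΛ : DiscreteSub Λ) {M : ℕ} {Ω : EN N → EN N → EN N → ℂ} (hΩ : IsForm X M 1 Ω)
    {y v w : EN N} {C : ℝ} (hy : y ∈ X) {c : ℂ} (hc : c ≠ 0) (hv : Tan X y v) (hw : Tan X y w)
    (h : ‖Ω y v w‖ * ‖y‖ ≤ (C * fs y v * ‖hu.du y w‖) ^ M) :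
    ‖Ω (c • y) (c • v) (c • w)‖ * ‖c • y‖ ≤ (C * fs (c • y) (c • v) * ‖hu.du (c • y) (c • w)‖) ^ M := by
  rw [fs_scale _ _ hc, du_scale hX hu hΛ hw hc]
  refine le_trans (le_of_eq ?_) h
  have h1 := hΩ.scale y hy v (tan_iff.1 hv) w (tan_iff.1 hw) c hc
  rw [← h1, norm_mul, norm_pow, norm_smul]
  ring

/-- the bound near a point of the surface which is not critical -/
theorem bound_near (hX : Surface X) (hu : TorusMapV X Λ u) (hΛ : DiscreteSub Λ) {M : ℕ} (hM : 1 ≤ M) {Ω : EN N → EN N → EN N → ℂ} (hΩ : IsForm X M 1 Ω)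
    {x₀ : EN N} (hx₀ : x₀ ∈ X) (hc : x₀ ∉ Crit hu) :
    ∃ C : ℝ, 0 ≤ C ∧ ∀ᶠ x in 𝓝 x₀, x ∈ X → ∀ v w, Tan X x v → Tan X x w → hu.du x v = 0 → ‖Ω x v w‖ * ‖x‖ ≤ (C * fs x v * ‖hu.du x w‖) ^ M := by
  obtain ⟨σ, τ, hσ, rfl⟩ := hX.chart x₀ hx₀
  obtain ⟨U, hU, hUΛ, hdu, hcr, -⟩ := mem_chart hX hu hΛ hσ
  have htan := tan_chart hX hσ
  obtain ⟨K, hK, hlow⟩ := chart_lower hσ
  have hσt : Tendsto σ (𝓝 0) (𝓝 (σ 0)) := hσ.σ_an.continuousAt.tendsto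
  -- a nonzero component
  obtain ⟨i, δ, hδ, he⟩ : ∃ (i : Fin g) (δ : ℝ), 0 < δ ∧ ∀ᶠ p in 𝓝 (0 : ℂ × ℂ), δ ≤ ‖fderiv ℂ U p (1, 0) i‖ ∨ δ ≤ ‖fderiv ℂ U p (0, 1) i‖ := by
    have h1 : ¬ ∀ i, fderiv ℂ U 0 (1, 0) i = 0 ∧ fderiv ℂ U 0 (0, 1) i = 0 := fun h => hc (hcr.self_of_nhds.2 h)
    obtain ⟨i, hi⟩ := not_forall.1 h1
    have hcont : ∀ e : ℂ × ℂ, ContinuousAt (fun p => ‖fderiv ℂ U p e i‖) 0 := fun e => by
      have h2 : ContinuousAt (fderiv ℂ U) 0 := hU.fderiv.continuousAt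
      have h3 : ContinuousAt (fun p => fderiv ℂ U p e) 0 := h2.clm_apply continuousAt_const
      exact ((continuous_apply i).continuousAt.comp h3).norm
    have key : ∀ e : ℂ × ℂ, fderiv ℂ U 0 e i ≠ 0 → ∃ δ : ℝ, 0 < δ ∧ ∀ᶠ p in 𝓝 (0 : ℂ × ℂ), δ ≤ ‖fderiv ℂ U p e i‖ := fun e h => by
      have h4 : 0 < ‖fderiv ℂ U 0 e i‖ := norm_pos_iff.2 h
      refine ⟨‖fderiv ℂ U 0 e i‖ / 2, half_pos h4, ?_⟩
      filter_upwards [(hcont e).eventually (lt_mem_nhds (half_lt_self h4))] with p hp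
      exact hp.le
    by_cases h5 : fderiv ℂ U 0 (1, 0) i = 0
    · obtain ⟨δ, h6, h7⟩ := key (0, 1) fun h => hi ⟨h5, h⟩
      exact ⟨i, δ, h6, h7.mono fun p hp => Or.inr hp⟩
    · obtain ⟨δ, h6, h7⟩ := key (1, 0) h5
      exact ⟨i, δ, h6, h7.mono fun p hp => Or.inl hp⟩
  -- bounds for the form and the point
  obtain ⟨K₁, hK₁, hD⟩ : ∃ K₁ : ℝ, 1 ≤ K₁ ∧ ∀ᶠ p in 𝓝 (0 : ℂ × ℂ), ‖Ω (σ p) (fderiv ℂ σ p (1, 0)) (fderiv ℂ σ p (0, 1))‖ * ‖σ p‖ ≤ K₁ := by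
    have h1 : ContinuousAt (fun p => ‖Ω (σ p) (fderiv ℂ σ p (1, 0)) (fderiv ℂ σ p (0, 1))‖ * ‖σ p‖) 0 :=
      (hΩ.analytic σ 0 hσ.σ_an hσ.σ_mem).continuousAt.norm.mul hσ.σ_an.continuousAt.norm
    refine ⟨max 1 (‖Ω (σ 0) (fderiv ℂ σ 0 (1, 0)) (fderiv ℂ σ 0 (0, 1))‖ * ‖σ 0‖ + 1), le_max_left _ _, ?_⟩
    filter_upwards [h1.eventually (gt_mem_nhds (lt_add_one _))] with p hp
    exact hp.le.trans (le_max_right _ _)
  obtain ⟨K₂, hK₂, hσb⟩ : ∃ K₂ : ℝ, 0 < K₂ ∧ ∀ᶠ p in 𝓝 (0 : ℂ × ℂ), ‖σ p‖ ≤ K₂ := by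
    refine ⟨‖σ 0‖ + 1, by positivity, ?_⟩
    filter_upwards [hσ.σ_an.continuousAt.norm.eventually (gt_mem_nhds (lt_add_one _))] with p hp
    exact hp.le
  have hne : ∀ᶠ p in 𝓝 (0 : ℂ × ℂ), σ p ≠ 0 := hσ.σ_an.continuousAt.eventually_ne hσ.ne
  obtain ⟨C, hC⟩ : ∃ C : ℝ, C = K₁ * (K * K₂ / δ) := ⟨_, rfl⟩
  have hC0 : 0 ≤ C := by rw [hC]; positivity
  have hσp : ∀ᶠ p in 𝓝 (0 : ℂ × ℂ), ∀ v w, Tan X (σ p) v → Tan X (σ p) w → hu.du (σ p) v = 0 →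
      ‖Ω (σ p) v w‖ * ‖σ p‖ ≤ (C * fs (σ p) v * ‖hu.du (σ p) w‖) ^ M := by
    filter_upwards [hdu, htan, hlow, he, hD, hσb, hne] with p h1 h2 h3 h4 h5 h6 h7 v w hv hw h0
    obtain ⟨v', a, rfl⟩ := h2.2 v hv
    obtain ⟨w', b, rfl⟩ := h2.2 w hw
    have hself : hu.du (σ p) (σ p) = 0 := hu.du_self hΛ (isCone_of_surface hX) h2.1
    have hdu' : ∀ (v' : ℂ × ℂ) (a : ℂ), hu.du (σ p) (fderiv ℂ σ p v' + a • σ p) = fderiv ℂ U p v' := fun v' a => by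
      have h8 : hu.du (σ p) (fderiv ℂ σ p v' + a • σ p) = hu.du (σ p) (fderiv ℂ σ p v') + a • hu.du (σ p) (σ p) := by
        unfold TorusMapV.du
        rw [map_add, map_smul]
      rw [h8, hself, smul_zero, add_zero, (h1 v').2]
    rw [hdu'] at h0
    rw [hdu' w' b]
    have hpair : ∀ v' : ℂ × ℂ, v' = v'.1 • ((1 : ℂ), (0 : ℂ)) + v'.2 • ((0 : ℂ), (1 : ℂ)) := fun v' => by
      ext <;> simp
    have hlin : ∀ v' : ℂ × ℂ, fderiv ℂ U p v' i = fderiv ℂ U p (1, 0) i * v'.1 + fderiv ℂ U p (0, 1) i * v'.2 := fun v' => by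
      conv_lhs => rw [hpair v']
      rw [map_add, map_smul, map_smul, Pi.add_apply, Pi.smul_apply, Pi.smul_apply, smul_eq_mul, smul_eq_mul]
      ring
    have hlσ : ∀ v' : ℂ × ℂ, fderiv ℂ σ p v' = v'.1 • fderiv ℂ σ p (1, 0) + v'.2 • fderiv ℂ σ p (0, 1) := fun v' => by
      conv_lhs => rw [hpair v']
      rw [map_add, map_smul, map_smul]
    -- the determinant
    have hΩ1 : Ω (σ p) (fderiv ℂ σ p v' + a • σ p) (fderiv ℂ σ p w' + b • σ p) =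
        (v'.1 * w'.2 - v'.2 * w'.1) ^ M * Ω (σ p) (fderiv ℂ σ p (1, 0)) (fderiv ℂ σ p (0, 1)) := by
      rw [hΩ.add_smul (σ p) h2.1 _ (tan_iff.1 (h1 v').1) _ (tan_iff.1 (h1 w').1) a b, hlσ v', hlσ w']
      exact hΩ.det (σ p) h2.1 _ (tan_iff.1 (h1 (1, 0)).1) _ (tan_iff.1 (h1 (0, 1)).1) v'.1 v'.2 w'.1 w'.2
    have hdet : ‖v'.1 * w'.2 - v'.2 * w'.1‖ * δ ≤ ‖v'‖ * ‖fderiv ℂ U p w'‖ := by
      have h9 := det_le (e := (fderiv ℂ U p (1, 0) i, fderiv ℂ U p (0, 1) i)) (v := v') (w := w') h4 (by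
        show fderiv ℂ U p (1, 0) i * v'.1 + fderiv ℂ U p (0, 1) i * v'.2 = 0
        rw [← hlin v', h0, Pi.zero_apply])
      refine h9.trans (mul_le_mul_of_nonneg_left ?_ (norm_nonneg _))
      show ‖fderiv ℂ U p (1, 0) i * w'.1 + fderiv ℂ U p (0, 1) i * w'.2‖ ≤ _
      rw [← hlin w']
      exact norm_le_pi_norm _ i
    have hv' : ‖v'‖ ≤ K * K₂ * fs (σ p) (fderiv ℂ σ p v' + a • σ p) := by
      obtain ⟨b', hb'⟩ := exists_wd_eq h7 (fderiv ℂ σ p v' + a • σ p)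
      have h10 := h3 v' (a + b')
      have h11 : fderiv ℂ σ p v' + (a + b') • σ p = fderiv ℂ σ p v' + a • σ p + b' • σ p := by
        rw [add_smul, add_assoc]
      rw [h11] at h10
      have hn : 0 < ‖σ p‖ := norm_pos_iff.2 h7
      have h12 : ‖fderiv ℂ σ p v' + a • σ p + b' • σ p‖ = ‖σ p‖ * fs (σ p) (fderiv ℂ σ p v' + a • σ p) := by
        unfold fs
        rw [← hb']
        field_simp
      rw [h12] at h10
      have hfs : 0 ≤ fs (σ p) (fderiv ℂ σ p v' + a • σ p) := div_nonneg (wd_nonneg _ _) (by positivity)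
      calc ‖v'‖ ≤ K * (‖σ p‖ * fs (σ p) (fderiv ℂ σ p v' + a • σ p)) := h10
        _ ≤ K * (K₂ * fs (σ p) (fderiv ℂ σ p v' + a • σ p)) :=
            mul_le_mul_of_nonneg_left (mul_le_mul_of_nonneg_right h6 hfs) hK.le
        _ = K * K₂ * fs (σ p) (fderiv ℂ σ p v' + a • σ p) := by ring
    obtain ⟨s, hs⟩ : ∃ s, s = fs (σ p) (fderiv ℂ σ p v' + a • σ p) := ⟨_, rfl⟩
    obtain ⟨D, hDe⟩ : ∃ D, D = ‖v'.1 * w'.2 - v'.2 * w'.1‖ := ⟨_, rfl⟩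
    have hD0 : 0 ≤ D := by rw [hDe]; exact norm_nonneg _
    rw [← hs] at hv' ⊢
    have h13 : D ≤ K * K₂ / δ * s * ‖fderiv ℂ U p w'‖ := by
      rw [← hDe] at hdet
      have h14 : D * δ ≤ K * K₂ * s * ‖fderiv ℂ U p w'‖ := hdet.trans (mul_le_mul_of_nonneg_right hv' (norm_nonneg _))
      have h15 : D ≤ K * K₂ * s * ‖fderiv ℂ U p w'‖ / δ := (le_div_iff₀ hδ).2 h14
      refine h15.trans (le_of_eq ?_)
      ring
    rw [hΩ1, norm_mul, norm_pow, ← hDe, mul_assoc]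
    have h16 : 1 ≤ M := hM
    calc D ^ M * (‖Ω (σ p) (fderiv ℂ σ p (1, 0)) (fderiv ℂ σ p (0, 1))‖ * ‖σ p‖) ≤ D ^ M * K₁ :=
          mul_le_mul_of_nonneg_left h5 (by positivity)
      _ ≤ D ^ M * K₁ ^ M := mul_le_mul_of_nonneg_left (le_self_pow₀ hK₁ (by omega)) (by positivity)
      _ = (K₁ * D) ^ M := by rw [mul_pow, mul_comm]
      _ ≤ (C * s * ‖fderiv ℂ U p w'‖) ^ M := by
          refine pow_le_pow_left₀ (by positivity) ?_ M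
          calc K₁ * D ≤ K₁ * (K * K₂ / δ * s * ‖fderiv ℂ U p w'‖) := mul_le_mul_of_nonneg_left h13 (by positivity)
            _ = C * s * ‖fderiv ℂ U p w'‖ := by rw [hC]; ring
  refine ⟨C, hC0, ?_⟩
  have hτt : Tendsto τ (𝓝 (σ 0)) (𝓝 0) := by
    have := hσ.τ_an.continuousAt.tendsto
    rwa [hσ.left.self_of_nhds] at this
  filter_upwards [hσ.right, hτt.eventually hσp, hτt.eventually htan] with x h1 h2 h3 hx v w hv hw h0
  obtain ⟨c, hc, hxc⟩ := h1 hx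
  have hcone := isCone_of_surface hX
  have hy : c⁻¹ • x = σ (τ x) := by
    conv_lhs => rw [hxc]
    rw [smul_smul, inv_mul_cancel₀ hc, one_smul]
  have hv' : Tan X (σ (τ x)) (c⁻¹ • v) := by
    rw [← hy]
    exact tan_smul hcone hv (inv_ne_zero hc)
  have hw' : Tan X (σ (τ x)) (c⁻¹ • w) := by
    rw [← hy]
    exact tan_smul hcone hw (inv_ne_zero hc)
  have h0' : hu.du (σ (τ x)) (c⁻¹ • v) = 0 := by
    rw [← hy, du_scale hX hu hΛ hv (inv_ne_zero hc), h0]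
  have h4 := bound_scale hX hu hΛ hΩ h3.1 hc hv' hw' (h2 _ _ hv' hw' h0')
  rw [← hxc, smul_smul, smul_smul, mul_inv_cancel₀ hc, one_smul, one_smul] at h4
  exact h4

/-- a discrete subgroup is closed -/
theorem isClosed_discreteSub (hΛ : DiscreteSub Λ) : IsClosed (Λ : Set (Fin g → ℂ)) := by
  have : DiscreteTopology Λ := by
    obtain ⟨δ, hδ, hd⟩ := hΛ
    refine discreteTopology_of_isOpen_singleton_zero ?_
    have h1 : ({0} : Set Λ) = Subtype.val ⁻¹' (ball (0 : Fin g → ℂ) δ) := by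
      ext ⟨l, hl⟩
      simp only [Set.mem_singleton_iff, Set.mem_preimage, mem_ball_zero_iff, AddSubgroup.mk_eq_zero]
      refine ⟨fun h => ?_, fun h => hd l hl h⟩
      rw [h, norm_zero]
      exact hδ
    rw [h1]
    exact isOpen_ball.preimage continuous_subtype_val
  exact AddSubgroup.isClosed_of_discrete

/-- the fibres are closed in `X` -/
theorem fib_closed (hu : TorusMapV X Λ u) (hΛ : DiscreteSub Λ) {t : Fin g → ℂ} {x₀ : EN N} (hx₀ : x₀ ∈ X) (h : x₀ ∉ Fib X Λ u t) :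
    ∀ᶠ y in 𝓝 x₀, y ∉ Fib X Λ u t := by
  have h1 : hu.lift x₀ x₀ - t ∉ Λ := fun h2 => h ⟨hx₀, by
    have h3 := Λ.add_mem ((hu.lift_mem hx₀).self_of_nhds hx₀) h2
    rwa [sub_add_sub_cancel] at h3⟩
  have h4 : ContinuousAt (fun y => hu.lift x₀ y - t) x₀ := (hu.lift_an hx₀).continuousAt.sub continuousAt_const
  have h5 : ∀ᶠ y in 𝓝 x₀, hu.lift x₀ y - t ∈ (Λ : Set (Fin g → ℂ))ᶜ :=
    h4.eventually ((isClosed_discreteSub hΛ).isOpen_compl.mem_nhds h1)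
  filter_upwards [h5, hu.lift_mem hx₀] with y h6 h7 hy
  apply h6
  have h8 := Λ.sub_mem hy.2 (h7 hy.1)
  rwa [sub_sub_sub_cancel_left] at h8

/-- MODULE Bd: **the bound on a compact fibre without critical points** -/
theorem bound_fib (hX : Surface X) (hu : TorusMapV X Λ u) (hΛ : DiscreteSub Λ) {M : ℕ} (hM : 1 ≤ M) {Ω : EN N → EN N → EN N → ℂ} (hΩ : IsForm X M 1 Ω)
    {t : Fin g → ℂ} (hcrit : ∀ x ∈ Fib X Λ u t, x ∉ Crit hu) :
    ∃ C : ℝ, 0 ≤ C ∧ ∀ x ∈ Fib X Λ u t, ∀ v w, Tan X x v → Tan X x w → hu.du x v = 0 → ‖Ω x v w‖ * ‖x‖ ≤ (C * fs x v * ‖hu.du x w‖) ^ M := by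
  have hfs0 : ∀ x v : EN N, 0 ≤ fs x v := fun x v => div_nonneg (wd_nonneg _ _) (by positivity)
  have hmono : ∀ {C C' : ℝ} {x v w : EN N}, 0 ≤ C → C ≤ C' → ‖Ω x v w‖ * ‖x‖ ≤ (C * fs x v * ‖hu.du x w‖) ^ M →
      ‖Ω x v w‖ * ‖x‖ ≤ (C' * fs x v * ‖hu.du x w‖) ^ M := fun {C C' x v w} h0 h1 h2 => by
    refine h2.trans (pow_le_pow_left₀ (mul_nonneg (mul_nonneg h0 (hfs0 _ _)) (norm_nonneg _)) ?_ M)
    exact mul_le_mul_of_nonneg_right (mul_le_mul_of_nonneg_right h1 (hfs0 _ _)) (norm_nonneg _)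
  have hK : IsCompact (X ∩ sphere (0 : EN N) 1) := by
    refine (isCompact_sphere (0 : EN N) 1).of_isClosed_subset ?_ Set.inter_subset_right
    refine isClosed_of_closure_subset fun x hx => ?_
    have h1 : x ∈ sphere (0 : EN N) 1 := by
      have h2 : closure (X ∩ sphere (0 : EN N) 1) ⊆ sphere (0 : EN N) 1 := closure_minimal Set.inter_subset_right isClosed_sphere
      exact h2 hx
    have h3 : x ≠ 0 := by
      rintro rfl
      simp at h1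
    exact ⟨hX.closed x (closure_mono Set.inter_subset_left hx) h3, h1⟩
  obtain ⟨C, hC0, hC⟩ : ∃ C : ℝ, 0 ≤ C ∧ ∀ x ∈ X ∩ sphere (0 : EN N) 1, x ∈ Fib X Λ u t → ∀ v w, Tan X x v → Tan X x w → hu.du x v = 0 →
      ‖Ω x v w‖ * ‖x‖ ≤ (C * fs x v * ‖hu.du x w‖) ^ M := by
    refine hK.induction_on (p := fun S : Set (EN N) => ∃ C : ℝ, 0 ≤ C ∧ ∀ x ∈ S, x ∈ Fib X Λ u t → ∀ v w, Tan X x v → Tan X x w → hu.du x v = 0 →
      ‖Ω x v w‖ * ‖x‖ ≤ (C * fs x v * ‖hu.du x w‖) ^ M) ?_ ?_ ?_ ?_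
    · exact ⟨0, le_rfl, fun x hx => hx.elim⟩
    · rintro s s' hs ⟨C, h1, h2⟩
      exact ⟨C, h1, fun x hx => h2 x (hs hx)⟩
    · rintro s s' ⟨C, h1, h2⟩ ⟨C', h1', h2'⟩
      refine ⟨max C C', h1.trans (le_max_left _ _), ?_⟩
      rintro x (hx | hx) hxf v w hv hw h0
      · exact hmono h1 (le_max_left _ _) (h2 x hx hxf v w hv hw h0)
      · exact hmono h1' (le_max_right _ _) (h2' x hx hxf v w hv hw h0)
    · rintro x ⟨hx, -⟩
      by_cases hxf : x ∈ Fib X Λ u t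
      · obtain ⟨C, h1, h2⟩ := bound_near hX hu hΛ hM hΩ hx (hcrit x hxf)
        exact ⟨_, mem_nhdsWithin_of_mem_nhds h2, C, h1, fun y hy hyf => hy hyf.1⟩
      · exact ⟨_, mem_nhdsWithin_of_mem_nhds (fib_closed hu hΛ hx hxf), 0, le_rfl, fun y hy hyf => absurd hyf hy⟩
  refine ⟨C, hC0, fun x hx v w hv hw h0 => ?_⟩
  have hx0 : x ≠ 0 := by
    rintro rfl
    exact hX.zero hx.1
  have hn : (‖x‖ : ℂ) ≠ 0 := by
    simpa using hx0
  have hcone := isCone_of_surface hX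
  have h1 : (‖x‖ : ℂ)⁻¹ • x ∈ X := hX.smul x hx.1 _ (inv_ne_zero hn)
  have h2 : (‖x‖ : ℂ)⁻¹ • x ∈ sphere (0 : EN N) 1 := by
    rw [mem_sphere_zero_iff_norm, norm_smul, norm_inv, Complex.norm_real, norm_norm]
    exact inv_mul_cancel₀ (norm_ne_zero_iff.2 hx0)
  have h3 : (‖x‖ : ℂ)⁻¹ • x ∈ Fib X Λ u t := by
    refine ⟨h1, ?_⟩
    have h4 := Λ.add_mem (hu.smul x hx.1 _ (inv_ne_zero hn)) hx.2
    rwa [sub_add_sub_cancel] at h4
  have hv' := tan_smul hcone hv (inv_ne_zero hn)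
  have hw' := tan_smul hcone hw (inv_ne_zero hn)
  have h0' : hu.du ((‖x‖ : ℂ)⁻¹ • x) ((‖x‖ : ℂ)⁻¹ • v) = 0 := by
    rw [du_scale hX hu hΛ hv (inv_ne_zero hn), h0]
  have h5 := bound_scale hX hu hΛ hΩ h1 hn hv' hw' (hC _ ⟨h1, h2⟩ h3 _ _ hv' hw' h0')
  rw [smul_smul, smul_smul, smul_smul, mul_inv_cancel₀ hn, one_smul, one_smul, one_smul] at h5
  exact h5

end Pool.Agent.E2
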