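import Pool.Agent.E2.Defs
import Pool.Agent.E1.Disc
import Pool.Agent.E1.ChowC
import Pool.Agent.E1.ChowF
import Pool.Agent.H17BP.Art
import Pool.Agent.H17EF.Bridge
import Pool.Agent.H62.FC.Main

/-!
# E2 Cov: proper analytic subsets of a surface, given locally by finitely many equations, are covered by finitely many discs
-/

set_option autoImplicit false

open Topology Filter Metric MvPolynomial

noncomputable section

namespace Pool.Agent.E2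

open Pool.Agent.H36.BP (EN)
open Pool.Agent.H17BP (Surface IsChart)
open Pool.Agent.H17EF (coneE)
open Pool.Agent.H17LG.Variety (FunField)

variable {N : ℕ}

/-- the zeros of an analytic function which is not `0` -/
theorem finite_zeros {h : ℂ → ℂ} (hh : AnalyticOnNhd ℂ h (closedBall 0 1)) (hne : ∃ z ∈ closedBall (0 : ℂ) 1, h z ≠ 0) :
    {z | z ∈ closedBall (0 : ℂ) (1 / 2) ∧ h z = 0}.Finite := by
  by_contra hinf
  obtain ⟨z, hz, hz2⟩ := Set.Infinite.exists_accPt_of_subset_isCompact (s := {z | z ∈ closedBall (0 : ℂ) (1 / 2) ∧ h z = 0})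
    hinf (isCompact_closedBall (0 : ℂ) (1 / 2)) (fun z hz => hz.1)
  have hfr : ∃ᶠ w in 𝓝[≠] z, h w = 0 := by
    rw [accPt_iff_frequently_nhdsNE] at hz2
    exact hz2.mono fun w hw => hw.2
  have hz1 : z ∈ closedBall (0 : ℂ) 1 := closedBall_subset_closedBall (by norm_num) hz
  have h1 := hh.eqOn_zero_of_preconnected_of_frequently_eq_zero (convex_closedBall (0 : ℂ) 1).isPreconnected hz1 hfr
  obtain ⟨w, hw, hw2⟩ := hne
  exact hw2 (h1 hw)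

/-- **The local cover.** -/
theorem cover_vec {ι : Type*} [Finite ι] {G : ι → ℂ × ℂ → ℂ} (hG : ∀ i, AnalyticAt ℂ (G i) 0) (hne : ¬ ∀ᶠ p in 𝓝 (0 : ℂ × ℂ), ∀ i, G i p = 0)
    {W : Set (ℂ × ℂ)} (hW : W ∈ 𝓝 (0 : ℂ × ℂ)) :
    ∃ T : Set (ℂ → ℂ × ℂ), T.Finite ∧ (∀ c ∈ T, AnalyticOnNhd ℂ c (closedBall 0 1) ∧ ∀ z ∈ closedBall (0 : ℂ) 1, c z ∈ W ∧ ∀ i, G i (c z) = 0) ∧
      ∀ᶠ p in 𝓝 (0 : ℂ × ℂ), (∀ i, G i p = 0) → ∃ c ∈ T, ∃ z ∈ closedBall (0 : ℂ) (1 / 2), c z = p := by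
  classical
  obtain ⟨i₀, hi₀⟩ : ∃ i, ¬ ∀ᶠ p in 𝓝 (0 : ℂ × ℂ), G i p = 0 := by
    by_contra hcon
    push Not at hcon
    exact hne (eventually_all.2 hcon)
  obtain ⟨n, hn⟩ := Pool.Agent.H17BP.exists_resN (hG i₀) hi₀
  have hW' : {p : ℂ × ℂ | p ∈ W ∧ ∀ i, AnalyticAt ℂ (G i) p} ∈ 𝓝 (0 : ℂ × ℂ) :=
    Filter.Eventually.and hW (eventually_all.2 fun i => (hG i).eventually_analyticAt)
  obtain ⟨r, d, hd1, hd2, hd3⟩ := Pool.Agent.E1.disc_cover n hn hW'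
  let T₁ : Fin r → Set (ℂ → ℂ × ℂ) := fun l => if ∀ z ∈ closedBall (0 : ℂ) 1, ∀ i, G i (d l z) = 0 then {d l} else
    (fun (z : ℂ) (_ : ℂ) => d l z) '' {z | z ∈ closedBall (0 : ℂ) (1 / 2) ∧ ∀ i, G i (d l z) = 0}
  have hT₁ : ∀ l, (T₁ l).Finite := fun l => by
    simp only [T₁]
    split_ifs with h
    · exact Set.finite_singleton _
    · push Not at h
      obtain ⟨z, hz, i, hi⟩ := h
      refine Set.Finite.image _ ((finite_zeros (h := fun z => G i (d l z)) (fun z hz => ?_) ⟨z, hz, hi⟩).subset fun z hz => ⟨hz.1, hz.2 i⟩)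
      exact ((hd2 l z hz).1.2 i).comp (hd1 l z hz)
  refine ⟨⋃ l, T₁ l, Set.finite_iUnion hT₁, ?_, ?_⟩
  · intro c hc
    obtain ⟨l, hl⟩ := Set.mem_iUnion.1 hc
    simp only [T₁] at hl
    split_ifs at hl with h
    · rw [Set.mem_singleton_iff] at hl
      subst hl
      exact ⟨hd1 l, fun z hz => ⟨(hd2 l z hz).1.1, h z hz⟩⟩
    · obtain ⟨z, ⟨hz1, hz2⟩, rfl⟩ := hl
      refine ⟨fun w _ => analyticAt_const, fun w _ => ⟨(hd2 l z (closedBall_subset_closedBall (by norm_num) hz1)).1.1, hz2⟩⟩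
  · filter_upwards [hd3] with p hp hG0
    obtain ⟨l, z, hz, hdz⟩ := hp (hG0 i₀)
    by_cases h : ∀ z ∈ closedBall (0 : ℂ) 1, ∀ i, G i (d l z) = 0
    · refine ⟨d l, Set.mem_iUnion.2 ⟨l, ?_⟩, z, hz, hdz⟩
      simp only [T₁, if_pos h, Set.mem_singleton_iff]
    · refine ⟨fun _ => d l z, Set.mem_iUnion.2 ⟨l, ?_⟩, z, hz, hdz⟩
      simp only [T₁, if_neg h]
      exact ⟨z, ⟨hz, fun i => by rw [hdz]; exact hG0 i⟩, rfl⟩

section glob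

variable {V : Type} [NormedAddCommGroup V] [NormedSpace ℂ V]

/-- the discs over a neighbourhood of a point of the surface -/
theorem discs_near {X Z : Set V} (hZX : Z ⊆ X) (hZs : ∀ x ∈ Z, ∀ c : ℂ, c ≠ 0 → c • x ∈ Z)
    {σ : ℂ × ℂ → V} {τ : V → ℂ × ℂ} {k : ℕ} {G : Fin k → ℂ × ℂ → ℂ} [CompleteSpace V] (hσ : IsChart X σ τ) (hG : ∀ i, AnalyticAt ℂ (G i) 0)
    (hg : ∀ᶠ p in 𝓝 (0 : ℂ × ℂ), (σ p ∈ Z ↔ ∀ i, G i p = 0)) (hne : ¬ ∀ᶠ p in 𝓝 (0 : ℂ × ℂ), ∀ i, G i p = 0) :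
    ∃ T : Set (ℂ → V), T.Finite ∧ (∀ γ ∈ T, AnalyticOnNhd ℂ γ (closedBall 0 1) ∧ ∀ z ∈ closedBall (0 : ℂ) 1, γ z ∈ Z) ∧
      ∀ᶠ y in 𝓝 (σ 0), y ∈ Z → ∃ γ ∈ T, ∃ z ∈ closedBall (0 : ℂ) (1 / 2), ∃ c : ℂ, c ≠ 0 ∧ γ z = c • y := by
  have hW : {p : ℂ × ℂ | AnalyticAt ℂ σ p ∧ (σ p ∈ Z ↔ ∀ i, G i p = 0)} ∈ 𝓝 (0 : ℂ × ℂ) :=
    hσ.σ_an.eventually_analyticAt.and hg
  obtain ⟨T, hT1, hT2, hT3⟩ := cover_vec hG hne hW
  have hτ0 : τ (σ 0) = 0 := hσ.left.self_of_nhds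
  have hτ : Tendsto τ (𝓝 (σ 0)) (𝓝 0) := by
    have h1 := hσ.τ_an.continuousAt.tendsto
    rwa [hτ0] at h1
  refine ⟨(fun c => σ ∘ c) '' T, hT1.image _, ?_, ?_⟩
  · rintro γ ⟨c, hc, rfl⟩
    refine ⟨fun z hz => ?_, fun z hz => ?_⟩
    · exact AnalyticAt.comp ((hT2 c hc).2 z hz).1.1 ((hT2 c hc).1 z hz)
    · exact ((hT2 c hc).2 z hz).1.2.2 ((hT2 c hc).2 z hz).2
  · filter_upwards [hσ.right, hτ.eventually hT3, hτ.eventually hg] with y h1 h2 h3 hy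
    obtain ⟨a, ha, hya⟩ := h1 (hZX hy)
    have h4 : σ (τ y) = a⁻¹ • y := by
      conv_rhs => rw [hya]
      rw [smul_smul, inv_mul_cancel₀ ha, one_smul]
    have h5 : σ (τ y) ∈ Z := by
      rw [h4]
      exact hZs y hy _ (inv_ne_zero ha)
    obtain ⟨c, hc, z, hz, hcz⟩ := h2 (h3.1 h5)
    refine ⟨_, ⟨c, hc, rfl⟩, z, hz, a⁻¹, inv_ne_zero ha, ?_⟩
    simp only [Function.comp_apply]
    rw [hcz, h4]

/-- **The cover.** -/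
theorem exists_discs [FiniteDimensional ℂ V] {X Z : Set V} (hX : Surface X) (hZX : Z ⊆ X) (hZs : ∀ x ∈ Z, ∀ c : ℂ, c ≠ 0 → c • x ∈ Z)
    (hloc : Proper X Z) :
    ∃ (r : ℕ) (γ : Fin r → ℂ → V), (∀ i, AnalyticOnNhd ℂ (γ i) (closedBall 0 1)) ∧
      (∀ i, ∀ z ∈ closedBall (0 : ℂ) 1, γ i z ∈ Z) ∧
      ∀ x ∈ Z, ∃ i, ∃ z ∈ closedBall (0 : ℂ) (1 / 2), ∃ c : ℂ, c ≠ 0 ∧ γ i z = c • x := by
  have : ProperSpace V := FiniteDimensional.proper ℂ V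
  have : CompleteSpace V := FiniteDimensional.complete ℂ V
  have hK : IsCompact (X ∩ sphere (0 : V) 1) := by
    refine (isCompact_sphere (0 : V) 1).of_isClosed_subset ?_ Set.inter_subset_right
    refine isClosed_of_closure_subset fun x hx => ?_
    have h1 : x ∈ sphere (0 : V) 1 := by
      have h2 : closure (X ∩ sphere (0 : V) 1) ⊆ sphere (0 : V) 1 := closure_minimal Set.inter_subset_right isClosed_sphere
      exact h2 hx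
    have h3 : x ≠ 0 := by
      rintro rfl
      simp at h1
    exact ⟨hX.closed x (closure_mono Set.inter_subset_left hx) h3, h1⟩
  obtain ⟨T, hT1, hT2, hT3⟩ : ∃ T : Set (ℂ → V), T.Finite ∧ (∀ γ ∈ T, AnalyticOnNhd ℂ γ (closedBall 0 1) ∧ ∀ z ∈ closedBall (0 : ℂ) 1, γ z ∈ Z) ∧
      ∀ y ∈ X ∩ sphere (0 : V) 1, y ∈ Z → ∃ γ ∈ T, ∃ z ∈ closedBall (0 : ℂ) (1 / 2), ∃ c : ℂ, c ≠ 0 ∧ γ z = c • y := by
    refine hK.induction_on (p := fun S : Set V => ∃ T : Set (ℂ → V), T.Finite ∧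
      (∀ γ ∈ T, AnalyticOnNhd ℂ γ (closedBall 0 1) ∧ ∀ z ∈ closedBall (0 : ℂ) 1, γ z ∈ Z) ∧
      ∀ y ∈ S, y ∈ Z → ∃ γ ∈ T, ∃ z ∈ closedBall (0 : ℂ) (1 / 2), ∃ c : ℂ, c ≠ 0 ∧ γ z = c • y) ?_ ?_ ?_ ?_
    · exact ⟨∅, Set.finite_empty, by simp, by simp⟩
    · rintro s t hst ⟨T, h1, h2, h3⟩
      exact ⟨T, h1, h2, fun y hy => h3 y (hst hy)⟩
    · rintro s t ⟨T, h1, h2, h3⟩ ⟨T', h1', h2', h3'⟩
      refine ⟨T ∪ T', h1.union h1', ?_, ?_⟩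
      · rintro γ (h | h)
        · exact h2 γ h
        · exact h2' γ h
      · rintro y (h | h) hy
        · obtain ⟨γ, h4, h5⟩ := h3 y h hy
          exact ⟨γ, Or.inl h4, h5⟩
        · obtain ⟨γ, h4, h5⟩ := h3' y h hy
          exact ⟨γ, Or.inr h4, h5⟩
    · rintro x ⟨hx, -⟩
      obtain ⟨σ, τ, k, G, h1, h2, h3, h3', h4⟩ := hloc x hx
      obtain ⟨T, h5, h6, h7⟩ := discs_near hZX hZs h1 h3 h3' h4
      rw [h2] at h7
      exact ⟨_, mem_nhdsWithin_of_mem_nhds h7, T, h5, h6, fun y hy => hy⟩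
  obtain ⟨r, e⟩ := Finite.exists_equiv_fin (α := T) (h := hT1)
  obtain ⟨e⟩ := e
  refine ⟨r, fun i => (e.symm i).1, fun i => (hT2 _ (e.symm i).2).1, fun i => (hT2 _ (e.symm i).2).2, fun x hx => ?_⟩
  have hx0 : x ≠ 0 := by
    rintro rfl
    exact hX.zero (hZX hx)
  have hn : (‖x‖ : ℂ) ≠ 0 := by
    simpa using hx0
  have h1 : (‖x‖ : ℂ)⁻¹ • x ∈ Z := hZs x hx _ (inv_ne_zero hn)
  have h2 : (‖x‖ : ℂ)⁻¹ • x ∈ sphere (0 : V) 1 := by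
    rw [mem_sphere_zero_iff_norm, norm_smul, norm_inv, Complex.norm_real, norm_norm]
    exact inv_mul_cancel₀ (norm_ne_zero_iff.2 hx0)
  obtain ⟨γ, hγ, z, hz, c, hc, hcz⟩ := hT3 _ ⟨hZX h1, h2⟩ h1
  refine ⟨e ⟨γ, hγ⟩, z, hz, c * (‖x‖ : ℂ)⁻¹, mul_ne_zero hc (inv_ne_zero hn), ?_⟩
  simp only [Equiv.symm_apply_apply]
  rw [hcz, smul_smul]

end glob

/-- **Chow's theorem for proper analytic subsets of a surface**, in the form: they lie in an algebraic curve. -/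
theorem exists_form_of_proper {P : Ideal (MvPolynomial (Fin (N + 1)) ℂ)} [P.IsPrime] {z : Fin 2 → FunField P} (hz : IsTranscendenceBasis ℂ z)
    (hX : Surface (coneE P)) {Z : Set (EN N)} (hZX : Z ⊆ coneE P) (hZs : ∀ x ∈ Z, ∀ c : ℂ, c ≠ 0 → c • x ∈ Z) (hloc : Proper (coneE P) Z) :
    ∃ (R : MvPolynomial (Fin (N + 1)) ℂ) (d : ℕ), R.IsHomogeneous d ∧ R ∉ P ∧ ∀ x ∈ Z, eval x.ofLp R = 0 := by
  obtain ⟨r, γ, h1, h2, h3⟩ := exists_discs hX hZX hZs hloc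
  exact Pool.Agent.E1.exists_form_of_discs hz (Pool.Agent.H62.FC.exists_X_notMem (r := 2) (by norm_num) ⟨z, hz⟩) (fun h => hX.zero (hZX h)) hZs
    γ h1 h2 h3

end Pool.Agent.E2
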