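import Pool.Agent.E2.Loc
import Pool.Agent.E2.Cov

/-!
# E2 Crit: the fibres and the critical set are proper analytic subsets, finitely many critical values
-/

set_option autoImplicit false

open Topology Filter Metric

noncomputable section

namespace Pool.Agent.E2

open Pool.Agent.H36.BP (EN)
open Pool.Agent.H14.PP (IsCone Tan CurveAt)
open Pool.Agent.H17BP (Surface IsChart)
open Pool.Agent.AD (TorusMapV DiscreteSub deriv_comp_lift)

variable {N g : ℕ} {X : Set (EN N)} {Λ : AddSubgroup (Fin g → ℂ)} {u : EN N → (Fin g → ℂ)}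

/-- discrete subgroups are closed -/
theorem isClosed_sub (hΛ : DiscreteSub Λ) : IsClosed (Λ : Set (Fin g → ℂ)) := by
  obtain ⟨δ, hδ, hd⟩ := hΛ
  refine isClosed_of_closure_subset fun a ha => ?_
  rw [Metric.mem_closure_iff] at ha
  obtain ⟨l, hl, hla⟩ := ha (δ / 2) (by positivity)
  have h : a = l := by
    by_contra hne
    obtain ⟨l', hl', hla'⟩ := ha (min (δ / 2) (dist a l)) (lt_min (by positivity) (dist_pos.2 hne))
    have h1 : dist l' l < δ := by
      have h3 := dist_triangle_left l' l a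
      have h4 := hla'.trans_le (min_le_left _ _)
      linarith
    have h2 : l' - l = 0 := hd _ (Λ.sub_mem hl' hl) (by rwa [← dist_eq_norm])
    rw [sub_eq_zero.1 h2] at hla'
    exact absurd (hla'.trans_le (min_le_right _ _)) (lt_irrefl _)
  rw [h]
  exact hl

/-- a neighbourhood of `σ 0` from a neighbourhood of `0` -/
theorem eventually_of_chart {V : Type} [NormedAddCommGroup V] [NormedSpace ℂ V] {X Z : Set V} (hZs : ∀ x ∈ Z, ∀ c : ℂ, c ≠ 0 → c • x ∈ Z)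
    {σ : ℂ × ℂ → V} {τ : V → ℂ × ℂ} (hσ : IsChart X σ τ) (h : ∀ᶠ p in 𝓝 (0 : ℂ × ℂ), σ p ∈ Z) : ∀ᶠ y in 𝓝 (σ 0), y ∈ X → y ∈ Z := by
  have hτ : Tendsto τ (𝓝 (σ 0)) (𝓝 0) := by
    have := hσ.τ_an.continuousAt.tendsto
    rwa [hσ.left.self_of_nhds] at this
  filter_upwards [hσ.right, hτ.eventually h] with y hy1 hy2 hy3
  obtain ⟨c, hc, hy⟩ := hy1 hy3
  rw [hy]
  exact hZs _ hy2 c hc

/-- the equations can be indexed by every finite type -/
theorem proper_of {V : Type} [NormedAddCommGroup V] [NormedSpace ℂ V] {X Z : Set V} {x : V} {ι : Type} [Finite ι] {σ : ℂ × ℂ → V} {τ : V → ℂ × ℂ}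
    {G : ι → ℂ × ℂ → ℂ} (h1 : IsChart X σ τ) (h2 : σ 0 = x) (h3 : ∀ i, AnalyticAt ℂ (G i) 0)
    (h4 : ∀ᶠ p in 𝓝 (0 : ℂ × ℂ), (σ p ∈ Z ↔ ∀ i, G i p = 0)) (h5 : ¬ ∀ᶠ p in 𝓝 (0 : ℂ × ℂ), ∀ i, G i p = 0) :
    ∃ (σ : ℂ × ℂ → V) (τ : V → ℂ × ℂ) (k : ℕ) (G : Fin k → ℂ × ℂ → ℂ), IsChart X σ τ ∧ σ 0 = x ∧ (∀ i, AnalyticAt ℂ (G i) 0) ∧
      (∀ᶠ p in 𝓝 (0 : ℂ × ℂ), (σ p ∈ Z ↔ ∀ i, G i p = 0)) ∧ ¬ ∀ᶠ p in 𝓝 (0 : ℂ × ℂ), ∀ i, G i p = 0 := by
  obtain ⟨k, ⟨e⟩⟩ := Finite.exists_equiv_fin ι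
  have h6 : ∀ p, (∀ i : Fin k, G (e.symm i) p = 0) ↔ ∀ i, G i p = 0 := fun p =>
    ⟨fun h i => by simpa using h (e i), fun h i => h _⟩
  refine ⟨σ, τ, k, fun i => G (e.symm i), h1, h2, fun i => h3 _, ?_, ?_⟩
  · simpa only [h6] using h4
  · simpa only [h6] using h5

theorem fib_smul (hX : Surface X) (hu : TorusMapV X Λ u) (t : Fin g → ℂ) : ∀ x ∈ Fib X Λ u t, ∀ c : ℂ, c ≠ 0 → c • x ∈ Fib X Λ u t := by
  rintro x ⟨hx, hx2⟩ c hc
  refine ⟨hX.smul x hx c hc, ?_⟩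
  have h := Λ.add_mem (hu.smul x hx c hc) hx2
  rwa [sub_add_sub_cancel] at h

theorem du_smul (hX : IsCone X) (hu : TorusMapV X Λ u) (hΛ : DiscreteSub Λ) {x v : EN N} (hv : Tan X x v) {c : ℂ} (hc : c ≠ 0) :
    hu.du (c • x) (c • v) = hu.du x v := by
  funext j
  exact (hu.symDiff hΛ hX j).scale x v hv c hc

theorem tan_of_smul (hX : IsCone X) {x v : EN N} {c : ℂ} (hc : c ≠ 0) (hv : Tan X (c • x) v) : Tan X x (c⁻¹ • v) := by
  have h := Pool.Agent.H22.W.tan_smul hX hv (inv_ne_zero hc)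
  rwa [smul_smul, inv_mul_cancel₀ hc, one_smul] at h

theorem crit_smul (hX : Surface X) (hu : TorusMapV X Λ u) (hΛ : DiscreteSub Λ) : ∀ x ∈ Crit hu, ∀ c : ℂ, c ≠ 0 → c • x ∈ Crit hu := by
  have hc' := isCone hX
  rintro x ⟨hx, hx2⟩ c hc
  refine ⟨hX.smul x hx c hc, fun w hw => ?_⟩
  have h1 := tan_of_smul hc' hc hw
  have h2 := du_smul hc' hu hΛ h1 hc
  rw [smul_smul, mul_inv_cancel₀ hc, one_smul] at h2
  rw [h2]
  exact hx2 _ h1

/-- `u` is not constant near any point -/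
theorem not_const (hX : Surface X) (hu : TorusMapV X Λ u) (h : ∀ t, X ⊆ closure (X \ Fib X Λ u t)) {σ : ℂ × ℂ → EN N} {τ : EN N → ℂ × ℂ}
    (hσ : IsChart X σ τ) {U : ℂ × ℂ → (Fin g → ℂ)} (hU : ∀ᶠ p in 𝓝 (0 : ℂ × ℂ), u (σ p) - U p ∈ Λ) (t : Fin g → ℂ)
    (hc : ∀ᶠ p in 𝓝 (0 : ℂ × ℂ), U p = t) : False := by
  have h1 : ∀ᶠ p in 𝓝 (0 : ℂ × ℂ), σ p ∈ Fib X Λ u t := by
    filter_upwards [hσ.σ_mem, hU, hc] with p h2 h3 h4
    exact ⟨h2, h4 ▸ h3⟩
  have h2 := eventually_of_chart (fib_smul hX hu t) hσ h1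
  have h3 := mem_closure_iff_frequently.1 (h t hσ.σ_mem.self_of_nhds)
  exact h3 (h2.mono fun y hy hy' => hy'.2 (hy hy'.1))

/-- **The fibres are proper.** -/
theorem proper_fib (hX : Surface X) (hu : TorusMapV X Λ u) (hΛ : DiscreteSub Λ) {t : Fin g → ℂ} (h : ∀ t, X ⊆ closure (X \ Fib X Λ u t)) :
    Proper X (Fib X Λ u t) := by
  intro x hx
  obtain ⟨σ, τ, hσ, h0⟩ := hX.chart x hx
  obtain ⟨U, hU, h1, -⟩ := du_chart hX hu hΛ hσ
  by_cases hxt : u x - t ∈ Λ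
  · refine proper_of (ι := Fin g) (G := fun i p => U p i - U 0 i) hσ h0 (fun i => ?_) ?_ ?_
    · exact (AnalyticAt.comp (g := fun v : Fin g → ℂ => v i) (f := U)
        ((ContinuousLinearMap.proj (R := ℂ) (φ := fun _ : Fin g => ℂ) i).analyticAt _) hU).sub analyticAt_const
    · obtain ⟨δ, hδ, hd⟩ := id hΛ
      have h2 : ∀ᶠ p in 𝓝 (0 : ℂ × ℂ), ‖U p - U 0‖ < δ := by
        have h3 := hU.continuousAt.eventually (ball_mem_nhds (U 0) hδ)
        filter_upwards [h3] with p hp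
        rw [← dist_eq_norm]
        exact hp
      have h4 := h1.self_of_nhds
      rw [h0] at h4
      filter_upwards [h1, h2, hσ.σ_mem] with p h5 h6 h7
      constructor
      · rintro ⟨-, h8⟩ i
        have h9 : U p - U 0 ∈ Λ := by
          have h10 := Λ.add_mem (Λ.sub_mem h8 h5) (Λ.sub_mem h4 hxt)
          have h11 : u (σ p) - t - (u (σ p) - U p) + (u x - U 0 - (u x - t)) = U p - U 0 := by abel
          rwa [h11] at h10
        have h10 := hd _ h9 h6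
        exact congrFun h10 i
      · intro h8
        have h9 : U p = U 0 := funext fun i => sub_eq_zero.1 (h8 i)
        refine ⟨h7, ?_⟩
        rw [h9] at h5
        have h10 := Λ.add_mem h5 (Λ.sub_mem hxt h4)
        have h11 : u (σ p) - U 0 + (u x - t - (u x - U 0)) = u (σ p) - t := by abel
        rwa [h11] at h10
    · intro h2
      exact not_const hX hu h hσ h1 (U 0) (h2.mono fun p hp => funext fun i => sub_eq_zero.1 (hp i))
  · refine proper_of (ι := Unit) (G := fun _ _ => 1) hσ h0 (fun _ => analyticAt_const) ?_ ?_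
    · have h2 : U 0 - t ∉ Λ := by
        intro h3
        apply hxt
        have h4 := h1.self_of_nhds
        rw [h0] at h4
        have h5 := Λ.add_mem h4 h3
        rwa [sub_add_sub_cancel] at h5
      have h3 : ∀ᶠ p in 𝓝 (0 : ℂ × ℂ), U p - t ∉ Λ := by
        have h4 : ContinuousAt (fun p => U p - t) 0 := hU.continuousAt.sub continuousAt_const
        exact h4.eventually ((isClosed_sub hΛ).isOpen_compl.mem_nhds h2)
      filter_upwards [h3, h1] with p h4 h5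
      constructor
      · rintro ⟨-, h6⟩
        exfalso
        apply h4
        have h7 := Λ.sub_mem h6 h5
        have h8 : u (σ p) - t - (u (σ p) - U p) = U p - t := by abel
        rwa [h8] at h7
      · intro h6
        exact absurd (h6 ()) one_ne_zero
    · intro h2
      exact one_ne_zero (h2.self_of_nhds ())

/-- **The critical set is proper.** -/
theorem proper_crit (hX : Surface X) (hu : TorusMapV X Λ u) (hΛ : DiscreteSub Λ) (h : ∀ t, X ⊆ closure (X \ Fib X Λ u t)) : Proper X (Crit hu) := by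
  intro x hx
  obtain ⟨σ, τ, hσ, h0⟩ := hX.chart x hx
  obtain ⟨U, hU, h1, -, h2, -⟩ := mem_chart hX hu hΛ hσ
  have han : ∀ (v : ℂ × ℂ) (i : Fin g), AnalyticAt ℂ (fun p => fderiv ℂ U p v i) 0 := by
    intro v i
    have h3 : AnalyticAt ℂ (fun p => fderiv ℂ U p v) 0 := by
      exact AnalyticAt.comp (g := fun L : (ℂ × ℂ) →L[ℂ] (Fin g → ℂ) => L v) (f := fderiv ℂ U)
        ((ContinuousLinearMap.apply ℂ (Fin g → ℂ) v).analyticAt _) hU.fderiv
    exact AnalyticAt.comp (g := fun v : Fin g → ℂ => v i) (f := fun p => fderiv ℂ U p v)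
      ((ContinuousLinearMap.proj (R := ℂ) (φ := fun _ : Fin g => ℂ) i).analyticAt _) h3
  refine proper_of (ι := Fin g ⊕ Fin g) (G := Sum.elim (fun i p => fderiv ℂ U p (1, 0) i) (fun i p => fderiv ℂ U p (0, 1) i)) hσ h0 ?_ ?_ ?_
  · rintro (i | i)
    · exact han _ i
    · exact han _ i
  · filter_upwards [h2] with p hp
    rw [hp]
    exact ⟨fun h3 => by rintro (i | i); exacts [(h3 i).1, (h3 i).2], fun h3 i => ⟨h3 (Sum.inl i), h3 (Sum.inr i)⟩⟩
  · intro h3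
    have h4 : ∀ᶠ p in 𝓝 (0 : ℂ × ℂ), fderiv ℂ U p = 0 ∧ DifferentiableAt ℂ U p := by
      filter_upwards [h3, hU.eventually_analyticAt] with p h5 h6
      refine ⟨?_, h6.differentiableAt⟩
      ext v i
      · simpa using h5 (Sum.inl _)
      · simpa using h5 (Sum.inr _)
    obtain ⟨r, hr, hball⟩ := Metric.eventually_nhds_iff_ball.1 h4
    refine not_const hX hu h hσ h1 (U 0) ?_
    filter_upwards [ball_mem_nhds (0 : ℂ × ℂ) hr] with p hp
    exact (convex_ball (0 : ℂ × ℂ) r).is_const_of_fderivWithin_eq_zero (𝕜 := ℂ) (fun y hy => (hball y hy).2.differentiableWithinAt)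
      (fun y hy => by
        rw [fderivWithin_of_isOpen isOpen_ball hy]
        exact (hball y hy).1) hp (mem_ball_self hr)

/-- a curve with `du (F') = 0` stays in a fibre, locally -/
theorem eventually_of_du (hu : TorusMapV X Λ u) (hΛ : DiscreteSub Λ) {F : ℂ → EN N} {z₀ : ℂ} (hF : AnalyticAt ℂ F z₀)
    (hFX : ∀ᶠ z in 𝓝 z₀, F z ∈ X ∧ hu.du (F z) (deriv F z) = 0) : ∀ᶠ z in 𝓝 z₀, u (F z) - u (F z₀) ∈ Λ := by
  have hx : F z₀ ∈ X := hFX.self_of_nhds.1
  have hl := hu.lift_an hx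
  have hc : Tendsto F (𝓝 z₀) (𝓝 (F z₀)) := hF.continuousAt.tendsto
  obtain ⟨h, hh⟩ : ∃ h : ℂ → (Fin g → ℂ), h = fun z => hu.lift (F z₀) (F z) := ⟨_, rfl⟩
  have hder : ∀ᶠ z in 𝓝 z₀, deriv h z = 0 ∧ DifferentiableAt ℂ h z := by
    filter_upwards [hc.eventually hl.eventually_analyticAt, hc.eventually (hu.lift_mem hx).eventually_nhds, hF.eventually_analyticAt,
      hFX.eventually_nhds] with z h1 h2 h3 h4
    have h5 : AnalyticAt ℂ h z := by
      rw [hh]
      exact AnalyticAt.comp (g := hu.lift (F z₀)) (f := F) h1 h3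
    refine ⟨?_, h5.differentiableAt⟩
    have ht : Tan X (F z) (deriv F z) := Pool.Agent.H22.W.tan_curve ⟨h3, h4.mono fun w hw => hw.1⟩
    rw [hh, deriv_comp_lift h3 h1, ← hu.du_eq hΛ ht h1 h2]
    exact h4.self_of_nhds.2
  obtain ⟨r, hr, hball⟩ := Metric.eventually_nhds_iff_ball.1 hder
  have hconst : ∀ z ∈ ball z₀ r, h z = h z₀ := by
    intro z hz
    exact (convex_ball z₀ r).is_const_of_fderivWithin_eq_zero (𝕜 := ℂ) (fun y hy => (hball y hy).2.differentiableWithinAt)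
      (fun y hy => by
        rw [fderivWithin_of_isOpen isOpen_ball hy]
        ext1
        exact (hball y hy).1) hz (mem_ball_self hr)
  filter_upwards [hc.eventually (hu.lift_mem hx), isOpen_ball.mem_nhds (mem_ball_self hr), hFX] with z h1 h2 h2'
  have h3 := h1 h2'.1
  have h4 := (hu.lift_mem hx).self_of_nhds hx
  have h5 : hu.lift (F z₀) (F z) = hu.lift (F z₀) (F z₀) := by
    have := hconst z h2
    rwa [hh] at this
  rw [h5] at h3
  have h6 := Λ.sub_mem h3 h4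
  have h7 : u (F z) - u (F z₀) = (u (F z) - hu.lift (F z₀) (F z₀)) - (u (F z₀) - hu.lift (F z₀) (F z₀)) := by abel
  rw [h7]
  exact h6

/-- **Finitely many critical values.** -/
theorem finite_crit (hX : Surface X) (hu : TorusMapV X Λ u) (hΛ : DiscreteSub Λ) (h : ∀ t, X ⊆ closure (X \ Fib X Λ u t)) :
    ∃ (r : ℕ) (t : Fin r → (Fin g → ℂ)), ∀ x ∈ Crit hu, ∃ i, u x - t i ∈ Λ := by
  obtain ⟨r, γ, h1, h2, h3⟩ := exists_discs hX (Z := Crit hu) (fun x hx => hx.1) (crit_smul hX hu hΛ) (proper_crit hX hu hΛ h)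
  refine ⟨r, fun i => u (γ i 0), fun x hx => ?_⟩
  obtain ⟨i, z, hz, c, hc, hcz⟩ := h3 x hx
  refine ⟨i, ?_⟩
  have h4 : ∀ z ∈ ball (0 : ℂ) 1, ∀ w ∈ ball (0 : ℂ) 1, u (γ i z) - u (γ i w) ∈ Λ := by
    have hlc : IsLocallyConstant fun z : ball (0 : ℂ) 1 => (QuotientAddGroup.mk (u (γ i z)) : (Fin g → ℂ) ⧸ Λ) := by
      rw [IsLocallyConstant.iff_eventually_eq]
      intro z₀
      have h5 : ∀ᶠ z in 𝓝 (z₀ : ℂ), γ i z ∈ X ∧ hu.du (γ i z) (deriv (γ i) z) = 0 := by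
        filter_upwards [isOpen_ball.mem_nhds z₀.2] with z hz
        have h6 := h2 i z (ball_subset_closedBall hz)
        refine ⟨h6.1, h6.2 _ (Pool.Agent.H22.W.tan_curve ⟨h1 i z (ball_subset_closedBall hz), ?_⟩)⟩
        filter_upwards [isOpen_ball.mem_nhds hz] with w hw
        exact (h2 i w (ball_subset_closedBall hw)).1
      have h6 := eventually_of_du hu hΛ (h1 i z₀ (ball_subset_closedBall z₀.2)) h5
      have h7 : Tendsto (fun z : ball (0 : ℂ) 1 => (z : ℂ)) (𝓝 z₀) (𝓝 (z₀ : ℂ)) := continuous_subtype_val.tendsto z₀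
      filter_upwards [h7.eventually h6] with z hz
      exact Pool.Agent.AD.sub_mem_iff.1 hz
    have : PreconnectedSpace (ball (0 : ℂ) 1) := isPreconnected_iff_preconnectedSpace.1 (convex_ball (0 : ℂ) 1).isPreconnected
    intro z hz w hw
    exact Pool.Agent.AD.sub_mem_iff.2 (hlc.apply_eq_of_preconnectedSpace ⟨z, hz⟩ ⟨w, hw⟩)
  have h5 := h4 z (closedBall_subset_ball (by norm_num) hz) 0 (mem_ball_self one_pos)
  rw [hcz] at h5
  have h6 := Λ.sub_mem h5 (hu.smul x hx.1 c hc)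
  have h7 : u (c • x) - u (γ i 0) - (u (c • x) - u x) = u x - u (γ i 0) := by abel
  rwa [h7] at h6

end Pool.Agent.E2
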