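import Pool.Agent.AD.T.Proj
import Pool.Agent.H19T.FBr
import Pool.Agent.H17BP.Surf

/-!
# E2 Defs: the fibres and the critical points of a holomorphic map from a surface to a complex torus
-/

set_option autoImplicit false

open Topology Filter

namespace Pool.Agent.E2

open Pool.Agent.H36.BP (EN)
open Pool.Agent.H14.PP (Tan)
open Pool.Agent.H17BP (IsChart)
open Pool.Agent.AD (TorusMapV)

/-- `Z` is a proper analytic subset of the surface with the cone `X`: near every point of `X` it is given by finitely many equations, which are not all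
identically `0`. -/
def Proper {V : Type} [NormedAddCommGroup V] [NormedSpace ℂ V] (X Z : Set V) : Prop :=
  ∀ x ∈ X, ∃ (σ : ℂ × ℂ → V) (τ : V → ℂ × ℂ) (k : ℕ) (G : Fin k → ℂ × ℂ → ℂ), IsChart X σ τ ∧ σ 0 = x ∧ (∀ i, AnalyticAt ℂ (G i) 0) ∧
    (∀ᶠ p in 𝓝 (0 : ℂ × ℂ), (σ p ∈ Z ↔ ∀ i, G i p = 0)) ∧ ¬ ∀ᶠ p in 𝓝 (0 : ℂ × ℂ), ∀ i, G i p = 0

variable {N g : ℕ} {X : Set (EN N)} {Λ : AddSubgroup (Fin g → ℂ)} {u : EN N → (Fin g → ℂ)}

/-- the fibre of `u` over the class of `t` -/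
def Fib (X : Set (EN N)) (Λ : AddSubgroup (Fin g → ℂ)) (u : EN N → (Fin g → ℂ)) (t : Fin g → ℂ) : Set (EN N) := {x | x ∈ X ∧ u x - t ∈ Λ}

/-- the points where the differential of `u` is `0` -/
def Crit (hu : TorusMapV X Λ u) : Set (EN N) := {x | x ∈ X ∧ ∀ w, Tan X x w → hu.du x w = 0}

/-- the points where the differential of `u` has rank at most one -/
def RankOne (hu : TorusMapV X Λ u) : Set (EN N) :=
  {x | x ∈ X ∧ ∀ v w, Tan X x v → Tan X x w → ∀ i j, hu.du x v i * hu.du x w j = hu.du x v j * hu.du x w i}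

/-- the interior of `RankOne` in `X` -/
def Flat (hu : TorusMapV X Λ u) : Set (EN N) := {x | x ∈ X ∧ ∀ᶠ y in 𝓝 x, y ∈ X → y ∈ RankOne hu}

end Pool.Agent.E2
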