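import Pool.Agent.E2.Loc
import Mathlib.Analysis.Calculus.FDeriv.Symmetric

/-!
# E2 Dir: the direction of `du` is constant along a curve in a fibre

`U : (ℂ × ℂ, 0) → ℂ^g` of rank at most one: if `dU_i (e) ≠ 0`, then `dU_j = h dU_i` with `h = dU_j (e) / dU_i (e)`.  Along a curve `q` with `dU (q') = 0`
the function `h` is constant: differentiate `dU_j (v) dU_i (e) = dU_i (v) dU_j (e)` in the direction `e` at the point `q z` for the fixed vector `v = q' z`,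
and use the symmetry of the second derivatives.
-/

set_option autoImplicit false

open Topology Filter Metric

noncomputable section

namespace Pool.Agent.E2

open Pool.Agent.H36.BP (EN)
open Pool.Agent.H14.PP (IsCone Tan)
open Pool.Agent.H17BP (Surface IsChart)
open Pool.Agent.H22.W (tan_smul tan_mem tan_entire)
open Pool.Agent.AD (TorusMapV DiscreteSub)

variable {N g : ℕ} {X : Set (EN N)} {Λ : AddSubgroup (Fin g → ℂ)} {u : EN N → (Fin g → ℂ)}

/-- the minors in terms of all the vectors -/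
theorem minor_all (L : ℂ × ℂ →L[ℂ] (Fin g → ℂ)) (h : ∀ i j, L (1, 0) i * L (0, 1) j = L (1, 0) j * L (0, 1) i) (v w : ℂ × ℂ) (i j : Fin g) :
    L v i * L w j = L v j * L w i := by
  rw [fderiv_pair L v, fderiv_pair L w]
  have h6 := h i j
  simp only [Pi.add_apply, Pi.smul_apply, smul_eq_mul]
  linear_combination (v.1 * w.2 - v.2 * w.1) * h6

/-- the derivative of the second derivative -/
theorem hasDerivAt_apply {U : ℂ × ℂ → (Fin g → ℂ)} {q : ℂ → ℂ × ℂ} {z : ℂ} (hU : AnalyticAt ℂ U (q z)) (hq : DifferentiableAt ℂ q z) (e : ℂ × ℂ)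
    (j : Fin g) : HasDerivAt (fun w => fderiv ℂ U (q w) e j) (fderiv ℂ (fderiv ℂ U) (q z) (deriv q z) e j) z := by
  have h1 : HasFDerivAt (fderiv ℂ U) (fderiv ℂ (fderiv ℂ U) (q z)) (q z) := hU.fderiv.differentiableAt.hasFDerivAt
  have h2 : HasDerivAt (fun w => fderiv ℂ U (q w)) (fderiv ℂ (fderiv ℂ U) (q z) (deriv q z)) z := h1.comp_hasDerivAt z hq.hasDerivAt
  have h3 : HasDerivAt (fun w => fderiv ℂ U (q w) e) (fderiv ℂ (fderiv ℂ U) (q z) (deriv q z) e) z := by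
    have := h2.clm_apply (hasDerivAt_const z e)
    simpa using this
  exact (hasDerivAt_pi.1 h3) j

/-- the relation of the second derivatives -/
theorem second_rel {U : ℂ × ℂ → (Fin g → ℂ)} {p : ℂ × ℂ} (hU : AnalyticAt ℂ U p)
    (hr : ∀ᶠ p in 𝓝 p, ∀ (v w : ℂ × ℂ) (i j : Fin g), fderiv ℂ U p v i * fderiv ℂ U p w j = fderiv ℂ U p v j * fderiv ℂ U p w i)
    {v : ℂ × ℂ} (hv : fderiv ℂ U p v = 0) (e : ℂ × ℂ) (i j : Fin g) :
    fderiv ℂ (fderiv ℂ U) p v e j * fderiv ℂ U p e i = fderiv ℂ (fderiv ℂ U) p v e i * fderiv ℂ U p e j := by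
  have hl : DifferentiableAt ℂ (fun t : ℂ => p + t • e) 0 := by fun_prop
  have h0 : p + (0 : ℂ) • e = p := by simp
  have hU' : AnalyticAt ℂ U ((fun t : ℂ => p + t • e) 0) := by
    show AnalyticAt ℂ U (p + (0 : ℂ) • e)
    rwa [h0]
  have hde : deriv (fun t : ℂ => p + t • e) 0 = e := by
    have h3 : HasDerivAt (fun z : ℂ => z • e) ((1 : ℂ) • e) 0 := (hasDerivAt_id (0 : ℂ)).smul_const e
    rw [one_smul] at h3
    exact (h3.const_add p).deriv
  have hd : ∀ (w : ℂ × ℂ) (k : Fin g), HasDerivAt (fun t : ℂ => fderiv ℂ U (p + t • e) w k) (fderiv ℂ (fderiv ℂ U) p e w k) 0 := by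
    intro w k
    have h1 := hasDerivAt_apply (q := fun t : ℂ => p + t • e) (z := 0) hU' hl w k
    rw [hde] at h1
    simp only [zero_smul, add_zero] at h1
    exact h1
  have ht : Tendsto (fun t : ℂ => p + t • e) (𝓝 0) (𝓝 p) := by
    have := hl.continuousAt.tendsto
    rwa [h0] at this
  have hsym : ∀ a b : ℂ × ℂ, fderiv ℂ (fderiv ℂ U) p a b = fderiv ℂ (fderiv ℂ U) p b a := by
    intro a b
    have h1 : IsSymmSndFDerivAt ℂ U p := ContDiffAt.isSymmSndFDerivAt_of_omega hU.contDiffAt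
    exact h1 a b
  have hA := (hd v j).mul (hd e i)
  have hB := (hd v i).mul (hd e j)
  have hev : (fun t : ℂ => fderiv ℂ U (p + t • e) v j * fderiv ℂ U (p + t • e) e i) =ᶠ[𝓝 0]
      fun t : ℂ => fderiv ℂ U (p + t • e) v i * fderiv ℂ U (p + t • e) e j := by
    filter_upwards [ht.eventually hr] with t h1
    exact h1 v e j i
  have hC := hA.unique (hB.congr_of_eventuallyEq hev)
  rw [h0, hv] at hC
  simp only [Pi.zero_apply, zero_mul, add_zero] at hC
  rw [hsym v e]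
  exact hC

/-- the local statement in a chart -/
theorem local_dir {U : ℂ × ℂ → (Fin g → ℂ)} (hU : AnalyticAt ℂ U 0)
    (hr : ∀ᶠ p in 𝓝 (0 : ℂ × ℂ), ∀ (v w : ℂ × ℂ) (i j : Fin g), fderiv ℂ U p v i * fderiv ℂ U p w j = fderiv ℂ U p v j * fderiv ℂ U p w i)
    {i₀ : Fin g} {e : ℂ × ℂ} (hne : fderiv ℂ U 0 e i₀ ≠ 0) {q : ℂ → ℂ × ℂ} {z₀ : ℂ} (hq : AnalyticAt ℂ q z₀) (hq0 : q z₀ = 0)
    (hd : ∀ᶠ z in 𝓝 z₀, fderiv ℂ U (q z) (deriv q z) = 0) :
    ∃ c : Fin g → ℂ, ∀ᶠ z in 𝓝 z₀, fderiv ℂ U (q z) e i₀ ≠ 0 ∧ ∀ v j, fderiv ℂ U (q z) v j = c j * fderiv ℂ U (q z) v i₀ := by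
  have ht : Tendsto q (𝓝 z₀) (𝓝 0) := by
    have := hq.continuousAt.tendsto
    rwa [hq0] at this
  have hfa : AnalyticAt ℂ (fderiv ℂ U) 0 := hU.fderiv
  have hcont : ContinuousAt (fun p => fderiv ℂ U p e i₀) 0 := by
    have h1 : ContinuousAt (fun p => fderiv ℂ U p e) 0 := hfa.continuousAt.clm_apply continuousAt_const
    exact (continuousAt_pi.1 h1) i₀
  have hne' : ∀ᶠ z in 𝓝 z₀, fderiv ℂ U (q z) e i₀ ≠ 0 := ht.eventually (hcont.eventually_ne hne)
  have hev : ∀ᶠ z in 𝓝 z₀, fderiv ℂ U (q z) e i₀ ≠ 0 ∧ ∀ j, HasDerivAt (fun w => fderiv ℂ U (q w) e j / fderiv ℂ U (q w) e i₀) 0 z := by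
    filter_upwards [hne', hd, ht.eventually hU.eventually_analyticAt, ht.eventually hr.eventually_nhds, hq.eventually_analyticAt] with z h1 h2 h3 h4 h5
    refine ⟨h1, fun j => ?_⟩
    have h6 := (hasDerivAt_apply h3 h5.differentiableAt e j).div (hasDerivAt_apply h3 h5.differentiableAt e i₀) h1
    have h7 := second_rel h3 h4 h2 e i₀ j
    have h8 : (fderiv ℂ (fderiv ℂ U) (q z) (deriv q z) e j * fderiv ℂ U (q z) e i₀ -
        fderiv ℂ U (q z) e j * fderiv ℂ (fderiv ℂ U) (q z) (deriv q z) e i₀) / fderiv ℂ U (q z) e i₀ ^ 2 = 0 := by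
      rw [h7]
      ring
    rw [h8] at h6
    exact h6
  obtain ⟨r, hr0, hball⟩ := Metric.eventually_nhds_iff_ball.1 hev
  refine ⟨fun j => fderiv ℂ U (q z₀) e j / fderiv ℂ U (q z₀) e i₀, ?_⟩
  filter_upwards [isOpen_ball.mem_nhds (mem_ball_self hr0), ht.eventually hr] with z h1 h2
  have hconst : ∀ j, fderiv ℂ U (q z) e j / fderiv ℂ U (q z) e i₀ = fderiv ℂ U (q z₀) e j / fderiv ℂ U (q z₀) e i₀ := by
    intro j
    exact (convex_ball z₀ r).is_const_of_fderivWithin_eq_zero (𝕜 := ℂ)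
      (f := fun w => fderiv ℂ U (q w) e j / fderiv ℂ U (q w) e i₀)
      (fun y hy => ((hball y hy).2 j).differentiableAt.differentiableWithinAt)
      (fun y hy => by
        rw [fderivWithin_of_isOpen isOpen_ball hy]
        ext1
        exact ((hball y hy).2 j).deriv) h1 (mem_ball_self hr0)
  have h3 := (hball z h1).1
  refine ⟨h3, fun v j => ?_⟩
  show _ = fderiv ℂ U (q z₀) e j / fderiv ℂ U (q z₀) e i₀ * _
  rw [← hconst j, div_mul_eq_mul_div, eq_div_iff h3]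
  have := h2 v e j i₀
  rw [this]
  ring

/-- the local statement on the surface -/
theorem dir_at (hX : Surface X) (hu : TorusMapV X Λ u) (hΛ : DiscreteSub Λ) {F : ℂ → EN N} (hF : Differentiable ℂ F) (hFX : ∀ z, F z ∈ X)
    (h0 : ∀ z, hu.du (F z) (deriv F z) = 0) (hflat : ∀ z, F z ∈ Flat hu) (hcrit : ∀ z, F z ∉ Crit hu) (z₀ : ℂ) :
    ∃ (i₀ : Fin g) (c : Fin g → ℂ), ∀ᶠ z in 𝓝 z₀, (∃ w, Tan X (F z) w ∧ hu.du (F z) w i₀ ≠ 0) ∧
      ∀ w, Tan X (F z) w → ∀ j, hu.du (F z) w j = c j * hu.du (F z) w i₀ := by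
  have hc := isCone hX
  obtain ⟨σ, τ, hσ, hσ0⟩ := hX.chart _ (hFX z₀)
  obtain ⟨U, hU, -, hdu, hC, hR⟩ := mem_chart hX hu hΛ hσ
  have hσc : Tendsto σ (𝓝 (0 : ℂ × ℂ)) (𝓝 (σ 0)) := hσ.σ_an.continuousAt.tendsto
  have hτ0 : τ (σ 0) = 0 := hσ.left.self_of_nhds
  have hFc : Tendsto F (𝓝 z₀) (𝓝 (σ 0)) := by
    rw [hσ0]
    exact hF.continuous.tendsto z₀
  have hFa : AnalyticAt ℂ F z₀ := hF.analyticAt z₀
  -- the minors vanish
  have hr : ∀ᶠ p in 𝓝 (0 : ℂ × ℂ), ∀ (v w : ℂ × ℂ) (i j : Fin g), fderiv ℂ U p v i * fderiv ℂ U p w j = fderiv ℂ U p v j * fderiv ℂ U p w i := by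
    have h1 : ∀ᶠ y in 𝓝 (σ 0), y ∈ X → y ∈ RankOne hu := by
      rw [hσ0]
      exact (hflat z₀).2
    filter_upwards [hσc.eventually h1, hσ.σ_mem, hR] with p h2 h3 h4 v w i j
    exact minor_all _ (h4.1 (h2 h3)) v w i j
  -- a component of `dU` is not zero
  obtain ⟨i₀, e, hne⟩ : ∃ (i₀ : Fin g) (e : ℂ × ℂ), fderiv ℂ U 0 e i₀ ≠ 0 := by
    by_contra hcon
    push Not at hcon
    apply hcrit z₀
    rw [← hσ0]
    exact hC.self_of_nhds.2 fun i => ⟨hcon i _, hcon i _⟩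
  -- the curve in the chart
  have hqa : AnalyticAt ℂ (fun z => τ (F z)) z₀ := by
    have h1 : AnalyticAt ℂ τ (F z₀) := by
      rw [← hσ0]
      exact hσ.τ_an
    exact AnalyticAt.comp (g := τ) (f := F) h1 hFa
  have hq0 : (fun z => τ (F z)) z₀ = 0 := by
    show τ (F z₀) = 0
    rw [← hσ0, hτ0]
  have hqt : Tendsto (fun z => τ (F z)) (𝓝 z₀) (𝓝 0) := by
    have h1 : Tendsto (fun z => τ (F z)) (𝓝 z₀) (𝓝 (τ (F z₀))) := hqa.continuousAt.tendsto
    have h2 : τ (F z₀) = 0 := hq0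
    rwa [h2] at h1
  have hscale : ∀ {x v : EN N}, Tan X x v → ∀ {c : ℂ}, c ≠ 0 → hu.du (c • x) (c • v) = hu.du x v := by
    intro x v hv c hc0
    funext j
    exact (hu.symDiff hΛ hc j).scale x v hv c hc0
  have hcoef := hFc.eventually (Pool.Agent.H36.TB.exists_coef hσ)
  have hd : ∀ᶠ z in 𝓝 z₀, fderiv ℂ U ((fun z => τ (F z)) z) (deriv (fun z => τ (F z)) z) = 0 := by
    filter_upwards [hcoef, hqt.eventually hdu, hqt.eventually hσ.σ_mem] with z h1 h2 h3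
    obtain ⟨c, a, hc0, h4, h5⟩ := h1 F z (hF.analyticAt z) (Eventually.of_forall hFX) rfl
    have h6 := h2 (deriv (fun z => τ (F z)) z)
    rw [← h6.2, ← hscale h6.1 hc0]
    have h8 : σ (τ (F z)) = c⁻¹ • F z := (eq_inv_smul_iff₀ hc0).2 h4.symm
    have h7 : c • fderiv ℂ σ (τ (F z)) (deriv (fun w => τ (F w)) z) = deriv F z + (-(a * c⁻¹)) • F z := by
      rw [h5, neg_smul, mul_smul, ← h8, add_neg_cancel_right]
    show hu.du (c • σ (τ (F z))) (c • fderiv ℂ σ (τ (F z)) (deriv (fun w => τ (F w)) z)) = 0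
    rw [h7, ← h4, du_add_smul hc hu hΛ (hFX z)]
    exact h0 z
  obtain ⟨c, hcc⟩ := local_dir hU hr hne hqa hq0 hd
  refine ⟨i₀, c, ?_⟩
  filter_upwards [hcc, hcoef, hqt.eventually hdu, hqt.eventually (tan_chart hX hσ)] with z h1 h2 h3 h4
  obtain ⟨b, a, hb0, h5, -⟩ := h2 F z (hF.analyticAt z) (Eventually.of_forall hFX) rfl
  constructor
  · refine ⟨b • fderiv ℂ σ (τ (F z)) e, ?_, ?_⟩
    · have h6 := tan_smul hc (h3 e).1 hb0
      rw [← h5] at h6
      exact h6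
    · have h6 : hu.du (F z) (b • fderiv ℂ σ (τ (F z)) e) = hu.du (b • σ (τ (F z))) (b • fderiv ℂ σ (τ (F z)) e) := by
        rw [← h5]
      rw [h6, hscale (h3 e).1 hb0, (h3 e).2]
      exact h1.1
  · intro w hw j
    have h6 : b⁻¹ • F z = σ (τ (F z)) := ((eq_inv_smul_iff₀ hb0).2 h5.symm).symm
    have h7 : Tan X (σ (τ (F z))) (b⁻¹ • w) := by
      rw [← h6]
      exact tan_smul hc hw (inv_ne_zero hb0)
    obtain ⟨v, a', h8⟩ := h4.2 _ h7
    have h9 : hu.du (F z) w = fderiv ℂ U (τ (F z)) v := by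
      rw [← hscale hw (inv_ne_zero hb0), h6, h8, du_add_smul hc hu hΛ h4.1, (h3 v).2]
    rw [h9]
    exact h1.2 v j

/-- a locally constant predicate on the plane -/
theorem forall_of_locally {P : ℂ → Prop} (h : ∀ z₀, (∀ᶠ z in 𝓝 z₀, P z) ∨ ∀ᶠ z in 𝓝 z₀, ¬ P z) (h0 : P 0) (z : ℂ) : P z := by
  have h1 : IsClopen {z | P z} := by
    constructor
    · rw [← isOpen_compl_iff, isOpen_iff_mem_nhds]
      intro z₀ hz
      rcases h z₀ with h2 | h2
      · exact absurd h2.self_of_nhds hz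
      · exact h2
    · rw [isOpen_iff_mem_nhds]
      intro z₀ hz
      rcases h z₀ with h2 | h2
      · exact h2
      · exact absurd hz h2.self_of_nhds
  have h2 := h1.eq_univ ⟨0, h0⟩
  have h3 : z ∈ {z | P z} := by
    rw [h2]
    trivial
  exact h3

/-- **The direction of `du` is constant along a curve in a fibre.** -/
theorem exists_dir (hX : Surface X) (hu : TorusMapV X Λ u) (hΛ : DiscreteSub Λ) {F : ℂ → EN N} (hF : Differentiable ℂ F) (hFX : ∀ z, F z ∈ X)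
    (h0 : ∀ z, hu.du (F z) (deriv F z) = 0) (hflat : ∀ z, F z ∈ Flat hu) (hcrit : ∀ z, F z ∉ Crit hu) :
    ∃ (i : Fin g) (C : ℝ), 0 ≤ C ∧ ∀ z w, Tan X (F z) w → ‖hu.du (F z) w‖ ≤ C * ‖hu.du (F z) w i‖ := by
  have hloc := dir_at hX hu hΛ hF hFX h0 hflat hcrit
  obtain ⟨i, c₀, hi⟩ := hloc 0
  have hi0 := hi.self_of_nhds
  -- the component `i` never vanishes
  have hall : ∀ z, ∃ w, Tan X (F z) w ∧ hu.du (F z) w i ≠ 0 := by
    refine forall_of_locally (P := fun z => ∃ w, Tan X (F z) w ∧ hu.du (F z) w i ≠ 0) (fun z₀ => ?_) hi0.1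
    obtain ⟨k, c, hk⟩ := hloc z₀
    by_cases hci : c i = 0
    · right
      filter_upwards [hk] with z h1
      rintro ⟨w, hw, h2⟩
      apply h2
      rw [h1.2 w hw i, hci, zero_mul]
    · left
      filter_upwards [hk] with z h1
      obtain ⟨w, hw, h2⟩ := h1.1
      refine ⟨w, hw, ?_⟩
      rw [h1.2 w hw i]
      exact mul_ne_zero hci h2
  have hprop : ∀ z, ∀ w, Tan X (F z) w → ∀ j, hu.du (F z) w j = c₀ j * hu.du (F z) w i := by
    refine forall_of_locally (P := fun z => ∀ w, Tan X (F z) w → ∀ j, hu.du (F z) w j = c₀ j * hu.du (F z) w i) (fun z₀ => ?_) hi0.2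
    obtain ⟨k, c, hk⟩ := hloc z₀
    have hci : c i ≠ 0 := by
      intro hci
      obtain ⟨w, hw, h2⟩ := hall z₀
      apply h2
      rw [hk.self_of_nhds.2 w hw i, hci, zero_mul]
    by_cases hcc : ∀ j, c j = c₀ j * c i
    · left
      filter_upwards [hk] with z h1 w hw j
      rw [h1.2 w hw j, h1.2 w hw i, hcc j]
      ring
    · right
      push Not at hcc
      obtain ⟨j, hj⟩ := hcc
      filter_upwards [hk] with z h1 h2
      obtain ⟨w, hw, h3⟩ := h1.1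
      have h4 := h2 w hw j
      rw [h1.2 w hw j, h1.2 w hw i, ← mul_assoc] at h4
      exact hj (mul_right_cancel₀ h3 h4)
  refine ⟨i, ∑ j, ‖c₀ j‖, Finset.sum_nonneg fun j _ => norm_nonneg _, fun z w hw => ?_⟩
  refine (pi_norm_le_iff_of_nonneg (mul_nonneg (Finset.sum_nonneg fun j _ => norm_nonneg _) (norm_nonneg _))).2 fun j => ?_
  rw [hprop z w hw j, norm_mul]
  exact mul_le_mul_of_nonneg_right (Finset.single_le_sum (f := fun j => ‖c₀ j‖) (fun j _ => norm_nonneg _) (Finset.mem_univ j)) (norm_nonneg _)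

end Pool.Agent.E2
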