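import Pool.Agent.E2.Loc
import Pool.Agent.H17EF.Bridge
import Pool.Agent.H90.SG.Poly
import Pool.Agent.H68.KR.SMC
import Pool.Agent.H62.BU.Main
import Pool.Agent.H14.KB.KobBrody

/-!
# E2 Kod: a section of `M K - H` without zeros off a curve, and the curves along which it vanishes
-/

set_option autoImplicit false

open Topology Filter Metric MvPolynomial

noncomputable section

namespace Pool.Agent.E2

open Pool.Agent.H36.BP (EN)
open Pool.Agent.H14.PP (Tan)
open Pool.Agent.H17BP (Surface IsChart IsForm NoZeros)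
open Pool.Agent.H62.FC (Homog)
open Pool.Agent.H17LG.Variety (FunField)
open Pool.Agent.H17EF (coneE LE)
open Pool.Agent.H13.SM (cone)

variable {N : ℕ}

/-- the derivative of a nonconstant curve is not proportional to the curve, at a dense set of points -/
theorem frequently_ind {F : ℂ → EN N} (hF : Differentiable ℂ F) (h0 : ∀ z, F z ≠ 0) (hne : ∃ z w, ∀ c : ℂ, F z ≠ c • F w) (z₁ : ℂ) :
    ∃ᶠ z in 𝓝 z₁, ∀ a : ℂ, deriv F z ≠ a • F z := by
  intro hcon
  have hcon' : ∀ᶠ z in 𝓝 z₁, ∃ a : ℂ, deriv F z = a • F z := by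
    filter_upwards [hcon] with z hz
    push Not at hz
    exact hz
  set G : ℂ → Fin (N + 1) → ℂ := fun z => (LE N).symm (F z) with hG
  have hGd : ∀ z, HasDerivAt G ((LE N).symm (deriv F z)) z := fun z =>
    ((LE N).symm : EN N →L[ℂ] (Fin (N + 1) → ℂ)).hasFDerivAt.comp_hasDerivAt z (hF z).hasDerivAt
  have hGdiff : Differentiable ℂ G := fun z => (hGd z).differentiableAt
  have hG0 : ∀ z, G z ≠ 0 := fun z e => h0 z ((LE N).symm.map_eq_zero_iff.1 e)
  have h1 := Pool.Agent.H14.KB.const_of_deriv (hGdiff.analyticAt z₁) (hG0 z₁) (by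
    filter_upwards [hcon'] with z hz
    obtain ⟨a, ha⟩ := hz
    refine ⟨a, ?_⟩
    rw [(hGd z).deriv, ha, map_smul])
  obtain ⟨j, hj⟩ : ∃ j, G z₁ j ≠ 0 := by
    by_contra h
    push Not at h
    exact hG0 z₁ (funext h)
  have hm : ∀ i z, G z i * G z₁ j - G z j * G z₁ i = 0 := by
    intro i
    have hGi : ∀ i, Differentiable ℂ fun z => G z i := fun i z => (hasDerivAt_pi.1 (hGd z) i).differentiableAt
    have hd : Differentiable ℂ fun z => G z i * G z₁ j - G z j * G z₁ i := ((hGi i).mul_const _).sub ((hGi j).mul_const _)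
    have ha : AnalyticOnNhd ℂ (fun z => G z i * G z₁ j - G z j * G z₁ i) Set.univ := fun z _ => hd.analyticAt z
    have h2 : (fun z => G z i * G z₁ j - G z j * G z₁ i) =ᶠ[𝓝 z₁] fun _ => 0 := by
      filter_upwards [h1] with z hz
      obtain ⟨c, -, hc⟩ := hz
      rw [hc]
      simp only [Pi.smul_apply, smul_eq_mul]
      ring
    have h3 := ha.eqOn_of_preconnected_of_eventuallyEq (fun z _ => analyticAt_const) isPreconnected_univ (Set.mem_univ z₁) h2
    exact fun z => h3 (Set.mem_univ z)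
  have hc : ∀ z, F z = (G z j / G z₁ j) • F z₁ := by
    intro z
    apply (LE N).symm.injective
    rw [map_smul]
    funext i
    show G z i = G z j / G z₁ j * G z₁ i
    rw [div_mul_eq_mul_div, eq_div_iff hj]
    linear_combination hm i z
  have hc0 : ∀ z, G z j / G z₁ j ≠ 0 := by
    intro z e
    have h2 := hc z
    rw [e, zero_smul] at h2
    exact h0 z h2
  obtain ⟨z, w, h⟩ := hne
  refine h ((G z j / G z₁ j) * (G w j / G z₁ j)⁻¹) ?_
  conv_rhs => rw [hc w]
  rw [smul_smul, mul_assoc, inv_mul_cancel₀ (hc0 w), mul_one]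
  exact hc z

/-- a second tangent vector -/
theorem exists_second {X : Set (EN N)} (hX : Surface X) {x v : EN N} (hx : x ∈ X) (hv : Tan X x v) (hne : ∀ a : ℂ, v ≠ a • x) :
    ∃ w, Tan X x w ∧ LinearIndependent ℂ ![x, v, w] := by
  obtain ⟨σ, τ, hσ, h0⟩ := hX.chart x hx
  have hin : ∀ {w : ℂ × ℂ} {a : ℂ}, fderiv ℂ σ 0 w = a • σ 0 → w = 0 := fun h => (Pool.Agent.H62.BU.toChart hσ).indep h
  obtain ⟨-, h1⟩ := (tan_chart hX hσ).self_of_nhds
  rw [h0] at h1
  obtain ⟨u, a, hu⟩ := h1 v hv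
  have hu0 : u ≠ 0 := by
    rintro rfl
    rw [map_zero, zero_add] at hu
    exact hne a hu
  -- a vector of the plane which is not a multiple of `u`
  obtain ⟨u', hu'⟩ : ∃ u' : ℂ × ℂ, LinearIndependent ℂ ![u, u'] := by
    by_cases h : u.1 = 0
    · refine ⟨(1, 0), LinearIndependent.pair_iff.2 fun s t hst => ?_⟩
      have h2 : u.2 ≠ 0 := fun e => hu0 (Prod.ext h e)
      have e1 := congrArg Prod.fst hst
      have e2 := congrArg Prod.snd hst
      simp only [Prod.fst_add, Prod.smul_fst, Prod.snd_add, Prod.smul_snd, smul_eq_mul, Prod.fst_zero, Prod.snd_zero, h, mul_zero, zero_add, mul_one,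
        add_zero] at e1 e2
      exact ⟨(mul_eq_zero.1 e2).resolve_right h2, e1⟩
    · refine ⟨(0, 1), LinearIndependent.pair_iff.2 fun s t hst => ?_⟩
      have e1 := congrArg Prod.fst hst
      have e2 := congrArg Prod.snd hst
      simp only [Prod.fst_add, Prod.smul_fst, Prod.snd_add, Prod.smul_snd, smul_eq_mul, Prod.fst_zero, Prod.snd_zero, mul_zero, mul_one,
        add_zero] at e1 e2
      have e3 := (mul_eq_zero.1 e1).resolve_right h
      rw [e3, zero_mul, zero_add] at e2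
      exact ⟨e3, e2⟩
  refine ⟨fderiv ℂ σ 0 u', ?_, ?_⟩
  · rw [← h0]
    exact tan_fderiv_chart hσ.σ_an hσ.σ_mem u'
  · rw [LinearIndependent.pair_iff] at hu'
    rw [Fintype.linearIndependent_iff]
    intro g hg
    rw [Fin.sum_univ_three] at hg
    simp only [Matrix.cons_val_zero, Matrix.cons_val_one, Matrix.cons_val_two, Matrix.tail_cons, Matrix.head_cons] at hg
    rw [hu, ← h0] at hg
    have h2 : fderiv ℂ σ 0 (g 1 • u + g 2 • u') = (-(g 0 + g 1 * a)) • σ 0 := by
      rw [map_add, map_smul, map_smul, ← sub_eq_zero, ← hg]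
      module
    have h3 := hin h2
    obtain ⟨e1, e2⟩ := hu' _ _ h3
    have h4 : g 0 • σ 0 = 0 := by
      rw [e1, e2, zero_smul, zero_smul, add_zero, add_zero] at hg
      exact hg
    have e0 : g 0 = 0 := (smul_eq_zero.1 h4).resolve_right hσ.ne
    intro i
    fin_cases i
    · exact e0
    · exact e1
    · exact e2

/-- the transported form -/
theorem isForm_transport {X : Set (Fin (N + 1) → ℂ)} {m j : ℕ} {Ω : (Fin (N + 1) → ℂ) → (Fin (N + 1) → ℂ) → (Fin (N + 1) → ℂ) → ℂ} (hΩ : IsForm X m j Ω) :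
    IsForm ((LE N).symm ⁻¹' X : Set (EN N)) m j (fun x v w => Ω ((LE N).symm x) ((LE N).symm v) ((LE N).symm w)) := by
  have ht : ∀ x v : EN N, v ∈ Pool.Agent.H17BP.Tan ((LE N).symm ⁻¹' X : Set (EN N)) x → (LE N).symm v ∈ Pool.Agent.H17BP.Tan X ((LE N).symm x) := by
    rintro x v ⟨F, hF, hFX, h0, h1⟩
    exact Pool.Agent.H36.BP.tan_transport (LE N) ⟨F, ⟨hF, hFX⟩, h0, h1⟩
  refine ⟨fun x hx v hv w hw a b => ?_, fun x hx v hv w hw a b c d => ?_, fun x hx v hv w hw c hc => ?_, fun φ p hφ hφX => ?_⟩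
  · rw [map_add, map_add, map_smul, map_smul]
    exact hΩ.add_smul _ hx _ (ht x v hv) _ (ht x w hw) a b
  · rw [map_add, map_add, map_smul, map_smul, map_smul, map_smul]
    exact hΩ.det _ hx _ (ht x v hv) _ (ht x w hw) a b c d
  · rw [map_smul, map_smul, map_smul]
    exact hΩ.scale _ hx _ (ht x v hv) _ (ht x w hw) c hc
  · have h1 : AnalyticAt ℂ (fun y => (LE N).symm (φ y)) p := (((LE N).symm : EN N →L[ℂ] (Fin (N + 1) → ℂ)).analyticAt _).comp hφ
    have h2 := hΩ.analytic _ p h1 hφX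
    refine h2.congr ?_
    filter_upwards [hφ.eventually_analyticAt] with y hy
    have h3 : HasFDerivAt (fun y => (LE N).symm (φ y)) (((LE N).symm : EN N →L[ℂ] (Fin (N + 1) → ℂ)).comp (fderiv ℂ φ y)) y :=
      ((LE N).symm : EN N →L[ℂ] (Fin (N + 1) → ℂ)).hasFDerivAt.comp y hy.differentiableAt.hasFDerivAt
    rw [h3.fderiv]
    rfl

/-- a section of `M K - H` without zeros off a curve, and the conclusion for a curve along which it vanishes -/
theorem exists_form_gt {P : Ideal (MvPolynomial (Fin (N + 1)) ℂ)} [P.IsPrime] (hP : Homog P) {z : Fin 2 → FunField P} (hz : IsTranscendenceBasis ℂ z)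
    (hsm : ∀ y : Fin (N + 1) → ℂ, y ≠ 0 → (∀ Q ∈ P, eval y Q = 0) → Module.finrank ℂ (Pool.Agent.H13.SM.conTan P y) ≤ 3)
    (hgt : Pool.Agent.H62.FC.LogGeneralType P ∅ 2) :
    ∃ (M : ℕ) (Ω : EN N → EN N → EN N → ℂ) (D : ℕ) (Q : MvPolynomial (Fin (N + 1)) ℂ), 1 ≤ M ∧ Q.IsHomogeneous D ∧ Q ∉ P ∧ IsForm (coneE P) M 1 Ω ∧
      ∀ F : ℂ → EN N, Differentiable ℂ F → (∀ z, F z ∈ coneE P) → (∃ z w, ∀ c : ℂ, F z ≠ c • F w) →
        (∀ z w, Tan (coneE P) (F z) w → Ω (F z) (deriv F z) w = 0) → ∀ z, eval (F z).ofLp Q = 0 := by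
  obtain ⟨M, Om, D₀, Q₀, hM, hQ₀, hQ₀P, hOm, hnz⟩ := Pool.Agent.H68.KR.exists_form_of_smooth hP hz (fun y hy hyP => hsm y hy hyP) hgt
  have hOm' : IsForm (cone P) M 1 Om := hOm
  have hX : Surface (coneE P) := Pool.Agent.H90.SG.surface_coneE hP hz hsm
  refine ⟨M, fun x v w => Om ((LE N).symm x) ((LE N).symm v) ((LE N).symm w), D₀, Q₀, hM, hQ₀, hQ₀P, isForm_transport hOm', ?_⟩
  intro F hF hFX hne h z₁
  by_contra hQ
  have hcont : Continuous fun z => eval (F z).ofLp Q₀ :=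
    (MvPolynomial.continuous_eval Q₀).comp ((LE N).symm.continuous.comp hF.continuous)
  have h0 : ∀ z, F z ≠ 0 := fun z e => hX.zero (e ▸ hFX z)
  obtain ⟨z₂, hz2, hz2'⟩ := ((frequently_ind hF h0 hne z₁).and_eventually (hcont.continuousAt.eventually_ne hQ)).exists
  have hT : Tan (coneE P) (F z₂) (deriv F z₂) := by
    refine ⟨fun y => F (z₂ + y), ⟨?_, Eventually.of_forall fun y => hFX _⟩, by simp, ?_⟩
    · exact (hF.comp (differentiable_id.const_add z₂)).analyticAt 0
    · have := deriv_comp_const_add F z₂ 0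
      rw [add_zero] at this
      exact this
  obtain ⟨w, hw, hind⟩ := exists_second hX (hFX z₂) hT hz2
  refine hnz ((LE N).symm (F z₂)) (hFX z₂) (fun hh => hz2' hh.2) _ (Pool.Agent.H36.BP.tan_transport (LE N) hT) _
    (Pool.Agent.H36.BP.tan_transport (LE N) hw) ?_ (h z₂ w hw)
  have h3 := hind.map' ((LE N).symm : EN N →ₗ[ℂ] (Fin (N + 1) → ℂ)) (LinearMap.ker_eq_bot.2 (LE N).symm.injective)
  have h4 : (((LE N).symm : EN N →ₗ[ℂ] (Fin (N + 1) → ℂ)) ∘ ![F z₂, deriv F z₂, w] : Fin 3 → Fin (N + 1) → ℂ) =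
      ![(LE N).symm (F z₂), (LE N).symm (deriv F z₂), (LE N).symm w] := by
    funext i
    fin_cases i <;> rfl
  rw [h4] at h3
  exact h3

end Pool.Agent.E2
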