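import Pool.Agent.E2.Loc
import Pool.Agent.H14.KB.KobBrody

/-!
# E2 Open: the points of rank at most one
-/

set_option autoImplicit false

open Topology Filter Metric

noncomputable section

namespace Pool.Agent.E2

open Pool.Agent.H36.BP (EN)
open Pool.Agent.H14.PP (IsCone Tan)
open Pool.Agent.H17BP (Surface IsChart)
open Pool.Agent.AD (TorusMapV DiscreteSub)

variable {N g : ℕ} {X : Set (EN N)} {Λ : AddSubgroup (Fin g → ℂ)} {u : EN N → (Fin g → ℂ)}

/-- the tangent spaces at proportional points -/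
theorem tan_smul_inv (hX : Surface X) {x w : EN N} {c : ℂ} (hc : c ≠ 0) (h : Tan X (c • x) w) : Tan X x (c⁻¹ • w) := by
  obtain ⟨γ, ⟨h1, h2⟩, h3, h4⟩ := h
  have h5 : AnalyticAt ℂ (fun z => c⁻¹ • γ z) 0 := h1.fun_const_smul
  refine ⟨fun z => c⁻¹ • γ z, ⟨h5, ?_⟩, ?_, ?_⟩
  · filter_upwards [h2] with z hz
    exact hX.smul _ hz _ (inv_ne_zero hc)
  · simp only
    rw [h3, smul_smul, inv_mul_cancel₀ hc, one_smul]
  · rw [deriv_fun_const_smul _ h1.differentiableAt, h4]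

/-- the differential at proportional points -/
theorem du_scale_open (hX : Surface X) (hu : TorusMapV X Λ u) (hΛ : DiscreteSub Λ) {x w : EN N} (hx : x ∈ X) {c : ℂ} (hc : c ≠ 0) (h : Tan X (c • x) w) :
    hu.du (c • x) w = hu.du x (c⁻¹ • w) := by
  have hl := hu.lift_an hx
  have hcx : c⁻¹ • (c • x) = x := by rw [smul_smul, inv_mul_cancel₀ hc, one_smul]
  have hl' : AnalyticAt ℂ (hu.lift x) ((fun y : EN N => c⁻¹ • y) (c • x)) := by
    simp only
    rwa [hcx]
  have h1 : AnalyticAt ℂ (fun y : EN N => c⁻¹ • y) (c • x) := by fun_prop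
  have ht : Tendsto (fun y : EN N => c⁻¹ • y) (𝓝 (c • x)) (𝓝 x) := by
    have := h1.continuousAt.tendsto
    rwa [hcx] at this
  rw [hu.du_eq hΛ h (v := fun y => hu.lift x (c⁻¹ • y)) (AnalyticAt.comp (g := hu.lift x) (f := fun y : EN N => c⁻¹ • y) hl' h1)]
  · have h3 : HasFDerivAt (hu.lift x) (fderiv ℂ (hu.lift x) x) (c⁻¹ • (c • x)) := by
      rw [hcx]
      exact hl.differentiableAt.hasFDerivAt
    have h4 : HasFDerivAt (fun y : EN N => c⁻¹ • y) (c⁻¹ • ContinuousLinearMap.id ℂ (EN N)) (c • x) :=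
      (hasFDerivAt_id (c • x)).const_smul c⁻¹
    have h5 := HasFDerivAt.comp (g := hu.lift x) (f := fun y : EN N => c⁻¹ • y) (c • x) h3 h4
    have h6 : fderiv ℂ (fun y => hu.lift x (c⁻¹ • y)) (c • x) = (fderiv ℂ (hu.lift x) x).comp (c⁻¹ • ContinuousLinearMap.id ℂ (EN N)) := h5.fderiv
    rw [h6]
    rfl
  · filter_upwards [ht.eventually (hu.lift_mem hx)] with y h5 hy
    have h6 := h5 (hX.smul _ hy _ (inv_ne_zero hc))
    have h7 := hu.smul y hy c⁻¹ (inv_ne_zero hc)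
    have h8 : u y - hu.lift x (c⁻¹ • y) = (u (c⁻¹ • y) - hu.lift x (c⁻¹ • y)) - (u (c⁻¹ • y) - u y) := by abel
    rw [h8]
    exact Λ.sub_mem h6 h7

theorem rankOne_smul (hX : Surface X) (hu : TorusMapV X Λ u) (hΛ : DiscreteSub Λ) {x : EN N} (hx : x ∈ RankOne hu) {c : ℂ} (hc : c ≠ 0) :
    c • x ∈ RankOne hu := by
  refine ⟨hX.smul _ hx.1 _ hc, fun v w hv hw i j => ?_⟩
  rw [du_scale_open hX hu hΛ hx.1 hc hv, du_scale_open hX hu hΛ hx.1 hc hw]
  exact hx.2 _ _ (tan_smul_inv hX hc hv) (tan_smul_inv hX hc hw) i j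

theorem flat_smul (hX : Surface X) (hu : TorusMapV X Λ u) (hΛ : DiscreteSub Λ) {x : EN N} (hx : x ∈ Flat hu) {c : ℂ} (hc : c ≠ 0) :
    c • x ∈ Flat hu := by
  refine ⟨hX.smul _ hx.1 _ hc, ?_⟩
  have hcx : c⁻¹ • (c • x) = x := by rw [smul_smul, inv_mul_cancel₀ hc, one_smul]
  have ht : Tendsto (fun y : EN N => c⁻¹ • y) (𝓝 (c • x)) (𝓝 x) := by
    have : Continuous fun y : EN N => c⁻¹ • y := continuous_const_smul _
    have := this.tendsto (c • x)
    rwa [hcx] at this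
  filter_upwards [ht.eventually hx.2] with y hy hyX
  have h1 := rankOne_smul hX hu hΛ (hy (hX.smul _ hyX _ (inv_ne_zero hc))) hc
  rwa [smul_smul, mul_inv_cancel₀ hc, one_smul] at h1

/-- `Flat` is open in `X` -/
theorem flat_open {hu : TorusMapV X Λ u} {x : EN N} (hx : x ∈ Flat hu) : ∀ᶠ y in 𝓝 x, y ∈ X → y ∈ Flat hu := by
  filter_upwards [hx.2.eventually_nhds] with y hy hyX
  exact ⟨hyX, hy⟩

/-- the minors of the differential -/
def mnr (U : ℂ × ℂ → (Fin g → ℂ)) (i j : Fin g) (p : ℂ × ℂ) : ℂ :=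
  fderiv ℂ U p (1, 0) i * fderiv ℂ U p (0, 1) j - fderiv ℂ U p (1, 0) j * fderiv ℂ U p (0, 1) i

theorem mnr_an {U : ℂ × ℂ → (Fin g → ℂ)} {p : ℂ × ℂ} (h : AnalyticAt ℂ U p) (i j : Fin g) : AnalyticAt ℂ (mnr U i j) p := by
  have h1 : ∀ (v : ℂ × ℂ) (k : Fin g), AnalyticAt ℂ (fun q => fderiv ℂ U q v k) p := by
    intro v k
    have h2 : AnalyticAt ℂ (fun q => fderiv ℂ U q v) p :=
      ((ContinuousLinearMap.apply ℂ (Fin g → ℂ) v).analyticAt _).comp (f := fderiv ℂ U) (AnalyticAt.fderiv (𝕜 := ℂ) h)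
    exact (analyticAt_pi_iff.1 h2) k
  exact ((h1 (1, 0) i).mul (h1 (0, 1) j)).sub ((h1 (1, 0) j).mul (h1 (0, 1) i))

/-- the local dichotomy -/
theorem local_or (hX : Surface X) (hu : TorusMapV X Λ u) (hΛ : DiscreteSub Λ) {σ : ℂ × ℂ → EN N} {τ : EN N → ℂ × ℂ} (hσ : IsChart X σ τ) :
    σ 0 ∈ Flat hu ∨ ∃ U : ℂ × ℂ → (Fin g → ℂ), AnalyticAt ℂ U 0 ∧ (∀ᶠ p in 𝓝 (0 : ℂ × ℂ), σ p ∉ Flat hu) ∧
      (∀ᶠ p in 𝓝 (0 : ℂ × ℂ), (σ p ∈ RankOne hu ↔ ∀ i j, mnr U i j p = 0)) ∧ ¬ ∀ᶠ p in 𝓝 (0 : ℂ × ℂ), ∀ i j, mnr U i j p = 0 := by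
  obtain ⟨U, hU, -, -, -, h5⟩ := mem_chart hX hu hΛ hσ
  have h5' : ∀ᶠ p in 𝓝 (0 : ℂ × ℂ), (σ p ∈ RankOne hu ↔ ∀ i j, mnr U i j p = 0) := by
    filter_upwards [h5] with p hp
    rw [hp]
    simp only [mnr, sub_eq_zero]
  have hτ0 : τ (σ 0) = 0 := hσ.left.self_of_nhds
  have hτt : Tendsto τ (𝓝 (σ 0)) (𝓝 0) := by
    have := hσ.τ_an.continuousAt.tendsto
    rwa [hτ0] at this
  by_cases hm : ∀ᶠ p in 𝓝 (0 : ℂ × ℂ), ∀ i j, mnr U i j p = 0
  · left
    refine ⟨hσ.σ_mem.self_of_nhds, ?_⟩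
    filter_upwards [hσ.right, hτt.eventually (h5'.and hm)] with y h1 h2 hy
    obtain ⟨c, hc, hyc⟩ := h1 hy
    rw [hyc]
    exact rankOne_smul hX hu hΛ (h2.1.2 h2.2) hc
  · right
    refine ⟨U, hU, ?_, h5', hm⟩
    obtain ⟨r, hr, hball⟩ := Metric.eventually_nhds_iff_ball.1 (h5'.and (hU.eventually_analyticAt.and (hσ.σ_an.eventually_analyticAt.and hσ.σ_mem)))
    filter_upwards [ball_mem_nhds (0 : ℂ × ℂ) hr] with p hp hflat
    apply hm
    have hnear : ∀ᶠ q in 𝓝 p, ∀ i j, mnr U i j q = 0 := by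
      have hc := (hball p hp).2.2.1.continuousAt
      filter_upwards [hc.eventually hflat.2, isOpen_ball.mem_nhds hp] with q h1 h2
      exact (hball q h2).1.1 (h1 (hball q h2).2.2.2)
    filter_upwards [ball_mem_nhds (0 : ℂ × ℂ) hr] with q hq i j
    have h6 : AnalyticOnNhd ℂ (mnr U i j) (ball 0 r) := fun q hq => mnr_an (hball q hq).2.1 i j
    exact h6.eqOn_zero_of_preconnected_of_eventuallyEq_zero (convex_ball (0 : ℂ × ℂ) r).isPreconnected hp
      (hnear.mono fun q h => h i j) hq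

/-- MODULE Open: the points of `RankOne` which are not in its interior form a proper analytic subset. -/
theorem proper_rank (hX : Surface X) (hu : TorusMapV X Λ u) (hΛ : DiscreteSub Λ) : Proper X (RankOne hu \ Flat hu) := by
  intro x hx
  obtain ⟨σ, τ, hσ, rfl⟩ := hX.chart x hx
  rcases local_or hX hu hΛ hσ with h | ⟨U, hU, h1, h2, h3⟩
  · refine ⟨σ, τ, 1, fun _ _ => 1, hσ, rfl, fun _ => analyticAt_const, ?_, ?_⟩
    · filter_upwards [hσ.σ_an.continuousAt.eventually (flat_open h), hσ.σ_mem] with p h1 h2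
      refine iff_of_false (fun h3 => h3.2 (h1 h2)) fun h3 => one_ne_zero (h3 0)
    · intro h1
      exact one_ne_zero (h1.self_of_nhds 0)
  · refine ⟨σ, τ, g * g, fun k => mnr U (finProdFinEquiv.symm k).1 (finProdFinEquiv.symm k).2, hσ, rfl, fun k => mnr_an hU _ _, ?_, ?_⟩
    · filter_upwards [h1, h2] with p h4 h5
      constructor
      · intro h6 k
        exact h5.1 h6.1 _ _
      · intro h6
        refine ⟨h5.2 fun i j => ?_, h4⟩
        have h7 := h6 (finProdFinEquiv (i, j))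
        rwa [Equiv.symm_apply_apply] at h7
    · intro h4
      apply h3
      filter_upwards [h4] with p hp i j
      have h7 := hp (finProdFinEquiv (i, j))
      rwa [Equiv.symm_apply_apply] at h7

/-- `Flat` is closed in `X` -/
theorem flat_closed (hX : Surface X) (hu : TorusMapV X Λ u) (hΛ : DiscreteSub Λ) {x : EN N} (hx : x ∈ X) (h : x ∉ Flat hu) :
    ∀ᶠ y in 𝓝 x, y ∈ X → y ∉ Flat hu := by
  obtain ⟨σ, τ, hσ, rfl⟩ := hX.chart x hx
  rcases local_or hX hu hΛ hσ with h' | ⟨U, hU, h1, h2, h3⟩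
  · exact absurd h' h
  · have hτ0 : τ (σ 0) = 0 := hσ.left.self_of_nhds
    have hτt : Tendsto τ (𝓝 (σ 0)) (𝓝 0) := by
      have := hσ.τ_an.continuousAt.tendsto
      rwa [hτ0] at this
    filter_upwards [hσ.right, hτt.eventually h1] with y h4 h5 hy hfl
    obtain ⟨c, hc, hyc⟩ := h4 hy
    apply h5
    have h6 := flat_smul hX hu hΛ hfl (inv_ne_zero hc)
    have h7 : c⁻¹ • y = σ (τ y) := by
      rw [inv_smul_eq_iff₀ hc]
      exact hyc
    rwa [h7] at h6

/-- MODULE Open: the dichotomy -/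
theorem flat_or (hX : Surface X) (hu : TorusMapV X Λ u) (hΛ : DiscreteSub Λ) {F : ℂ → EN N} (hF : Continuous F) (hFX : ∀ z, F z ∈ X) :
    (∀ z, F z ∈ Flat hu) ∨ ∀ z, F z ∉ Flat hu := by
  have h1 : IsOpen {z | F z ∈ Flat hu} := by
    rw [isOpen_iff_eventually]
    intro z hz
    filter_upwards [hF.continuousAt.eventually (flat_open hz)] with w hw
    exact hw (hFX w)
  have h2 : IsClosed {z | F z ∈ Flat hu} := by
    rw [← isOpen_compl_iff, isOpen_iff_eventually]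
    intro z hz
    filter_upwards [hF.continuousAt.eventually (flat_closed hX hu hΛ (hFX z) hz)] with w hw
    exact hw (hFX w)
  rcases isClopen_iff.1 ⟨h2, h1⟩ with h3 | h3
  · right
    intro z hz
    have : z ∈ {z | F z ∈ Flat hu} := hz
    rw [h3] at this
    exact this
  · left
    intro z
    have : z ∈ {z | F z ∈ Flat hu} := by
      rw [h3]
      trivial
    exact this

/-- `RankOne` is closed in `X` -/
theorem rankOne_closed (hX : Surface X) (hu : TorusMapV X Λ u) (hΛ : DiscreteSub Λ) {x : EN N} (hx : x ∈ X) (h : x ∉ RankOne hu) :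
    ∀ᶠ y in 𝓝 x, y ∈ X → y ∉ RankOne hu := by
  obtain ⟨σ, τ, hσ, rfl⟩ := hX.chart x hx
  obtain ⟨U, hU, -, -, -, h5⟩ := mem_chart hX hu hΛ hσ
  have h5' : ∀ᶠ p in 𝓝 (0 : ℂ × ℂ), (σ p ∈ RankOne hu ↔ ∀ i j, mnr U i j p = 0) := by
    filter_upwards [h5] with p hp
    rw [hp]
    simp only [mnr, sub_eq_zero]
  have h6 := h5'.self_of_nhds
  rw [h6] at h
  push Not at h
  obtain ⟨i, j, hij⟩ := h
  have h7 : ∀ᶠ p in 𝓝 (0 : ℂ × ℂ), mnr U i j p ≠ 0 := (mnr_an hU i j).continuousAt.eventually_ne hij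
  have hτ0 : τ (σ 0) = 0 := hσ.left.self_of_nhds
  have hτt : Tendsto τ (𝓝 (σ 0)) (𝓝 0) := by
    have := hσ.τ_an.continuousAt.tendsto
    rwa [hτ0] at this
  filter_upwards [hσ.right, hτt.eventually (h5'.and h7)] with y h8 h9 hy hr
  obtain ⟨c, hc, hyc⟩ := h8 hy
  have h10 := rankOne_smul hX hu hΛ hr (inv_ne_zero hc)
  have h11 : c⁻¹ • y = σ (τ y) := by
    rw [inv_smul_eq_iff₀ hc]
    exact hyc
  rw [h11] at h10
  exact h9.2 (h9.1.1 h10 i j)

/-- the derivative of a nonconstant curve is not proportional to the curve on a dense set -/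
theorem frequently_indep {F : ℂ → EN N} (hF : Differentiable ℂ F) (h0 : ∀ z, F z ≠ 0) (hne : ∃ z w, ∀ c : ℂ, F z ≠ c • F w) (z₀ : ℂ) :
    ∃ᶠ z in 𝓝 z₀, ∀ a : ℂ, deriv F z ≠ a • F z := by
  intro hcon
  obtain ⟨z₁, z₂, hne⟩ := hne
  have hcoord : ∀ {E : ℂ → EN N}, Differentiable ℂ E → ∀ j : Fin (N + 1), Differentiable ℂ fun w => E w j := fun {E} hE j =>
    (EuclideanSpace.proj (𝕜 := ℂ) j : EN N →L[ℂ] ℂ).differentiable.comp hE
  have hd : Differentiable ℂ (deriv F) := (hF.contDiff (n := 2)).differentiable_deriv_two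
  have hmn : ∀ (i j : Fin (N + 1)) (z : ℂ), F z i * deriv F z j - F z j * deriv F z i = 0 := by
    intro i j
    have hdiff : Differentiable ℂ fun z => F z i * deriv F z j - F z j * deriv F z i :=
      ((hcoord hF i).mul (hcoord hd j)).sub ((hcoord hF j).mul (hcoord hd i))
    have h2 : (fun z => F z i * deriv F z j - F z j * deriv F z i) =ᶠ[𝓝 z₀] fun _ => 0 := by
      filter_upwards [hcon] with w hw
      push Not at hw
      obtain ⟨a, ha⟩ := hw
      rw [ha, PiLp.smul_apply, PiLp.smul_apply, smul_eq_mul, smul_eq_mul]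
      ring
    have h3 : AnalyticOnNhd ℂ (fun z => F z i * deriv F z j - F z j * deriv F z i) Set.univ := fun w _ => hdiff.analyticAt w
    have h4 := h3.eq_of_eventuallyEq (g := fun _ => 0) (fun w _ => analyticAt_const) h2
    exact fun z => congrFun h4 z
  have hprop : ∀ z, ∃ a : ℂ, deriv F z = a • F z := by
    intro z
    obtain ⟨i, hi⟩ : ∃ i, F z i ≠ 0 := by
      by_contra hc
      push Not at hc
      exact h0 z (by ext i; exact hc i)
    refine ⟨deriv F z i / F z i, ?_⟩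
    ext j
    rw [PiLp.smul_apply, smul_eq_mul, div_mul_eq_mul_div, eq_div_iff hi]
    linear_combination hmn i j z
  -- the curve is constant
  let G : ℂ → Fin (N + 1) → ℂ := fun z => (F z).ofLp
  have hG : Differentiable ℂ G := differentiable_pi.2 fun i => hcoord hF i
  have hGd : ∀ z, deriv G z = (deriv F z).ofLp := by
    intro z
    have h1 : HasDerivAt G (deriv F z).ofLp z := by
      rw [hasDerivAt_pi]
      intro i
      exact ((EuclideanSpace.proj (𝕜 := ℂ) i : EN N →L[ℂ] ℂ).hasFDerivAt.comp_hasDerivAt z (hF z).hasDerivAt)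
    exact h1.deriv
  have hloc := Pool.Agent.H14.KB.const_of_deriv (F := G) (z₁ := z₂) (hG.analyticAt z₂) (fun h => h0 z₂ (by ext i; exact congrFun h i))
    (Eventually.of_forall fun z => by
      obtain ⟨a, ha⟩ := hprop z
      refine ⟨a, ?_⟩
      rw [hGd, ha]
      rfl)
  have hmin : ∀ (i j : Fin (N + 1)) (z : ℂ), F z i * F z₂ j - F z j * F z₂ i = 0 := by
    intro i j
    have hdiff : Differentiable ℂ fun z => F z i * F z₂ j - F z j * F z₂ i :=
      ((hcoord hF i).mul_const _).sub ((hcoord hF j).mul_const _)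
    have h2 : (fun z => F z i * F z₂ j - F z j * F z₂ i) =ᶠ[𝓝 z₂] fun _ => 0 := by
      filter_upwards [hloc] with w hw
      obtain ⟨c, -, hc⟩ := hw
      have h3 : ∀ k, F w k = c * F z₂ k := fun k => congrFun hc k
      rw [h3, h3]
      ring
    have h3 : AnalyticOnNhd ℂ (fun z => F z i * F z₂ j - F z j * F z₂ i) Set.univ := fun w _ => hdiff.analyticAt w
    have h4 := h3.eq_of_eventuallyEq (g := fun _ => 0) (fun w _ => analyticAt_const) h2
    exact fun z => congrFun h4 z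
  obtain ⟨j, hj⟩ : ∃ j, F z₂ j ≠ 0 := by
    by_contra hc
    push Not at hc
    exact h0 z₂ (by ext i; exact hc i)
  refine hne (F z₁ j / F z₂ j) ?_
  ext i
  rw [PiLp.smul_apply, smul_eq_mul, div_mul_eq_mul_div, eq_div_iff hj]
  linear_combination hmin i j z₁

/-- MODULE Open: entire curves in the fibres pass through points of rank at most one only -/
theorem mem_rankOne (hX : Surface X) (hu : TorusMapV X Λ u) (hΛ : DiscreteSub Λ) {F : ℂ → EN N} (hF : Differentiable ℂ F) (hFX : ∀ z, F z ∈ X)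
    (hne : ∃ z w, ∀ c : ℂ, F z ≠ c • F w) (h0 : ∀ z, hu.du (F z) (deriv F z) = 0) (z : ℂ) : F z ∈ RankOne hu := by
  by_contra hcon
  have hFne : ∀ z, F z ≠ 0 := fun z h => hX.zero (h ▸ hFX z)
  have h1 : ∀ᶠ w in 𝓝 z, F w ∉ RankOne hu := by
    filter_upwards [hF.continuous.continuousAt.eventually (rankOne_closed hX hu hΛ (hFX z) hcon)] with w hw
    exact hw (hFX w)
  obtain ⟨w, h2, h3⟩ := ((frequently_indep hF hFne hne z).and_eventually h1).exists
  apply h3
  obtain ⟨σ, τ, hσ, hσ0⟩ := hX.chart (F w) (hFX w)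
  obtain ⟨U, hU, -, h4, -, h5⟩ := mem_chart hX hu hΛ hσ
  have h6 := h5.self_of_nhds
  rw [hσ0] at h6
  rw [h6]
  have htan : Tan X (F w) (deriv F w) := by
    refine ⟨fun z => F (w + z), ⟨?_, Eventually.of_forall fun z => hFX _⟩, by simp, ?_⟩
    · exact (hF.comp (differentiable_id.const_add w)).analyticAt 0
    · have h7 : HasDerivAt (fun z => F (w + z)) (deriv F w) 0 := by
        have h8 : HasDerivAt F (deriv F w) (w + 0) := by
          rw [add_zero]
          exact (hF w).hasDerivAt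
        exact HasDerivAt.comp_const_add w 0 h8
      exact h7.deriv
  have h7 := (tan_chart hX hσ).self_of_nhds
  obtain ⟨v, a, hv⟩ := h7.2 (deriv F w) (by rw [hσ0]; exact htan)
  have hv0 : v ≠ 0 := by
    rintro rfl
    rw [map_zero, zero_add, hσ0] at hv
    exact h2 a hv
  have h8 := h0 w
  rw [hv, hσ0, du_add_smul (isCone hX) hu hΛ (hFX w)] at h8
  have h9 := (h4.self_of_nhds v).2
  rw [hσ0, h8] at h9
  have h10 : ∀ i, v.1 * fderiv ℂ U 0 (1, 0) i + v.2 * fderiv ℂ U 0 (0, 1) i = 0 := by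
    intro i
    have h11 := congrFun h9 i
    rw [fderiv_pair] at h11
    simpa using h11.symm
  intro i j
  have hi := h10 i
  have hj := h10 j
  by_cases hv1 : v.1 = 0
  · have hv2 : v.2 ≠ 0 := fun h => hv0 (Prod.ext hv1 h)
    rw [hv1, zero_mul, zero_add] at hi hj
    rw [(mul_eq_zero.1 hi).resolve_left hv2, (mul_eq_zero.1 hj).resolve_left hv2, mul_zero, mul_zero]
  · apply mul_left_cancel₀ hv1
    linear_combination (fderiv ℂ U 0 (0, 1) j) * hi - (fderiv ℂ U 0 (0, 1) i) * hj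

end Pool.Agent.E2
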