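import Pool.Agent.E2.AhlB
import Pool.Agent.E2.Crit
import Pool.Agent.E2.Dir
import Pool.Agent.E2.Bd
import Pool.Agent.E2.Kod
import Pool.Agent.E2.Open
import Pool.Agent.H90.SG.Poly

/-!
# E2 Fin: the entire curves in the fibres of a holomorphic map from a surface of general type to a complex torus lie in one curve
-/

set_option autoImplicit false

open Topology Filter Metric MvPolynomial

noncomputable section

namespace Pool.Agent.E2

open Pool.Agent.H36.BP (EN fs)
open Pool.Agent.H14.PP (IsCone Tan)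
open Pool.Agent.H17BP (Surface IsChart IsForm)
open Pool.Agent.H62.FC (Homog)
open Pool.Agent.H17LG.Variety (FunField)
open Pool.Agent.H17EF (coneE)
open Pool.Agent.AD (TorusMapV DiscreteSub)

variable {N g : ℕ} {Λ : AddSubgroup (Fin g → ℂ)} {u : EN N → (Fin g → ℂ)}

/-- **The torus class**: the nonconstant entire curves in the fibres lie in one curve. -/
theorem exists_R_torus {P : Ideal (MvPolynomial (Fin (N + 1)) ℂ)} [P.IsPrime] (hP : Homog P) {z : Fin 2 → FunField P} (hz : IsTranscendenceBasis ℂ z)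
    (hsm : ∀ y : Fin (N + 1) → ℂ, y ≠ 0 → (∀ Q ∈ P, eval y Q = 0) → Module.finrank ℂ (Pool.Agent.H13.SM.conTan P y) ≤ 3)
    (hgt : Pool.Agent.H62.FC.LogGeneralType P ∅ 2) (hu : TorusMapV (coneE P) Λ u) (hΛ : DiscreteSub Λ)
    (h : ∀ t, coneE P ⊆ closure (coneE P \ Fib (coneE P) Λ u t)) :
    ∃ (R : MvPolynomial (Fin (N + 1)) ℂ) (d : ℕ), R.IsHomogeneous d ∧ R ∉ P ∧ ∀ F : ℂ → EN N, Differentiable ℂ F → (∀ z, F z ∈ coneE P) →
      (∃ z w, ∀ c : ℂ, F z ≠ c • F w) → (∀ z, u (F z) - u (F 0) ∈ Λ) → ∀ z, eval (F z).ofLp R = 0 := by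
  have hX := Pool.Agent.H90.SG.surface_coneE hP hz hsm
  obtain ⟨r, t, ht⟩ := finite_crit hX hu hΛ h
  have h1 : ∀ i : Fin r, ∃ (R : MvPolynomial (Fin (N + 1)) ℂ) (d : ℕ), R.IsHomogeneous d ∧ R ∉ P ∧ ∀ x ∈ Fib (coneE P) Λ u (t i), eval x.ofLp R = 0 :=
    fun i => exists_form_of_proper hz hX (fun x hx => hx.1) (fib_smul hX hu (t i)) (proper_fib hX hu hΛ h)
  choose R d hR hRP hR0 using h1
  obtain ⟨R₀, d₀, hR₀, hR₀P, hR₀0⟩ := exists_form_of_proper hz hX (Z := RankOne hu \ Flat hu) (fun x hx => hx.1.1) (by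
    rintro x ⟨hx1, hx2⟩ c hc
    refine ⟨rankOne_smul hX hu hΛ hx1 hc, fun h2 => hx2 ?_⟩
    have h3 := flat_smul hX hu hΛ h2 (inv_ne_zero hc)
    rwa [smul_smul, inv_mul_cancel₀ hc, one_smul] at h3) (proper_rank hX hu hΛ)
  obtain ⟨M, Ω, D, Q, hM, hQ, hQP, hΩ, hQ0⟩ := exists_form_gt hP hz hsm hgt
  refine ⟨Q * R₀ * ∏ i, R i, D + d₀ + ∑ i, d i, (hQ.mul hR₀).mul (IsHomogeneous.prod _ _ _ fun i _ => hR i), ?_, ?_⟩
  · have hp : P.IsPrime := inferInstance
    intro h2
    rcases hp.mem_or_mem h2 with h3 | h3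
    · rcases hp.mem_or_mem h3 with h4 | h4
      · exact hQP h4
      · exact hR₀P h4
    · obtain ⟨i, -, hi⟩ := (Ideal.IsPrime.prod_mem_iff (p := P)).1 h3
      exact hRP i hi
  · intro F hF hFX hne hfib w
    have h0 : ∀ z, hu.du (F z) (deriv F z) = 0 := Pool.Agent.H19T.du_zero_of_fibre hu hΛ hF hFX hfib
    rw [map_mul, map_mul, map_prod]
    rcases flat_or hX hu hΛ hF.continuous hFX with hfl | hfl
    · by_cases hex : ∃ i, u (F 0) - t i ∈ Λ
      · obtain ⟨i, hi⟩ := hex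
        have h2 : F w ∈ Fib (coneE P) Λ u (t i) := by
          refine ⟨hFX w, ?_⟩
          have h3 := Λ.add_mem (hfib w) hi
          rwa [sub_add_sub_cancel] at h3
        rw [Finset.prod_eq_zero (Finset.mem_univ i) (hR0 i _ h2), mul_zero]
      · have hcr : ∀ x ∈ Fib (coneE P) Λ u (u (F 0)), x ∉ Crit hu := by
          intro x hx hxc
          obtain ⟨i, hi⟩ := ht x hxc
          refine hex ⟨i, ?_⟩
          have h3 := Λ.sub_mem hi hx.2
          rwa [sub_sub_sub_cancel_left] at h3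
        have hFf : ∀ z, F z ∈ Fib (coneE P) Λ u (u (F 0)) := fun z => ⟨hFX z, hfib z⟩
        obtain ⟨i, C, hC, hdir⟩ := exists_dir hX hu hΛ hF hFX h0 hfl fun z => hcr _ (hFf z)
        obtain ⟨C', hC', hbd⟩ := bound_fib hX hu hΛ hM hΩ hcr
        have h2 : ∀ z w, Tan (coneE P) (F z) w → Ω (F z) (deriv F z) w = 0 := by
          refine form_zero hX hu hΛ hM hΩ hF hFX h0 (i := i) (C := C' * C) (fun z => ?_) (fun z w hw => ?_)
          · by_contra hcon
            push Not at hcon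
            refine hcr _ (hFf z) ⟨hFX z, fun w hw => ?_⟩
            have h3 := hdir z w hw
            rw [hcon w hw, norm_zero, mul_zero] at h3
            exact norm_le_zero_iff.1 h3
          · refine (hbd _ (hFf z) _ _ (Pool.Agent.H22.W.tan_entire hF hFX z) hw (h0 z)).trans ?_
            have h3 : 0 ≤ fs (F z) (deriv F z) := Pool.Agent.H36.BP.fs_nonneg _ _
            refine pow_le_pow_left₀ (by positivity) ?_ M
            calc C' * fs (F z) (deriv F z) * ‖hu.du (F z) w‖ ≤ C' * fs (F z) (deriv F z) * (C * ‖hu.du (F z) w i‖) :=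
                  mul_le_mul_of_nonneg_left (hdir z w hw) (by positivity)
              _ = C' * C * fs (F z) (deriv F z) * ‖hu.du (F z) w i‖ := by ring
        rw [hQ0 F hF hFX hne h2 w, zero_mul, zero_mul]
    · have h2 := hR₀0 (F w) ⟨mem_rankOne hX hu hΛ hF hFX hne h0 w, hfl w⟩
      rw [h2, mul_zero, zero_mul]

end Pool.Agent.E2
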