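import Pool.Agent.E2.Defs
import Pool.Agent.H36.TB.Cur

/-!
# E2 Loc: the differential of `u` in a chart
-/

set_option autoImplicit false

open Topology Filter Metric

noncomputable section

namespace Pool.Agent.E2

open Pool.Agent.H36.BP (EN)
open Pool.Agent.H14.PP (IsCone Tan)
open Pool.Agent.H17BP (Surface IsChart)
open Pool.Agent.AD (TorusMapV DiscreteSub)

variable {N g : ℕ} {X : Set (EN N)} {Λ : AddSubgroup (Fin g → ℂ)} {u : EN N → (Fin g → ℂ)}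

/-- the differential of a chart maps to the tangent spaces -/
theorem tan_fderiv_chart {σ : ℂ × ℂ → EN N} {p : ℂ × ℂ} (hσ : AnalyticAt ℂ σ p) (hX : ∀ᶠ q in 𝓝 p, σ q ∈ X) (v : ℂ × ℂ) :
    Tan X (σ p) (fderiv ℂ σ p v) := by
  have hl : AnalyticAt ℂ (fun z : ℂ => p + z • v) 0 := by fun_prop
  have h0 : p + (0 : ℂ) • v = p := by simp
  have hσ' : AnalyticAt ℂ σ (p + (0 : ℂ) • v) := by rwa [h0]
  refine ⟨fun z => σ (p + z • v), ⟨AnalyticAt.comp (g := σ) (f := fun z : ℂ => p + z • v) hσ' hl, ?_⟩, by simp, ?_⟩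
  · have h1 : Tendsto (fun z : ℂ => p + z • v) (𝓝 0) (𝓝 p) := by
      have := hl.continuousAt.tendsto
      rwa [h0] at this
    exact h1.eventually hX
  · have h1 : HasFDerivAt σ (fderiv ℂ σ p) (p + (0 : ℂ) • v) := by
      rw [h0]
      exact hσ.differentiableAt.hasFDerivAt
    have h2 : HasDerivAt (fun z : ℂ => p + z • v) v 0 := by
      have h3 : HasDerivAt (fun z : ℂ => z • v) ((1 : ℂ) • v) 0 := (hasDerivAt_id (0 : ℂ)).smul_const v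
      rw [one_smul] at h3
      exact h3.const_add p
    exact (h1.comp_hasDerivAt (0 : ℂ) h2).deriv

/-- the tangent spaces in a chart -/
theorem tan_chart (_hX : Surface X) {σ : ℂ × ℂ → EN N} {τ : EN N → ℂ × ℂ} (hσ : IsChart X σ τ) :
    ∀ᶠ p in 𝓝 (0 : ℂ × ℂ), σ p ∈ X ∧ ∀ w, Tan X (σ p) w → ∃ (v : ℂ × ℂ) (a : ℂ), w = fderiv ℂ σ p v + a • σ p := by
  have hσc : Tendsto σ (𝓝 (0 : ℂ × ℂ)) (𝓝 (σ 0)) := hσ.σ_an.continuousAt.tendsto
  have hne : ∀ᶠ p in 𝓝 (0 : ℂ × ℂ), σ p ≠ 0 := hσ.σ_an.continuousAt.eventually_ne hσ.ne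
  filter_upwards [hσc.eventually (Pool.Agent.H36.TB.exists_coef hσ), hσ.σ_mem, hσ.left, hne] with p h1 h2 h3 h4
  refine ⟨h2, fun w hw => ?_⟩
  obtain ⟨F, ⟨hF, hFX⟩, hF0, hFd⟩ := hw
  obtain ⟨c, a, hc, h5, h6⟩ := h1 F 0 hF hFX hF0
  rw [hF0, h3] at h5
  rw [h3] at h6
  have hc1 : c = 1 := by
    by_contra hc1
    apply h4
    have h7 : (c - 1) • σ p = 0 := by
      rw [sub_smul, one_smul, ← h5, sub_self]
    exact (smul_eq_zero.1 h7).resolve_left (sub_ne_zero.2 hc1)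
  rw [hc1, one_smul] at h6
  exact ⟨_, a, hFd ▸ h6⟩

/-- the differential of `u` in a chart -/
theorem du_chart (_hX : Surface X) (hu : TorusMapV X Λ u) (hΛ : DiscreteSub Λ) {σ : ℂ × ℂ → EN N} {τ : EN N → ℂ × ℂ} (hσ : IsChart X σ τ) :
    ∃ U : ℂ × ℂ → (Fin g → ℂ), AnalyticAt ℂ U 0 ∧ (∀ᶠ p in 𝓝 (0 : ℂ × ℂ), u (σ p) - U p ∈ Λ) ∧
      ∀ᶠ p in 𝓝 (0 : ℂ × ℂ), ∀ v : ℂ × ℂ, Tan X (σ p) (fderiv ℂ σ p v) ∧ hu.du (σ p) (fderiv ℂ σ p v) = fderiv ℂ U p v := by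
  have hx : σ 0 ∈ X := hσ.σ_mem.self_of_nhds
  have hl := hu.lift_an hx
  have hσc : Tendsto σ (𝓝 (0 : ℂ × ℂ)) (𝓝 (σ 0)) := hσ.σ_an.continuousAt.tendsto
  refine ⟨fun p => hu.lift (σ 0) (σ p), AnalyticAt.comp (g := hu.lift (σ 0)) (f := σ) hl hσ.σ_an, ?_, ?_⟩
  · filter_upwards [hσc.eventually (hu.lift_mem hx), hσ.σ_mem] with p h1 h2
    exact h1 h2
  · filter_upwards [hσ.σ_an.eventually_analyticAt, hσ.σ_mem.eventually_nhds, hσc.eventually hl.eventually_analyticAt,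
      hσc.eventually (hu.lift_mem hx).eventually_nhds] with p h1 h2 h3 h4 v
    have h5 := tan_fderiv_chart h1 h2 v
    refine ⟨h5, ?_⟩
    rw [hu.du_eq hΛ h5 h3 h4]
    have h8 : HasFDerivAt (fun x => hu.lift (σ 0) (σ x)) ((fderiv ℂ (hu.lift (σ 0)) (σ p)).comp (fderiv ℂ σ p)) p :=
      HasFDerivAt.comp (g := hu.lift (σ 0)) (f := σ) p h3.differentiableAt.hasFDerivAt h1.differentiableAt.hasFDerivAt
    rw [h8.fderiv]
    rfl

theorem du_add_smul (hX : IsCone X) (hu : TorusMapV X Λ u) (hΛ : DiscreteSub Λ) {x : EN N} (hx : x ∈ X) (v : EN N) (a : ℂ) :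
    hu.du x (v + a • x) = hu.du x v := by
  have h1 : hu.du x (v + a • x) = hu.du x v + a • hu.du x x := by
    unfold TorusMapV.du
    rw [map_add, map_smul]
  rw [h1, hu.du_self hΛ hX hx, smul_zero, add_zero]

theorem isCone (hX : Surface X) : IsCone X where
  zero_notMem := hX.zero
  smul_mem := hX.smul
  closed := by
    refine isClosed_of_closure_subset fun x hx => ?_
    by_cases h0 : x = 0
    · exact Or.inl h0
    · rw [Set.insert_eq, closure_union, closure_singleton] at hx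
      rcases hx with hx | hx
      · exact absurd hx h0
      · exact Or.inr (hX.closed x hx h0)

/-- an analytic function of two variables, its differential in coordinates -/
theorem fderiv_pair {E : Type*} [NormedAddCommGroup E] [NormedSpace ℂ E] (L : ℂ × ℂ →L[ℂ] E) (v : ℂ × ℂ) :
    L v = v.1 • L (1, 0) + v.2 • L (0, 1) := by
  have h : v = v.1 • ((1 : ℂ), (0 : ℂ)) + v.2 • ((0 : ℂ), (1 : ℂ)) := by
    ext <;> simp
  conv_lhs => rw [h]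
  rw [map_add, map_smul, map_smul]

/-- `Crit`, `RankOne` in a chart -/
theorem mem_chart (hX : Surface X) (hu : TorusMapV X Λ u) (hΛ : DiscreteSub Λ) {σ : ℂ × ℂ → EN N} {τ : EN N → ℂ × ℂ} (hσ : IsChart X σ τ) :
    ∃ U : ℂ × ℂ → (Fin g → ℂ), AnalyticAt ℂ U 0 ∧ (∀ᶠ p in 𝓝 (0 : ℂ × ℂ), u (σ p) - U p ∈ Λ) ∧
      (∀ᶠ p in 𝓝 (0 : ℂ × ℂ), ∀ v : ℂ × ℂ, Tan X (σ p) (fderiv ℂ σ p v) ∧ hu.du (σ p) (fderiv ℂ σ p v) = fderiv ℂ U p v) ∧
      (∀ᶠ p in 𝓝 (0 : ℂ × ℂ), (σ p ∈ Crit hu ↔ ∀ i, fderiv ℂ U p (1, 0) i = 0 ∧ fderiv ℂ U p (0, 1) i = 0)) ∧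
      ∀ᶠ p in 𝓝 (0 : ℂ × ℂ), (σ p ∈ RankOne hu ↔ ∀ i j, fderiv ℂ U p (1, 0) i * fderiv ℂ U p (0, 1) j = fderiv ℂ U p (1, 0) j * fderiv ℂ U p (0, 1) i) := by
  have hc := isCone hX
  obtain ⟨U, hU, h1, h2⟩ := du_chart hX hu hΛ hσ
  refine ⟨U, hU, h1, h2, ?_, ?_⟩
  · filter_upwards [tan_chart hX hσ, h2] with p h3 h4
    constructor
    · rintro ⟨-, h5⟩ i
      have h6 := h5 _ (h4 (1, 0)).1
      have h7 := h5 _ (h4 (0, 1)).1
      rw [(h4 (1, 0)).2] at h6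
      rw [(h4 (0, 1)).2] at h7
      exact ⟨congrFun h6 i, congrFun h7 i⟩
    · intro h5
      refine ⟨h3.1, fun w hw => ?_⟩
      obtain ⟨v, a, rfl⟩ := h3.2 w hw
      rw [du_add_smul hc hu hΛ h3.1, (h4 v).2, fderiv_pair]
      funext i
      simp [(h5 i).1, (h5 i).2]
  · filter_upwards [tan_chart hX hσ, h2] with p h3 h4
    constructor
    · rintro ⟨-, h5⟩ i j
      have h6 := h5 _ _ (h4 (1, 0)).1 (h4 (0, 1)).1 i j
      rwa [(h4 (1, 0)).2, (h4 (0, 1)).2] at h6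
    · intro h5
      refine ⟨h3.1, fun v w hv hw i j => ?_⟩
      obtain ⟨v, a, rfl⟩ := h3.2 v hv
      obtain ⟨w, b, rfl⟩ := h3.2 w hw
      rw [du_add_smul hc hu hΛ h3.1, du_add_smul hc hu hΛ h3.1, (h4 v).2, (h4 w).2, fderiv_pair _ v, fderiv_pair _ w]
      have h6 := h5 i j
      simp only [Pi.add_apply, Pi.smul_apply, smul_eq_mul]
      linear_combination (v.1 * w.2 - v.2 * w.1) * h6

end Pool.Agent.E2
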