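import Pool.Agent.AD.T.Defs

/-!
# E2 NDefs: maps which are not constant on any nonempty open subset
-/

set_option autoImplicit false

namespace Pool.Agent.E2

open Pool.Agent.H17 (PN)

variable {N : ℕ}

/-- The map `u` from the subset `X` of `ℙ^N` to `T` is not constant on any nonempty open subset of `X` (in terms of the cone of `X`): every point of `X` is
a limit of points of `X` where `u` has a value other than `t`. -/
def NowhereConstant {T : Type} (X : Set (PN N)) (u : PN N → T) : Prop :=
  ∀ t : T, {x : Fin (N + 1) → ℂ | ∃ hx : x ≠ 0, Projectivization.mk ℂ x hx ∈ X} ⊆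
    closure {x | ∃ hx : x ≠ 0, Projectivization.mk ℂ x hx ∈ X ∧ u (Projectivization.mk ℂ x hx) ≠ t}

end Pool.Agent.E2
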