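import Pool.Agent.E2.Fin
import Pool.Agent.E2.NDefs

/-!
# E2 Torus: the fibres of a holomorphic map from a surface of general type to a complex torus, on projective surfaces
-/

set_option autoImplicit false

open Topology Filter Metric MvPolynomial

noncomputable section

namespace Pool.Agent.E2

open Pool.Agent.H36.BP (EN)
open Pool.Agent.H17 (PN VanishesAt HolomorphicInto)
open Pool.Agent.H17EF (projVar coneE LE mem_coneE GT exists_lift eval_smul_form)
open Pool.Agent.H62.FC (Homog)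
open Pool.Agent.H17LG.Variety (FunField)
open Pool.Agent.AD (IsHolomorphicTorusMap uV uV_eq sub_mem_iff torusMapV discreteSub_of)

variable {N g : ℕ}

theorem fib_dense {P : Ideal (MvPolynomial (Fin (N + 1)) ℂ)} (hP : Homog P) {Λ : AddSubgroup (Fin g → ℂ)} {u : PN N → (Fin g → ℂ) ⧸ Λ}
    (hn : NowhereConstant (projVar P) u) (t : Fin g → ℂ) : coneE P ⊆ closure (coneE P \ Fib (coneE P) Λ (uV Λ u) t) := by
  intro y hy
  have h1 := hn (t : (Fin g → ℂ) ⧸ Λ) ((mem_coneE hP).1 hy)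
  rw [mem_closure_iff_frequently] at h1 ⊢
  have h2 : Tendsto (LE N) (𝓝 ((LE N).symm y)) (𝓝 y) := by
    have h3 := (LE N).continuous.tendsto ((LE N).symm y)
    rwa [ContinuousLinearEquiv.apply_symm_apply] at h3
  refine h2.frequently (h1.mono ?_)
  rintro x ⟨hx, hxX, hxt⟩
  have h4 : (LE N).symm ((LE N) x) = x := ContinuousLinearEquiv.symm_apply_apply _ _
  have h5 : (LE N).symm ((LE N) x) ≠ 0 := by rwa [h4]
  have h6 : (Projectivization.mk ℂ ((LE N).symm ((LE N) x)) h5) = Projectivization.mk ℂ x hx := by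
    congr 1
  refine ⟨(mem_coneE hP).2 ⟨h5, h6 ▸ hxX⟩, fun h7 => hxt ?_⟩
  have h8 := h7.2
  rw [sub_mem_iff, uV_eq Λ u h5, h6] at h8
  exact h8

/-- **The torus class**, on the projective surface. -/
theorem exists_R_fibres {P : Ideal (MvPolynomial (Fin (N + 1)) ℂ)} [P.IsPrime] (hP : Homog P) {z : Fin 2 → FunField P} (hz : IsTranscendenceBasis ℂ z)
    (hsm : ∀ y : Fin (N + 1) → ℂ, y ≠ 0 → (∀ Q ∈ P, eval y Q = 0) → Module.finrank ℂ (Pool.Agent.H13.SM.conTan P y) ≤ 3) (hgt : GT P 2)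
    {Λ : AddSubgroup (Fin g → ℂ)} [DiscreteTopology Λ] {u : PN N → (Fin g → ℂ) ⧸ Λ} (hu : IsHolomorphicTorusMap (projVar P) Λ u)
    (hn : NowhereConstant (projVar P) u) :
    ∃ (R : MvPolynomial (Fin (N + 1)) ℂ) (d : ℕ), R.IsHomogeneous d ∧ R ∉ P ∧ ∀ f : ℂ → PN N, HolomorphicInto f Set.univ →
      (∀ z, f z ∈ projVar P) → (∃ z w, f z ≠ f w) → (∀ z w, u (f z) = u (f w)) → ∀ z, VanishesAt R (f z) := by
  have hLGT : Pool.Agent.H62.FC.LogGeneralType P ∅ 2 := by
    have h1 : (Pool.Agent.H62.FC.OnBoundary P ∅ (w := 2)) = fun _ => False := by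
      funext E
      apply propext
      constructor
      · rintro ⟨j, -, -, i, hi, -⟩
        exact absurd hi (Finset.notMem_empty i)
      · exact False.elim
    unfold Pool.Agent.H62.FC.LogGeneralType
    rw [h1]
    exact hgt
  obtain ⟨R, d, hR, hRP, h⟩ := exists_R_torus hP hz hsm hLGT (torusMapV hP hu) (discreteSub_of Λ) (fib_dense hP hn)
  refine ⟨R, d, hR, hRP, fun f hf hfX hne hc w => ?_⟩
  obtain ⟨F, hF, hFf⟩ := exists_lift hf
  have hFX : ∀ z, F z ∈ coneE P := by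
    intro z
    obtain ⟨h1, h2⟩ := hFf z
    exact (mem_coneE hP).2 ⟨h1, h2 ▸ hfX z⟩
  have h0 := h F hF hFX (by
    obtain ⟨z, w, hzw⟩ := hne
    refine ⟨z, w, fun c hcon => hzw ?_⟩
    obtain ⟨h1, h1'⟩ := hFf z
    obtain ⟨h2, h2'⟩ := hFf w
    rw [h1', h2', Projectivization.mk_eq_mk_iff']
    exact ⟨c, by rw [← map_smul, ← hcon]⟩) (fun z => by
    obtain ⟨h1, h1'⟩ := hFf z
    obtain ⟨h2, h2'⟩ := hFf 0
    rw [sub_mem_iff, uV_eq Λ u h1, uV_eq Λ u h2, ← h1', ← h2']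
    exact hc z 0) w
  obtain ⟨h1, h1'⟩ := hFf w
  obtain ⟨a, ha, hrep⟩ := Pool.Agent.H36.BP.rep_mk h1
  rw [h1']
  unfold VanishesAt
  rw [hrep, eval_smul_form hR]
  have h2 : (LE N).symm (F w) = (F w).ofLp := rfl
  rw [h2, h0, mul_zero]

end Pool.Agent.E2
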