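import Pool.Agent.E2.SmallD
import Pool.Agent.E2.Torus
import Pool.Agent.E1.Main

/-!
# E2 Small: the main theorem for small classes
-/

set_option autoImplicit false

open Topology Filter Metric MvPolynomial

noncomputable section

namespace Pool.Agent.E2

open Pool.Agent.H36.BP (EN)
open Pool.Agent.H17 (PN VanishesAt HolomorphicInto)
open Pool.Agent.H17EF (projVar coneE)
open Pool.Agent.H17LG.Variety (FunField)
open Pool.Agent.H13.SM (conTan)
open Pool.Agent.H13.OT (OrderTwo)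
open Pool.Agent.H62.FC (Homog)
open Pool.Agent.AD (NullClass)
open Pool.Agent.AD.NC (IsSmooth IsOfLogGeneralType isOfLogGeneralType_zero)
open Pool.Agent.SY (IsHyperbolicSurface)
open Pool.Agent.SG2 (NegSurf)

variable {N : ℕ}

/-- the members of a small class lie in one curve -/
theorem exists_R_small {P : Ideal (MvPolynomial (Fin (N + 1)) ℂ)} [P.IsPrime] (hP : Homog P) (hdim : ∃ z : Fin 2 → FunField P, IsTranscendenceBasis ℂ z)
    (hsmooth : IsSmooth P 2) (hgt : IsOfLogGeneralType P (Fin.elim0 : Fin 0 → MvPolynomial (Fin (N + 1)) ℂ) 2) {A : Set (ℂ → PN N)}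
    (hs : SmallClass P A) :
    ∃ (R : MvPolynomial (Fin (N + 1)) ℂ) (d : ℕ), R.IsHomogeneous d ∧ R ∉ P ∧ ∀ f : ℂ → PN N, HolomorphicInto f Set.univ → OrderTwo f →
      (∀ z, f z ∈ projVar P) → (∃ z w, f z ≠ f w) → f ∈ A → ∀ z, VanishesAt R (f z) := by
  obtain ⟨z, hz⟩ := id hdim
  have hsm : ∀ y : Fin (N + 1) → ℂ, y ≠ 0 → (∀ Q ∈ P, eval y Q = 0) → Module.finrank ℂ (conTan P y) ≤ 3 :=
    fun y h0 h1 => hsmooth y h0 h1
  have hc : Pool.Agent.H14.PP.IsCone (coneE P) :=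
    Pool.Agent.H36.BP.isCone_transport (Pool.Agent.H17EF.LE N) (Pool.Agent.H13.SM.surface_cone hP hz fun y hy => hsm y hy.1 hy.2)
  induction hs with
  | curve A R d hR hRP h => exact ⟨R, d, hR, hRP, h⟩
  | coprime A m₁ m₂ h₁ h₂ θ₁ θ₂ hd h =>
    obtain ⟨R, d, hR, hRP, hR2⟩ := Pool.Agent.E1.exists_R hP hz hsm h₁ h₂ θ₁ θ₂
      fun σ τ hσ => Pool.Agent.E1.frequently_of_dense (Pool.Agent.E1.comNull_smul hc θ₁ θ₂) hd hσ
    exact ⟨R, d, hR, hRP, fun f hf _ hfX hfn hfA => hR2 f hf hfX hfn (h f hf hfX hfA).1 (h f hf hfX hfA).2⟩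
  | torus A g Λ hΛ u hu hn h =>
    obtain ⟨R, d, hR, hRP, hR2⟩ := exists_R_fibres hP hz hsm ((isOfLogGeneralType_zero P _ 2).1 hgt) hu hn
    exact ⟨R, d, hR, hRP, fun f hf _ hfX hfn hfA => hR2 f hf hfX hfn (h f hf hfX hfA)⟩
  | union A A₁ A₂ _ _ h ih₁ ih₂ =>
    obtain ⟨R₁, d₁, hR₁, hRP₁, h₁⟩ := ih₁
    obtain ⟨R₂, d₂, hR₂, hRP₂, h₂⟩ := ih₂
    refine ⟨R₁ * R₂, d₁ + d₂, hR₁.mul hR₂, fun h3 => ?_, fun f hf h2 hfX hfn hfA w => ?_⟩
    · rcases (inferInstance : P.IsPrime).mem_or_mem h3 with h4 | h4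
      · exact hRP₁ h4
      · exact hRP₂ h4
    · show eval (f w).rep (R₁ * R₂) = 0
      rw [map_mul]
      rcases h hfA with h4 | h4
      · have h5 : eval (f w).rep R₁ = 0 := h₁ f hf h2 hfX hfn h4 w
        rw [h5, zero_mul]
      · have h5 : eval (f w).rep R₂ = 0 := h₂ f hf h2 hfX hfn h4 w
        rw [h5, mul_zero]

/-- **SE**, for small null classes. -/
theorem main_small {P : Ideal (MvPolynomial (Fin (N + 1)) ℂ)} {m j : ℕ} {Ω : EN N → EN N → EN N → ℂ} {κ : Type}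
    {Q : κ → MvPolynomial (Fin (N + 1)) ℂ} {e μ : ℕ} [P.IsPrime] (hP : Homog P) (hdim : ∃ z : Fin 2 → FunField P, IsTranscendenceBasis ℂ z)
    (hsmooth : IsSmooth P 2) (hgt : IsOfLogGeneralType P (Fin.elim0 : Fin 0 → MvPolynomial (Fin (N + 1)) ℂ) 2)
    (hX : NegSurf P m j Ω Q e μ) (A : Set (ℂ → PN N)) (hA : NullClass P A) (hs : SmallClass P A) : IsHyperbolicSurface P := by
  obtain ⟨R, d, hR, hRP, h⟩ := exists_R_small hP hdim hsmooth hgt hs
  exact Pool.Agent.SG2.main_neg hP hdim hsmooth hgt hX A hA R d hR hRP h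

end Pool.Agent.E2
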