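import Pool.Agent.E1.Defs
import Pool.Agent.E2.NDefs
import Pool.Agent.H17EF.Bridge
import Pool.Agent.H14.V.MainV

/-!
# E2 SmallD: small classes of entire curves
-/

set_option autoImplicit false

open MvPolynomial

namespace Pool.Agent.E2

open Pool.Agent.H17 (PN VanishesAt HolomorphicInto)
open Pool.Agent.H17EF (projVar coneE)
open Pool.Agent.H13.OT (OrderTwo)
open Pool.Agent.AD (SymDiff TangentTo IsHolomorphicTorusMap)
open Pool.Agent.E1 (ComNull)

variable {N : ℕ}

/-- The set `A` of entire curves in the surface of `P` is small: its nonconstant members with `T_f (r) = O (r ^ 2)` lie in one curve `{R = 0}`, or its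
members are tangent to two symmetric differentials which have no common null direction at the points of a dense subset of the surface, or they lie in the
fibres of a holomorphic map to a complex torus which is constant on no nonempty open subset, or `A` is covered by two such sets. -/
inductive SmallClass (P : Ideal (MvPolynomial (Fin (N + 1)) ℂ)) : Set (ℂ → PN N) → Prop
  | curve (A : Set (ℂ → PN N)) (R : MvPolynomial (Fin (N + 1)) ℂ) (d : ℕ) (hR : R.IsHomogeneous d) (hRP : R ∉ P)
      (h : ∀ f : ℂ → PN N, HolomorphicInto f Set.univ → OrderTwo f → (∀ z, f z ∈ projVar P) → (∃ z w, f z ≠ f w) → f ∈ A →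
        ∀ z, VanishesAt R (f z)) : SmallClass P A
  | coprime (A : Set (ℂ → PN N)) (m₁ m₂ : ℕ) (h₁ : 1 ≤ m₁) (h₂ : 1 ≤ m₂) (θ₁ : SymDiff (coneE P) m₁) (θ₂ : SymDiff (coneE P) m₂)
      (hd : coneE P ⊆ closure (coneE P \ ComNull θ₁ θ₂))
      (h : ∀ f : ℂ → PN N, HolomorphicInto f Set.univ → (∀ z, f z ∈ projVar P) → f ∈ A → TangentTo θ₁ f ∧ TangentTo θ₂ f) : SmallClass P A
  | torus (A : Set (ℂ → PN N)) (g : ℕ) (Λ : AddSubgroup (Fin g → ℂ)) (hΛ : DiscreteTopology Λ) (u : PN N → (Fin g → ℂ) ⧸ Λ)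
      (hu : IsHolomorphicTorusMap (projVar P) Λ u) (hn : NowhereConstant (projVar P) u)
      (h : ∀ f : ℂ → PN N, HolomorphicInto f Set.univ → (∀ z, f z ∈ projVar P) → f ∈ A → ∀ z w, u (f z) = u (f w)) : SmallClass P A
  | union (A A₁ A₂ : Set (ℂ → PN N)) (h₁ : SmallClass P A₁) (h₂ : SmallClass P A₂) (h : A ⊆ A₁ ∪ A₂) : SmallClass P A

end Pool.Agent.E2
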