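import Pool.Agent.E2.Defs
import Pool.Agent.H17BP.Surf
import Pool.Agent.H17EF.Bridge
import Pool.Agent.H90.SG.Poly

/-!
# E2 Stub: the entire curves in the fibres of a holomorphic map from a surface of general type to a torus lie in one curve
(statements of the modules; never import this file in a hand-in)

`X` = cone of the surface, `u : X → ℂ^g / Λ`, `U p = u (σ p)` in a chart `σ`.

* `Proper` subsets of `X` lie in one curve `{R = 0}` (`Cov`, helper13, done).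
* `Crit = {du = 0}` is proper, `u (Crit)` is finite: `t 1 .. t r`; the fibres `Fib t` are proper.
* `RankOne \ Flat` is proper; an entire curve `F` in a fibre has `F z ∈ RankOne` for all `z`, thus `F z ∈ Flat` for all `z` or `F z ∉ Flat` for all `z`
  (one-chart identity theorem).  If `F z ∉ Flat`: `R_0 (F z) = 0`.
* If `F z ∈ Flat` and `u (F) = t i`: `R_i (F z) = 0`.
* If `F z ∈ Flat` and `u (F)` is none of the `t i`: the compact fibre does not meet `Crit`; the direction of the vector `du` is constant along `F`; with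
  `Ω ∈ M K - H` the function `(‖Ω (F, F', w)‖ ‖F‖) ^ (1 / M) / |du (F, w) j|` does not depend on `w`, is `≤ C fs (F, F')`, and has curvature
  `≤ - fs (F, F') ^ 2 / (2 M)`: it is `0` (Ahlfors), thus `Q₀ (F z) = 0`, where `{Q₀ = 0}` contains the zeros of `Ω`.
-/

set_option autoImplicit false

open Topology Filter Metric MvPolynomial

noncomputable section

namespace Pool.Agent.E2.Stub

open Pool.Agent.H36.BP (EN fs wd Sub)
open Pool.Agent.H14.PP (IsCone Tan)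
open Pool.Agent.H17BP (Surface IsChart IsForm NoZeros)
open Pool.Agent.H62.FC (Homog)
open Pool.Agent.H17LG.Variety (FunField)
open Pool.Agent.H17EF (coneE)
open Pool.Agent.AD (TorusMapV DiscreteSub)
open Pool.Agent.E2 (Proper Fib Crit RankOne Flat)

variable {N g : ℕ} {X : Set (EN N)} {Λ : AddSubgroup (Fin g → ℂ)} {u : EN N → (Fin g → ℂ)}

/-- MODULE Cov (helper13, done): proper analytic subsets lie in an algebraic curve -/
theorem exists_form_of_proper {P : Ideal (MvPolynomial (Fin (N + 1)) ℂ)} [P.IsPrime] {z : Fin 2 → FunField P} (hz : IsTranscendenceBasis ℂ z)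
    (hX : Surface (coneE P)) {Z : Set (EN N)} (hZX : Z ⊆ coneE P) (hZs : ∀ x ∈ Z, ∀ c : ℂ, c ≠ 0 → c • x ∈ Z) (hloc : Proper (coneE P) Z) :
    ∃ (R : MvPolynomial (Fin (N + 1)) ℂ) (d : ℕ), R.IsHomogeneous d ∧ R ∉ P ∧ ∀ x ∈ Z, eval x.ofLp R = 0 := by
  sorry

/-- MODULE Cov (helper13, done): the cover by discs -/
theorem exists_discs (hX : Surface X) {Z : Set (EN N)} (hZX : Z ⊆ X) (hZs : ∀ x ∈ Z, ∀ c : ℂ, c ≠ 0 → c • x ∈ Z) (hloc : Proper X Z) :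
    ∃ (r : ℕ) (γ : Fin r → ℂ → EN N), (∀ i, AnalyticOnNhd ℂ (γ i) (closedBall 0 1)) ∧
      (∀ i, ∀ z ∈ closedBall (0 : ℂ) 1, γ i z ∈ Z) ∧
      ∀ x ∈ Z, ∃ i, ∃ z ∈ closedBall (0 : ℂ) (1 / 2), ∃ c : ℂ, c ≠ 0 ∧ γ i z = c • x := by
  sorry

/-- MODULE Loc (helper13): the differential of `u` in a chart (`U = hu.lift (σ 0) ∘ σ`) -/
theorem du_chart (hX : Surface X) (hu : TorusMapV X Λ u) (hΛ : DiscreteSub Λ) {σ : ℂ × ℂ → EN N} {τ : EN N → ℂ × ℂ} (hσ : IsChart X σ τ) :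
    ∃ U : ℂ × ℂ → (Fin g → ℂ), AnalyticAt ℂ U 0 ∧ (∀ᶠ p in 𝓝 (0 : ℂ × ℂ), u (σ p) - U p ∈ Λ) ∧
      ∀ᶠ p in 𝓝 (0 : ℂ × ℂ), ∀ v : ℂ × ℂ, Tan X (σ p) (fderiv ℂ σ p v) ∧ hu.du (σ p) (fderiv ℂ σ p v) = fderiv ℂ U p v := by
  sorry

/-- MODULE Loc (helper13): the tangent spaces in a chart -/
theorem tan_chart (hX : Surface X) {σ : ℂ × ℂ → EN N} {τ : EN N → ℂ × ℂ} (hσ : IsChart X σ τ) :
    ∀ᶠ p in 𝓝 (0 : ℂ × ℂ), σ p ∈ X ∧ ∀ w, Tan X (σ p) w → ∃ (v : ℂ × ℂ) (a : ℂ), w = fderiv ℂ σ p v + a • σ p := by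
  sorry

/-- MODULE Loc (helper13): `Crit`, `RankOne` in a chart -/
theorem mem_chart (hX : Surface X) (hu : TorusMapV X Λ u) (hΛ : DiscreteSub Λ) {σ : ℂ × ℂ → EN N} {τ : EN N → ℂ × ℂ} (hσ : IsChart X σ τ) :
    ∃ U : ℂ × ℂ → (Fin g → ℂ), AnalyticAt ℂ U 0 ∧ (∀ᶠ p in 𝓝 (0 : ℂ × ℂ), u (σ p) - U p ∈ Λ) ∧
      (∀ᶠ p in 𝓝 (0 : ℂ × ℂ), ∀ v : ℂ × ℂ, Tan X (σ p) (fderiv ℂ σ p v) ∧ hu.du (σ p) (fderiv ℂ σ p v) = fderiv ℂ U p v) ∧
      (∀ᶠ p in 𝓝 (0 : ℂ × ℂ), (σ p ∈ Crit hu ↔ ∀ i, fderiv ℂ U p (1, 0) i = 0 ∧ fderiv ℂ U p (0, 1) i = 0)) ∧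
      ∀ᶠ p in 𝓝 (0 : ℂ × ℂ), (σ p ∈ RankOne hu ↔ ∀ i j, fderiv ℂ U p (1, 0) i * fderiv ℂ U p (0, 1) j = fderiv ℂ U p (1, 0) j * fderiv ℂ U p (0, 1) i) := by
  sorry

/-- MODULE Crit (helper13): the fibres are proper -/
theorem proper_fib (hX : Surface X) (hu : TorusMapV X Λ u) (hΛ : DiscreteSub Λ) {t : Fin g → ℂ} (h : X ⊆ closure (X \ Fib X Λ u t)) :
    Proper X (Fib X Λ u t) := by
  sorry

/-- MODULE Crit (helper13): the critical set is proper -/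
theorem proper_crit (hX : Surface X) (hu : TorusMapV X Λ u) (hΛ : DiscreteSub Λ) (h : ∀ t, X ⊆ closure (X \ Fib X Λ u t)) : Proper X (Crit hu) := by
  sorry

/-- MODULE Crit (helper13): finitely many critical values -/
theorem finite_crit (hX : Surface X) (hu : TorusMapV X Λ u) (hΛ : DiscreteSub Λ) (h : ∀ t, X ⊆ closure (X \ Fib X Λ u t)) :
    ∃ (r : ℕ) (t : Fin r → (Fin g → ℂ)), ∀ x ∈ Crit hu, ∃ i, u x - t i ∈ Λ := by
  sorry

/-- MODULE Open: the points of `RankOne` which are not in its interior form a proper analytic subset.  (At `σ 0 = x`: if `σ p ∈ Flat` for some `p` in a small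
ball, where `fderiv U` is analytic, then all the `2 × 2` minors vanish on an open subset of the ball, thus on the ball, and `x ∈ Flat`.) -/
theorem proper_rank (hX : Surface X) (hu : TorusMapV X Λ u) (hΛ : DiscreteSub Λ) : Proper X (RankOne hu \ Flat hu) := by
  sorry

/-- MODULE Open: the dichotomy (`Flat` is open in `X`, and closed in `X` by the argument of `proper_rank`) -/
theorem flat_or (hX : Surface X) (hu : TorusMapV X Λ u) (hΛ : DiscreteSub Λ) {F : ℂ → EN N} (hF : Continuous F) (hFX : ∀ z, F z ∈ X) :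
    (∀ z, F z ∈ Flat hu) ∨ ∀ z, F z ∉ Flat hu := by
  sorry

/-- MODULE Open: entire curves in the fibres pass through points of rank at most one only (`0 < fs (F z) (deriv F z)` off a discrete set, and
`RankOne` is closed in `X`) -/
theorem mem_rankOne (hX : Surface X) (hu : TorusMapV X Λ u) (hΛ : DiscreteSub Λ) {F : ℂ → EN N} (hF : Differentiable ℂ F) (hFX : ∀ z, F z ∈ X)
    (hne : ∃ z w, ∀ c : ℂ, F z ≠ c • F w) (h0 : ∀ z, hu.du (F z) (deriv F z) = 0) (z : ℂ) : F z ∈ RankOne hu := by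
  sorry

/-- MODULE Dir: the direction of `du` is constant along a curve in a fibre.  Local: near `x = F z₀`, in a chart, `U : (ℂ × ℂ, 0) → ℂ^g` has rank exactly one;
if `∂₂ U_i ≠ 0` at `0`, then `∂ U_j = h ∂ U_i` with `h` analytic, and `∂₁ h ∂₂ U_i = ∂₂ h ∂₁ U_i` (equality of the mixed derivatives), thus `h` is constant
along `F`, as `dU_i (F') = 0`.  So for each `i` the set `{z | du (F z) w i = 0 for all w}` is open and closed, one of them is empty, and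
`h` is locally constant, thus constant. -/
theorem exists_dir (hX : Surface X) (hu : TorusMapV X Λ u) (hΛ : DiscreteSub Λ) {F : ℂ → EN N} (hF : Differentiable ℂ F) (hFX : ∀ z, F z ∈ X)
    (h0 : ∀ z, hu.du (F z) (deriv F z) = 0) (hflat : ∀ z, F z ∈ Flat hu) (hcrit : ∀ z, F z ∉ Crit hu) :
    ∃ (i : Fin g) (C : ℝ), 0 ≤ C ∧ ∀ z w, Tan X (F z) w → ‖hu.du (F z) w‖ ≤ C * ‖hu.du (F z) w i‖ := by
  sorry

/-- MODULE Bd: the bound on a compact fibre without critical points (`K ∩ sphere` is compact; in a chart with coordinates `v'`, `w'` of `v`, `w`, and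
`E = dU_i` with `|E| ≥ c`: `E (v') = 0` gives `|v' ∧ w'| |E| = |v'| |E (w')|`, and `|v'| ≤ C fs x v`) -/
theorem bound_fib (hX : Surface X) (hu : TorusMapV X Λ u) (hΛ : DiscreteSub Λ) {M : ℕ} (hM : 1 ≤ M) {Ω : EN N → EN N → EN N → ℂ} (hΩ : IsForm X M 1 Ω)
    {t : Fin g → ℂ} (hcrit : ∀ x ∈ Fib X Λ u t, x ∉ Crit hu) :
    ∃ C : ℝ, 0 ≤ C ∧ ∀ x ∈ Fib X Λ u t, ∀ v w, Tan X x v → Tan X x w → hu.du x v = 0 → ‖Ω x v w‖ * ‖x‖ ≤ (C * fs x v * ‖hu.du x w‖) ^ M := by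
  sorry

/-- MODULE AhlA: Ahlfors's lemma (compare `l z * (R ^ 2 - ‖z‖ ^ 2)` at its maximum on the disc; `Sub` of `R ^ 2 - ‖z‖ ^ 2` with the exponent
`- (R / (R ^ 2 - ‖z‖ ^ 2)) ^ 2`) -/
theorem ahlfors {l : ℂ → ℝ} (hl : Continuous l) (h0 : ∀ z, 0 ≤ l z) {c : ℝ} (hc : 0 < c) (hs : ∀ z, 0 < l z → Sub l z (c * l z ^ 2)) (z : ℂ) :
    l z = 0 := by
  sorry

/-- MODULE AhlB: the form vanishes along the curve.  `l z = (‖Ω (F z) (F' z) w‖ * ‖F z‖) ^ (1 / M) / ‖du (F z) w i‖` for any `w` with `du (F z) w i ≠ 0`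
(independent of `w`: the kernel of `du (F z) · i` on the tangent space modulo `F z` is spanned by `F' z`, or `F' z ∈ ℂ F z` and `l z = 0`); near `z₀` take
`w = fderiv σ (τ (F z)) w₀`, `w₀ ∈ ℂ × ℂ` fixed: `l` = `|holomorphic| ^ (1 / M) / |holomorphic|` times `‖σ (τ (F z))‖ ^ (1 / M)`, `Sub.norm_rpow`. -/
theorem form_zero (hX : Surface X) (hu : TorusMapV X Λ u) (hΛ : DiscreteSub Λ) {M : ℕ} (hM : 1 ≤ M) {Ω : EN N → EN N → EN N → ℂ} (hΩ : IsForm X M 1 Ω)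
    {F : ℂ → EN N} (hF : Differentiable ℂ F) (hFX : ∀ z, F z ∈ X) (h0 : ∀ z, hu.du (F z) (deriv F z) = 0) {i : Fin g}
    (hi : ∀ z, ∃ w, Tan X (F z) w ∧ hu.du (F z) w i ≠ 0) {C : ℝ}
    (hb : ∀ z w, Tan X (F z) w → ‖Ω (F z) (deriv F z) w‖ * ‖F z‖ ≤ (C * fs (F z) (deriv F z) * ‖hu.du (F z) w i‖) ^ M) (z : ℂ) (w : EN N)
    (hw : Tan X (F z) w) : Ω (F z) (deriv F z) w = 0 := by
  sorry

/-- MODULE Kod: a section of `M K - H` without zeros off a curve (`H68.KR.exists_form_of_smooth`, transported as in `H17EF/MainE` `core_finite`), and the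
conclusion for a curve along which it vanishes (`F z, F' z, w` are linearly independent for a dense set of `z`, `{z | Q₀ (F z) = 0}` is closed) -/
theorem exists_form_gt {P : Ideal (MvPolynomial (Fin (N + 1)) ℂ)} [P.IsPrime] (hP : Homog P) {z : Fin 2 → FunField P} (hz : IsTranscendenceBasis ℂ z)
    (hsm : ∀ y : Fin (N + 1) → ℂ, y ≠ 0 → (∀ Q ∈ P, eval y Q = 0) → Module.finrank ℂ (Pool.Agent.H13.SM.conTan P y) ≤ 3)
    (hgt : Pool.Agent.H62.FC.LogGeneralType P ∅ 2) :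
    ∃ (M : ℕ) (Ω : EN N → EN N → EN N → ℂ) (D : ℕ) (Q : MvPolynomial (Fin (N + 1)) ℂ), 1 ≤ M ∧ Q.IsHomogeneous D ∧ Q ∉ P ∧ IsForm (coneE P) M 1 Ω ∧
      ∀ F : ℂ → EN N, Differentiable ℂ F → (∀ z, F z ∈ coneE P) → (∃ z w, ∀ c : ℂ, F z ≠ c • F w) →
        (∀ z w, Tan (coneE P) (F z) w → Ω (F z) (deriv F z) w = 0) → ∀ z, eval (F z).ofLp Q = 0 := by
  sorry

end Pool.Agent.E2.Stub
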